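import Pool.Agent.P.MP_f57657_co.SY.Defs

/-! The anchored graph: a clique of twins and a long path attached at the root. -/

open Matrix Finset

set_option linter.unusedSectionVars false

namespace Pool.Agent.P.MP_f57657_co.SY

open SX

namespace AncAux

section General

variable {W : Type} [Fintype W] [DecidableEq W] {R : Type} [CommRing R]

theorem am_pos {H : SimpleGraph W} {x y : W} (h : H.Adj x y) : am H x y = 1 := by
  simp only [am, Matrix.of_apply]
  rw [if_pos h]

theorem am_neg {H : SimpleGraph W} {x y : W} (h : ¬ H.Adj x y) : am H x y = 0 := by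
  simp only [am, Matrix.of_apply]
  rw [if_neg h]

theorem am_le (H : SimpleGraph W) (x y : W) : am H x y ≤ 1 := by
  by_cases h : H.Adj x y
  · rw [am_pos h]
  · rw [am_neg h]; exact zero_le_one

theorem sum_one (H : SimpleGraph W) (f : W → R) (x a : W) (ha : H.Adj x a)
    (h : ∀ y, H.Adj x y → y = a ∨ f y = 0) : ∑ y, ((am H x y : ℤ) : R) * f y = f a := by
  rw [Finset.sum_eq_single a]
  · rw [am_pos ha]; simp
  · intro y _ hy
    by_cases e : H.Adj x y
    · rcases h y e with h1 | h1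
      · exact absurd h1 hy
      · rw [h1, mul_zero]
    · rw [am_neg e]; simp
  · intro h'; exact absurd (Finset.mem_univ a) h'

theorem sum_two (H : SimpleGraph W) (f : W → R) (x a b : W) (hab : a ≠ b) (ha : H.Adj x a)
    (hb : H.Adj x b) (h : ∀ y, H.Adj x y → y = a ∨ y = b ∨ f y = 0) :
    ∑ y, ((am H x y : ℤ) : R) * f y = f a + f b := by
  rw [Finset.sum_eq_add_of_mem a b (Finset.mem_univ a) (Finset.mem_univ b) hab]
  · rw [am_pos ha, am_pos hb]; simp
  · intro y _ hy
    by_cases e : H.Adj x y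
    · rcases h y e with h1 | h1 | h1
      · exact absurd h1 hy.1
      · exact absurd h1 hy.2
      · rw [h1, mul_zero]
    · rw [am_neg e]; simp

theorem sum_ind_le (k a : ℕ) : ∑ j : Fin k, (if j.val = a then (1 : ℤ) else 0) ≤ 1 := by
  by_cases h : a < k
  · rw [Finset.sum_eq_single (⟨a, h⟩ : Fin k)]
    · simp
    · intro j _ hj
      rw [if_neg fun e => hj (Fin.ext e)]
    · intro h'; exact absurd (Finset.mem_univ _) h'
  · rw [Finset.sum_eq_zero]
    · exact zero_le_one
    · intro j _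
      rw [if_neg]
      have := j.isLt
      omega

/-- The three term recurrence along the path. -/
theorem seq_zero (u : ℕ → R) (k : ℕ) (hk : k % 3 = 1) (h0 : u 0 + u 1 = 0)
    (hs : ∀ j, j < k → u (j + 1) + (u j + u (j + 2)) = 0) :
    u (k + 1) = 0 ∧ (u k = 0 → ∀ j, j ≤ k + 1 → u j = 0) := by
  have h2 : ∀ i, 3 * i + 2 ≤ k + 1 → u (3 * i + 2) = 0 := by
    intro i
    induction i with
    | zero =>
      intro _
      have := hs 0 (by omega)
      simp only [zero_add, mul_zero] at this ⊢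
      linear_combination this - h0
    | succ i ih =>
      intro hi
      have e1 := ih (by omega)
      have e2 := hs (3 * i + 2) (by omega)
      have e3 := hs (3 * i + 3) (by omega)
      rw [show 3 * (i + 1) + 2 = 3 * i + 3 + 2 by omega]
      rw [show 3 * i + 2 + 1 = 3 * i + 3 by omega,
        show 3 * i + 2 + 2 = 3 * i + 3 + 1 by omega] at e2
      linear_combination e1 + e3 - e2
  have hk1 : u (k + 1) = 0 := by
    have := h2 (k / 3) (by omega)
    rwa [show 3 * (k / 3) + 2 = k + 1 by omega] at this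
  refine ⟨hk1, fun hk0 => ?_⟩
  have h3 : ∀ i, i ≤ k → u (k - i) = 0 ∧ u (k - i + 1) = 0 := by
    intro i
    induction i with
    | zero => exact fun _ => ⟨hk0, hk1⟩
    | succ i ih =>
      intro hi
      obtain ⟨e1, e2⟩ := ih (by omega)
      have e3 := hs (k - (i + 1)) (by omega)
      rw [show k - (i + 1) + 1 = k - i by omega]
      rw [show k - (i + 1) + 1 = k - i by omega,
        show k - (i + 1) + 2 = k - i + 1 by omega] at e3
      exact ⟨by linear_combination e3 - e1 - e2, e1⟩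
  intro j hj
  by_cases e : j = k + 1
  · rw [e]; exact hk1
  · have := (h3 (k - j) (by omega)).1
    rwa [show k - (k - j) = j by omega] at this

end General

variable {V : Type} [Fintype V] [DecidableEq V] (G : SimpleGraph V) (ρ : V) (tw k : ℕ)

theorem adj_ll (x y : V) : (ancG G ρ tw k).Adj (Sum.inl x) (Sum.inl y) ↔ G.Adj x y := by
  simp only [ancG, SimpleGraph.fromRel_adj, ancRel]
  exact ⟨fun h => h.2.elim id fun h => h.symm, fun h => ⟨by simpa using h.ne, Or.inl h⟩⟩

theorem adj_lt (x : V) (s : Fin tw) :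
    ¬ (ancG G ρ tw k).Adj (Sum.inl x) (Sum.inr (Sum.inl s)) := by
  simp [ancG, SimpleGraph.fromRel_adj, ancRel]

theorem adj_tl (x : V) (s : Fin tw) :
    ¬ (ancG G ρ tw k).Adj (Sum.inr (Sum.inl s)) (Sum.inl x) := by
  simp [ancG, SimpleGraph.fromRel_adj, ancRel]

theorem adj_lp (x : V) (i : Fin k) :
    (ancG G ρ tw k).Adj (Sum.inl x) (Sum.inr (Sum.inr i)) ↔ i.val + 1 = k ∧ x = ρ := by
  simp [ancG, SimpleGraph.fromRel_adj, ancRel]

theorem adj_pl (x : V) (i : Fin k) :
    (ancG G ρ tw k).Adj (Sum.inr (Sum.inr i)) (Sum.inl x) ↔ i.val + 1 = k ∧ x = ρ := by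
  simp [ancG, SimpleGraph.fromRel_adj, ancRel]

theorem adj_tt (s s' : Fin tw) :
    (ancG G ρ tw k).Adj (Sum.inr (Sum.inl s)) (Sum.inr (Sum.inl s')) ↔ s ≠ s' := by
  simp [ancG, SimpleGraph.fromRel_adj, ancRel]

theorem adj_tp (s : Fin tw) (i : Fin k) :
    (ancG G ρ tw k).Adj (Sum.inr (Sum.inl s)) (Sum.inr (Sum.inr i)) ↔ i.val = 0 := by
  simp [ancG, SimpleGraph.fromRel_adj, ancRel]

theorem adj_pt (s : Fin tw) (i : Fin k) :
    (ancG G ρ tw k).Adj (Sum.inr (Sum.inr i)) (Sum.inr (Sum.inl s)) ↔ i.val = 0 := by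
  simp [ancG, SimpleGraph.fromRel_adj, ancRel]

theorem adj_pp (i j : Fin k) :
    (ancG G ρ tw k).Adj (Sum.inr (Sum.inr i)) (Sum.inr (Sum.inr j)) ↔
      j.val = i.val + 1 ∨ i.val = j.val + 1 := by
  simp only [ancG, SimpleGraph.fromRel_adj, ancRel]
  refine ⟨fun h => h.2, fun h => ⟨?_, h⟩⟩
  intro e
  have : i = j := by simpa using e
  subst this
  omega

theorem ancP_path (i : Fin k) : ancP ρ tw k (i.val + 1) = Sum.inr (Sum.inr i) := by
  have := i.isLt
  unfold ancP
  rw [dif_pos ⟨by omega, by omega⟩]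
  simp

theorem ancP_top : ancP ρ tw k (k + 1) = Sum.inl ρ := by
  unfold ancP
  rw [dif_neg (by omega)]

theorem lay_rho : ancLay ρ tw k (Sum.inl ρ) = k + 1 := by simp [ancLay]

theorem lay_inl (x : V) : k + 1 ≤ ancLay ρ tw k (Sum.inl x) ∧ ancLay ρ tw k (Sum.inl x) ≤ k + 2 := by
  simp only [ancLay]
  split_ifs <;> omega

theorem lay_zero {x : V ⊕ (Fin tw ⊕ Fin k)} (h : ancLay ρ tw k x = 0) :
    ∃ s, x = Sum.inr (Sum.inl s) := by
  rcases x with x | s | i
  · have := lay_inl ρ tw k x; omega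
  · exact ⟨s, rfl⟩
  · simp [ancLay] at h

/-- Each path vertex is adjacent to the next vertex on the path. -/
theorem adj_next (i : Fin k) :
    (ancG G ρ tw k).Adj (Sum.inr (Sum.inr i)) (ancP ρ tw k (i.val + 2)) := by
  have := i.isLt
  by_cases h : i.val + 1 < k
  · have e := ancP_path ρ tw k ⟨i.val + 1, h⟩
    simp only at e
    rw [show i.val + 2 = i.val + 1 + 1 from rfl, e, adj_pp]
    exact Or.inl rfl
  · rw [show i.val + 2 = k + 1 by omega, ancP_top, adj_pl]
    exact ⟨by omega, rfl⟩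

theorem card_L0 : (Lk (ancLay ρ tw k) 0).card = tw := by
  have : Lk (ancLay ρ tw k) 0 = Finset.univ.map
      (⟨fun s : Fin tw => Sum.inr (Sum.inl s), fun a b h => by simpa using h⟩ :
        Fin tw ↪ V ⊕ (Fin tw ⊕ Fin k)) := by
    ext x
    simp only [Lk, Finset.mem_filter, Finset.mem_univ, true_and, Finset.mem_map,
      Function.Embedding.coeFn_mk]
    constructor
    · intro h
      obtain ⟨s, hs⟩ := lay_zero ρ tw k h
      exact ⟨s, hs.symm⟩
    · rintro ⟨s, rfl⟩
      rfl
  rw [this, Finset.card_map, Finset.card_univ, Fintype.card_fin]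

theorem card_U : (Uk (ancLay ρ tw k) (k + 1)).card = Fintype.card V := by
  have : Uk (ancLay ρ tw k) (k + 1) = Finset.univ.map
      (⟨Sum.inl, Sum.inl_injective⟩ : V ↪ V ⊕ (Fin tw ⊕ Fin k)) := by
    ext x
    simp only [Uk, Finset.mem_filter, Finset.mem_univ, true_and, Finset.mem_map,
      Function.Embedding.coeFn_mk]
    constructor
    · intro h
      rcases x with x | s | i
      · exact ⟨x, rfl⟩
      · simp [ancLay] at h
      · have := i.isLt
        simp only [ancLay] at h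
        omega
    · rintro ⟨s, rfl⟩
      exact (lay_inl ρ tw k s).1
  rw [this, Finset.card_map, Finset.card_univ]

theorem layered : Layered (ancLay ρ tw k) (ancG G ρ tw k) := by
  intro x y h
  rcases x with x | s | i <;> rcases y with y | s' | j
  · have := lay_inl ρ tw k x
    have := lay_inl ρ tw k y
    omega
  · exact absurd h (adj_lt G ρ tw k _ _)
  · have := lay_inl ρ tw k x
    have := j.isLt
    have e : ancLay ρ tw k (Sum.inr (Sum.inr j)) = j.val + 1 := rfl
    omega
  · exact absurd h (adj_tl G ρ tw k _ _)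
  · simp [ancLay]
  · rw [adj_tp] at h
    simp only [ancLay]
    omega
  · rw [adj_pl] at h
    rw [h.2, lay_rho]
    simp only [ancLay]
    omega
  · simp [ancLay]
  · rw [adj_pp] at h
    simp only [ancLay]
    omega

theorem up_le (lay : V ⊕ (Fin tw ⊕ Fin k) → ℕ) (H : SimpleGraph (V ⊕ (Fin tw ⊕ Fin k)))
    (x y : V ⊕ (Fin tw ⊕ Fin k)) : up lay 1 (am H) x y ≤ am H x y := by
  simp only [up, Matrix.of_apply]
  split_ifs
  · exact le_rfl
  · by_cases h : H.Adj x y
    · rw [am_pos h]; exact zero_le_one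
    · rw [am_neg h]

theorem deg_le (x : V ⊕ (Fin tw ⊕ Fin k)) (hx : 1 ≤ ancLay ρ tw k x) :
    ∑ y, up (ancLay ρ tw k) 1 (am (ancG G ρ tw k)) x y ≤ ((Fintype.card V + 2 : ℕ) : ℤ) := by
  have hab : ∃ a b : ℕ, ∀ j : Fin k, (ancG G ρ tw k).Adj x (Sum.inr (Sum.inr j)) →
      j.val = a ∨ j.val = b := by
    rcases x with x | s | i
    · refine ⟨k - 1, k - 1, fun j h => ?_⟩
      rw [adj_lp] at h
      omega
    · simp [ancLay] at hx
    · refine ⟨i.val + 1, i.val - 1, fun j h => ?_⟩
      rw [adj_pp] at h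
      omega
  obtain ⟨a, b, hab⟩ := hab
  rw [Fintype.sum_sum_type, Fintype.sum_sum_type]
  have h1 : ∑ y : V, up (ancLay ρ tw k) 1 (am (ancG G ρ tw k)) x (Sum.inl y) ≤
      (Fintype.card V : ℤ) := by
    calc _ ≤ ∑ _y : V, (1 : ℤ) :=
          Finset.sum_le_sum fun y _ => (up_le tw k _ _ _ _).trans (am_le _ _ _)
      _ = _ := by simp
  have h2 : ∑ s : Fin tw, up (ancLay ρ tw k) 1 (am (ancG G ρ tw k)) x (Sum.inr (Sum.inl s)) = 0 := by
    refine Finset.sum_eq_zero fun s _ => ?_
    simp [up, ancLay]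
  have h3 : ∑ j : Fin k, up (ancLay ρ tw k) 1 (am (ancG G ρ tw k)) x (Sum.inr (Sum.inr j)) ≤ 2 := by
    calc _ ≤ ∑ j : Fin k, ((if j.val = a then (1 : ℤ) else 0) + if j.val = b then 1 else 0) := by
          refine Finset.sum_le_sum fun j _ => (up_le tw k _ _ _ _).trans ?_
          by_cases h : (ancG G ρ tw k).Adj x (Sum.inr (Sum.inr j))
          · rw [am_pos h]
            have := hab j h
            split_ifs <;> omega
          · rw [am_neg h]
            split_ifs <;> omega
      _ ≤ 2 := by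
          rw [Finset.sum_add_distrib]
          have := sum_ind_le k a
          have := sum_ind_le k b
          omega
  push_cast
  omega

theorem front (hk : 1 ≤ k) (htw : 2 * (Fintype.card V + 2) + 2 ≤ tw) :
    Front (ancLay ρ tw k) (ancG G ρ tw k) (k + 1) (Fintype.card V + 2) (ancP ρ tw k) where
  layered := layered G ρ tw k
  two_le := by omega
  clique := by
    intro x y hx hy hxy
    obtain ⟨s, rfl⟩ := lay_zero ρ tw k hx
    obtain ⟨s', rfl⟩ := lay_zero ρ tw k hy
    rw [adj_tt]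
    rintro rfl
    exact hxy rfl
  pv_lay := by
    intro j h1 h2
    by_cases h : j = k + 1
    · rw [h, ancP_top, lay_rho]
    · have e := ancP_path ρ tw k ⟨j - 1, by omega⟩
      simp only at e
      rw [show j - 1 + 1 = j by omega] at e
      rw [e]
      simp only [ancLay]
      omega
  pv_uniq := by
    intro x h1 h2
    rcases x with x | s | i
    · by_cases h : x = ρ
      · rw [h, lay_rho, ancP_top]
      · simp only [ancLay, if_neg h] at h2
        omega
    · simp [ancLay] at h1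
    · exact (ancP_path ρ tw k i).symm
  pv_adj := by
    intro x hx
    rcases x with x | s | i
    · have := lay_inl ρ tw k x
      omega
    · have e := ancP_path ρ tw k ⟨0, by omega⟩
      simp only at e
      change (ancG G ρ tw k).Adj _ (ancP ρ tw k (0 + 1))
      rw [e, adj_tp]
    · exact adj_next G ρ tw k i
  deg := deg_le G ρ tw k
  big := by rw [card_L0]; exact htw

/-- The twin `s0`, then the path, then the root. -/
def qq (s0 : Fin tw) (j : ℕ) : V ⊕ (Fin tw ⊕ Fin k) :=
  if j = 0 then Sum.inr (Sum.inl s0) else ancP ρ tw k j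

theorem qq_zero (s0 : Fin tw) : qq ρ tw k s0 0 = Sum.inr (Sum.inl s0) := by simp [qq]

theorem qq_succ (s0 : Fin tw) (j : ℕ) : qq ρ tw k s0 (j + 1) = ancP ρ tw k (j + 1) := by simp [qq]

theorem qq_path (s0 : Fin tw) (i : Fin k) : qq ρ tw k s0 (i.val + 1) = Sum.inr (Sum.inr i) := by
  rw [qq_succ, ancP_path]

theorem lay_qq (s0 : Fin tw) (j : ℕ) (hj : j ≤ k + 1) : ancLay ρ tw k (qq ρ tw k s0 j) = j := by
  rcases j with _ | j
  · rw [qq_zero]; rfl
  · by_cases h : j = k
    · rw [h, qq_succ, ancP_top, lay_rho]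
    · rw [qq_path ρ tw k s0 ⟨j, by omega⟩]
      rfl

theorem adj_prev (s0 : Fin tw) (i : Fin k) :
    (ancG G ρ tw k).Adj (Sum.inr (Sum.inr i)) (qq ρ tw k s0 i.val) := by
  obtain ⟨i, hi⟩ := i
  rcases i with _ | i
  · rw [qq_zero, adj_pt]
  · rw [qq_path ρ tw k s0 ⟨i, by omega⟩, adj_pp]
    exact Or.inr rfl

theorem prev_ne_next (s0 : Fin tw) (i : Fin k) :
    qq ρ tw k s0 i.val ≠ ancP ρ tw k (i.val + 2) := by
  intro h
  have := i.isLt
  have e1 := lay_qq ρ tw k s0 i.val (by omega)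
  have e2 := lay_qq ρ tw k s0 (i.val + 2) (by omega)
  rw [qq_succ, ← h, e1] at e2
  omega

theorem sum_inl {R : Type} [CommRing R] (f : V ⊕ (Fin tw ⊕ Fin k) → R) (x : V) :
    ∑ y, ((am (ancG G ρ tw k) (Sum.inl x) y : ℤ) : R) * f y =
      ∑ y, ((am G x y : ℤ) : R) * f (Sum.inl y) +
        ∑ j : Fin k, if j.val + 1 = k ∧ x = ρ then f (Sum.inr (Sum.inr j)) else 0 := by
  rw [Fintype.sum_sum_type, Fintype.sum_sum_type]
  congr 1
  · refine Finset.sum_congr rfl fun y _ => ?_
    by_cases h : G.Adj x y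
    · rw [am_pos h, am_pos ((adj_ll G ρ tw k x y).2 h)]
    · rw [am_neg h, am_neg fun h' => h ((adj_ll G ρ tw k x y).1 h')]
  · rw [Finset.sum_eq_zero fun s _ => by rw [am_neg (adj_lt G ρ tw k x s)]; simp, zero_add]
    refine Finset.sum_congr rfl fun j _ => ?_
    split_ifs with h
    · rw [am_pos ((adj_lp G ρ tw k x j).2 h)]; simp
    · rw [am_neg fun h' => h ((adj_lp G ρ tw k x j).1 h')]; simp

theorem ker_ok (t : Fin 1 → V) (hk : k % 3 = 1) (hK : KerT G t) (s0 : Fin tw) :
    KerOK (ancG G (t 0) tw k) (Lk (ancLay (t 0) tw k) 0) (Sum.inr (Sum.inl s0)) := by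
  intro p hp f hz he
  have hz' : ∀ s : Fin tw, s ≠ s0 → f (Sum.inr (Sum.inl s)) = 0 := fun s hs =>
    hz _ (by simp [Lk, ancLay]) (by simpa using hs)
  have he' : ∀ x, 1 ≤ ancLay (t 0) tw k x →
      f x + ∑ y, ((am (ancG G (t 0) tw k) x y : ℤ) : ZMod p) * f y = 0 := by
    intro x hx
    refine he x fun h => ?_
    simp only [Lk, Finset.mem_filter, Finset.mem_univ, true_and] at h
    omega
  have hk0 : 0 < k := by omega
  have h0 : f (qq (t 0) tw k s0 0) + f (qq (t 0) tw k s0 1) = 0 := by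
    have e := he (Sum.inr (Sum.inl s0)) fun _ => rfl
    rw [sum_one _ f _ (Sum.inr (Sum.inr ⟨0, hk0⟩)) ((adj_tp G _ tw k _ _).2 rfl)] at e
    · rw [qq_zero, qq_path (t 0) tw k s0 ⟨0, hk0⟩]
      exact e
    · rintro (y | s | j) h
      · exact absurd h (adj_tl G _ tw k _ _)
      · rw [adj_tt] at h
        exact Or.inr (hz' s h.symm)
      · rw [adj_tp] at h
        exact Or.inl (by rw [show j = ⟨0, hk0⟩ from Fin.ext h])
  have hs : ∀ j, j < k → f (qq (t 0) tw k s0 (j + 1)) +
      (f (qq (t 0) tw k s0 j) + f (qq (t 0) tw k s0 (j + 2))) = 0 := by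
    intro j hj
    have e := he' (Sum.inr (Sum.inr ⟨j, hj⟩)) (by simp [ancLay])
    rw [sum_two _ f _ _ _ (prev_ne_next (t 0) tw k s0 ⟨j, hj⟩) (adj_prev G _ tw k s0 _)
      (adj_next G _ tw k _)] at e
    · rw [qq_path (t 0) tw k s0 ⟨j, hj⟩, qq_succ (t 0) tw k s0 (j + 1)]
      exact e
    · rintro (y | s | i) h
      · rw [adj_pl] at h
        refine Or.inr (Or.inl ?_)
        obtain ⟨h1, h2⟩ := h
        simp only at h1 ⊢
        rw [show j + 2 = k + 1 by omega, ancP_top, h2]
      · rw [adj_pt] at h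
        simp only at h ⊢
        by_cases e' : s = s0
        · exact Or.inl (by rw [h, qq_zero, e'])
        · exact Or.inr (Or.inr (hz' s e'))
      · rw [adj_pp] at h
        simp only at h ⊢
        rcases h with h | h
        · refine Or.inr (Or.inl ?_)
          rw [show j + 2 = i.val + 1 by omega, ancP_path]
        · exact Or.inl (by rw [h, qq_path])
  obtain ⟨a1, a2⟩ := seq_zero (fun j => f (qq (t 0) tw k s0 j)) k hk h0 hs
  have hρ : f (Sum.inl (t 0)) = 0 := by
    rwa [qq_succ, ancP_top] at a1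
  obtain ⟨b1, b2⟩ := hK p hp (fun x => f (Sum.inl x)) fun x hx => by
    have e := he' (Sum.inl x) (by have := lay_inl (t 0) tw k x; omega)
    rw [sum_inl, Finset.sum_eq_zero (s := (Finset.univ : Finset (Fin k)))
      fun j _ => if_neg fun h => hx 0 h.2, add_zero] at e
    exact e
  have hlast : f (qq (t 0) tw k s0 k) = 0 := by
    have e := he' (Sum.inl (t 0)) (by have := lay_inl (t 0) tw k (t 0); omega)
    rw [sum_inl, b1 0, hρ, Finset.sum_eq_single (⟨k - 1, by omega⟩ : Fin k)] at e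
    · rw [if_pos ⟨by simp only; omega, rfl⟩] at e
      have e2 := qq_path (t 0) tw k s0 ⟨k - 1, by omega⟩
      simp only at e2
      rw [show k - 1 + 1 = k by omega] at e2
      rw [e2]
      simpa using e
    · intro j _ hj
      refine if_neg fun h => hj (Fin.ext ?_)
      simp only
      omega
    · intro h'; exact absurd (Finset.mem_univ _) h'
  have a3 := a2 hlast
  rintro (x | s | i)
  · exact b2 (fun i => by rw [Subsingleton.elim i 0]; exact hρ) x
  · by_cases e : s = s0
    · have := a3 0 (by omega)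
      rwa [qq_zero, ← e] at this
    · exact hz' s e
  · have := a3 (i.val + 1) (by have := i.isLt; omega)
    rwa [qq_path] at this

theorem connected (hk : 1 ≤ k) (hr : ∀ x, G.Reachable ρ x) : (ancG G ρ tw k).Connected := by
  have hl : ∀ x, (ancG G ρ tw k).Reachable (Sum.inl ρ) (Sum.inl x) := fun x =>
    (hr x).map (⟨Sum.inl, fun h => (adj_ll G ρ tw k _ _).2 h⟩ : G →g ancG G ρ tw k)
  have hp : ∀ d, d ≤ k → (ancG G ρ tw k).Reachable (Sum.inl ρ) (ancP ρ tw k (k - d + 1)) := by
    intro d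
    induction d with
    | zero => intro _; rw [Nat.sub_zero, ancP_top]
    | succ d ih =>
      intro hd
      have e := adj_next G ρ tw k ⟨k - (d + 1), by omega⟩
      simp only at e
      rw [show k - (d + 1) + 2 = k - d + 1 by omega] at e
      rw [ancP_path ρ tw k ⟨k - (d + 1), by omega⟩]
      exact (ih (by omega)).trans e.symm.reachable
  have hp' : ∀ i : Fin k, (ancG G ρ tw k).Reachable (Sum.inl ρ) (Sum.inr (Sum.inr i)) := by
    intro i
    have := i.isLt
    have e := hp (k - i.val) (by omega)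
    rwa [show k - (k - i.val) = i.val by omega, ancP_path] at e
  rw [SimpleGraph.connected_iff_exists_forall_reachable]
  refine ⟨Sum.inl ρ, ?_⟩
  rintro (x | s | i)
  · exact hl x
  · exact (hp' ⟨0, by omega⟩).trans ((adj_pt G ρ tw k s _).2 rfl).reachable
  · exact hp' i

theorem two_nb (hk : 1 ≤ k) (htw : 2 ≤ tw) (hd : ∃ y, G.Adj ρ y)
    (h2 : ∀ x, x ≠ ρ → ∃ y z, y ≠ z ∧ G.Adj x y ∧ G.Adj x z) (x : V ⊕ (Fin tw ⊕ Fin k)) :
    ∃ y z, y ≠ z ∧ (ancG G ρ tw k).Adj x y ∧ (ancG G ρ tw k).Adj x z := by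
  rcases x with x | s | i
  · by_cases h : x = ρ
    · obtain ⟨y, hy⟩ := hd
      refine ⟨Sum.inl y, Sum.inr (Sum.inr ⟨k - 1, by omega⟩), by simp, ?_, ?_⟩
      · rw [adj_ll, h]; exact hy
      · rw [adj_lp]; exact ⟨by simp only; omega, h⟩
    · obtain ⟨y, z, a1, a2, a3⟩ := h2 x h
      exact ⟨Sum.inl y, Sum.inl z, by simpa using a1, (adj_ll G ρ tw k _ _).2 a2,
        (adj_ll G ρ tw k _ _).2 a3⟩
  · have : Nontrivial (Fin tw) := Fin.nontrivial_iff_two_le.2 htw
    obtain ⟨s', hs'⟩ := exists_ne s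
    exact ⟨Sum.inr (Sum.inl s'), Sum.inr (Sum.inr ⟨0, by omega⟩), by simp,
      (adj_tt G ρ tw k _ _).2 hs'.symm, (adj_tp G ρ tw k _ _).2 rfl⟩
  · exact ⟨_, _, prev_ne_next ρ tw k ⟨0, by omega⟩ i, adj_prev G ρ tw k _ i, adj_next G ρ tw k i⟩

end AncAux

open AncAux in
theorem pAnc : StAnc := by
  intro V _ _ G t tw k hk htw hP
  have hk1 : 1 ≤ k := by omega
  refine ⟨front G (t 0) tw k hk1 htw,
    ⟨Sum.inr (Sum.inl ⟨0, by omega⟩), rfl, ker_ok G tw k t hk hP.ker _⟩, card_U _ tw k,
    connected G _ tw k hk1 fun x => ?_, two_nb G _ tw k hk1 (by omega) ?_ fun x hx => ?_⟩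
  · obtain ⟨i, hi⟩ := hP.reach x
    rwa [Subsingleton.elim (α := Fin 1) i 0] at hi
  · by_contra h
    have e := hP.deg0
    rw [Finset.sum_eq_zero fun y _ => am_neg fun h' => h ⟨y, h'⟩] at e
    exact absurd e (by norm_num)
  · exact hP.two x fun i => by rwa [Subsingleton.elim (α := Fin 1) i 0]

end Pool.Agent.P.MP_f57657_co.SY
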