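import Pool.Agent.P.MP_f57657_co.SY.Main
import Pool.Agent.P.MP_f57657_co.SX.Main
import Pool.Agent.P.MP_f57657_co.SX.One
import Pool.Agent.P.MP_f57657_co.SX.Top
import Pool.Agent.P.MP_f57657_co.SX.Twins
import Pool.Agent.P.MP_f57657_co.SX.Sim
import Pool.Agent.P.MP_f57657_co.SX.Glue

/-! The anchored graph of a rigid rooted graph is determined by its spectrum. -/

open Matrix Finset

namespace Pool.Agent.P.MP_f57657_co.SY

open SX

namespace AncDSAux

variable {V : Type} [Fintype V] [DecidableEq V] {ρ : V} {tw k : ℕ}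

omit [Fintype V] in
theorem lay_inr (u : Fin tw ⊕ Fin k) : ancLay ρ tw k (Sum.inr u) < k + 1 := by
  rcases u with u | u
  · simp [ancLay]
  · simp [ancLay]

omit [Fintype V] in
theorem lay_inl (x : V) : k + 1 ≤ ancLay ρ tw k (Sum.inl x) := by
  simp only [ancLay]
  split_ifs <;> omega

/-- The top part of a graph on the anchored vertex set. -/
theorem restr (hR : StRestr) (H : SimpleGraph (V ⊕ (Fin tw ⊕ Fin k))) :
    dd (up (ancLay ρ tw k) (k + 1) (am H)) = dd (am (H.comap Sum.inl)) ∧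
    ∀ j x y, (up (ancLay ρ tw k) (k + 1) (am H) ^ j) (Sum.inl x) (Sum.inl y) =
      (am (H.comap Sum.inl) ^ j) x y := by
  have e : (up (ancLay ρ tw k) (k + 1) (am H)).submatrix Sum.inl Sum.inl =
      am (H.comap Sum.inl) := by
    ext x y
    simp only [up, submatrix_apply, of_apply, lay_inl, and_self, if_true]
    rfl
  rw [← e]
  refine hR V _ _ (fun x w => ?_) fun x w => ?_
  · simp only [up, of_apply]
    exact if_neg fun h => absurd h.2 (not_le.2 (lay_inr w))
  · simp only [up, of_apply]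
    exact if_neg fun h => absurd h.1 (not_le.2 (lay_inr w))

theorem comap_anc (G : SimpleGraph V) : (ancG G ρ tw k).comap Sum.inl = G := by
  ext x y
  exact Main.anc_adj G ρ tw k x y

omit [Fintype V] [DecidableEq V] in
theorem adj_cross (G : SimpleGraph V) (u : Fin tw ⊕ Fin k) {x y : V} (h : x = ρ ↔ y = ρ) :
    (ancG G ρ tw k).Adj (Sum.inr u) (Sum.inl x) ↔ (ancG G ρ tw k).Adj (Sum.inr u) (Sum.inl y) := by
  rcases u with u | u <;> simp [ancG, SimpleGraph.fromRel_adj, ancRel, h]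

end AncDSAux

open AncDSAux

theorem pAncDS (hA : StAnc) (hR : StRestr) : StAncDS := by
  intro V _ _ G t tw k h1 h2 h3 hP hRig H0 hc
  obtain ⟨F, ⟨t0, ht0, hK⟩, hU, -, -⟩ := hA V G t tw k h1 h2 hP
  obtain ⟨H, ⟨hg, ⟨e0⟩⟩, ha, -⟩ := SX.Main.phaseA (pTop pSim) F
    (SX.Main.phase0 (pTwins pSim) F ht0 hK hc) (k + 1) le_rfl
  obtain ⟨d1, d2⟩ := pOne pGlue pBasic pSep _ _ _ H _ _ _ F hg ha.1 (by omega)
  have hp : ancP (t 0) tw k (k + 1) = Sum.inl (t 0) := dif_neg (by omega)
  rw [(restr hR H).1, (restr hR _).1, comap_anc] at d1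
  obtain ⟨e, he⟩ := hRig (H.comap Sum.inl) t d1 fun j i i' => by
    have := d2 j
    rw [hp, (restr hR H).2, (restr hR _).2, comap_anc] at this
    rwa [Subsingleton.elim i 0, Subsingleton.elim i' 0]
  have he' : ∀ x, e x = t 0 ↔ x = t 0 := fun x =>
    ⟨fun h => e.injective (h.trans (he 0).symm), fun h => h ▸ he 0⟩
  have key : ∀ u b, H.Adj (Sum.inr u) (Sum.map e id b) ↔
      (ancG G (t 0) tw k).Adj (Sum.inr u) b := fun u b => by
    rw [ha.1 _ _ (lay_inr u)]
    rcases b with y | w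
    · exact adj_cross G u (he' y)
    · exact Iff.rfl
  refine ⟨e0.trans (RelIso.symm (⟨Equiv.sumCongr e.toEquiv (Equiv.refl _), ?_⟩ :
    ancG G (t 0) tw k ≃g H))⟩
  rintro (x | u) b
  · rcases b with y | w
    · exact (e.map_adj_iff (v := x) (w := y)).trans (Main.anc_adj G _ tw k x y).symm
    · rw [H.adj_comm, (ancG G (t 0) tw k).adj_comm]
      exact key w (Sum.inl x)
  · exact key u b

end Pool.Agent.P.MP_f57657_co.SY
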