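import Pool.Agent.P.MP_f57657_co.SY.Main

/-! The core: controllability and the elementary properties. -/

open Matrix Finset

namespace Pool.Agent.P.MP_f57657_co.SY

open SX

namespace CoreAux

section Alg

variable {R : Type} [CommRing R]

/-- The eigenvalue equations on one gadget. -/
def Eqs (θ fx : R) (h : Fin 7 → R) : Prop :=
  fx + (h 1 + h 2 + h 4) = θ * h 0 ∧ h 0 + h 4 = θ * h 1 ∧ h 0 + h 5 = θ * h 2 ∧
    h 5 + h 6 = θ * h 3 ∧ h 0 + h 1 + h 6 = θ * h 4 ∧ h 2 + h 3 + h 6 = θ * h 5 ∧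
    h 3 + h 4 + h 5 = θ * h 6

/-- Characteristic polynomial of the gadget. -/
def chi (θ : R) : R := -6 - 9 * θ + 14 * θ ^ 2 + 21 * θ ^ 3 - 4 * θ ^ 4 - 9 * θ ^ 5 + θ ^ 7

/-- Characteristic polynomial of the gadget without its first vertex. -/
def chi1 (θ : R) : R := -1 + 2 * θ + 7 * θ ^ 2 - 2 * θ ^ 3 - 6 * θ ^ 4 + θ ^ 6

theorem g1 {θ fx : R} {h : Fin 7 → R} (e : Eqs θ fx h) : chi θ * h 0 = chi1 θ * fx := by
  obtain ⟨e0, e1, e2, e3, e4, e5, e6⟩ := e
  unfold chi chi1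
  linear_combination (-(-1 + 2 * θ + 7 * θ ^ 2 - 2 * θ ^ 3 - 6 * θ ^ 4 + θ ^ 6)) * e0 -
    (2 + 2 * θ - 6 * θ ^ 2 - 5 * θ ^ 3 + θ ^ 4 + θ ^ 5) * e1 -
    (3 + 6 * θ - θ ^ 2 - 5 * θ ^ 3 + θ ^ 5) * e2 - (-2 - 2 * θ + 3 * θ ^ 2 + 2 * θ ^ 3) * e3 -
    (1 - 5 * θ ^ 2 - 4 * θ ^ 3 + θ ^ 4 + θ ^ 5) * e4 - (1 + θ - θ ^ 2 + θ ^ 3 + θ ^ 4) * e5 -
    (-1 - 3 * θ - θ ^ 2 + 2 * θ ^ 3 + θ ^ 4) * e6

theorem bez (θ : R) :
    (22 - 74 * θ - 50 * θ ^ 2 + 87 * θ ^ 3 + 26 * θ ^ 4 - 21 * θ ^ 5) * chi θ +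
      (-133 - 20 * θ + 303 * θ ^ 2 + 86 * θ ^ 3 - 150 * θ ^ 4 - 26 * θ ^ 5 + 21 * θ ^ 6) *
        chi1 θ = 1 := by
  unfold chi chi1
  ring

theorem fx_zero {θ fx : R} {h : Fin 7 → R} (e : Eqs θ fx h) (hc : chi θ = 0) : fx = 0 := by
  have h1 := g1 e
  have h2 := bez θ
  rw [hc] at h1 h2
  linear_combination (-fx) * h2 -
    (-133 - 20 * θ + 303 * θ ^ 2 + 86 * θ ^ 3 - 150 * θ ^ 4 - 26 * θ ^ 5 + 21 * θ ^ 6) * h1

theorem g2 {θ fx : R} {h : Fin 7 → R} (e : Eqs θ fx h) (hf : fx = 0) (h0 : h 0 = 0) (a : Fin 7) :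
    h a = 0 := by
  obtain ⟨e0, e1, e2, e3, e4, e5, e6⟩ := e
  rw [h0] at e0 e1 e2 e4
  rw [hf] at e0
  have a4 : h 4 = θ * h 1 := by linear_combination e1
  have a2 : h 2 = -(1 + θ) * h 1 := by linear_combination e0 - a4
  have a5 : h 5 = θ * (-(1 + θ) * h 1) := by linear_combination e2 + θ * a2
  have a6 : h 6 = (θ ^ 2 - 1) * h 1 := by linear_combination e4 + θ * a4
  have a3 : h 3 = θ * (θ * (-(1 + θ) * h 1)) + (1 + θ) * h 1 - (θ ^ 2 - 1) * h 1 := by
    linear_combination e5 + θ * a5 - a2 - a6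
  have a1 : h 1 = 0 := by
    rw [a3, a5, a6] at e3
    rw [a3, a4, a5, a6] at e6
    linear_combination (-(-7 + 3 * θ + 6 * θ ^ 2)) * e3 - (-4 - 5 * θ + 3 * θ ^ 2 + 3 * θ ^ 3) * e6
  rw [a1] at a2 a3 a4 a5 a6
  fin_cases a
  · exact h0
  · exact a1
  · exact a2.trans (by ring)
  · exact a3.trans (by ring)
  · exact a4.trans (by ring)
  · exact a5.trans (by ring)
  · exact a6.trans (by ring)

end Alg

variable {N k : ℕ} (G : SimpleGraph (Fin (N + k)))

instance (a b : Fin 7) : Decidable (gam a b) := by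
  unfold gam
  infer_instance

/-- Adjacency between a root and the dense part. -/
def rr (N : ℕ) {k : ℕ} (j : Fin (k + 1)) (x : Fin (N + k)) : Prop :=
  (j.val = 0 ∧ (x.val = N ∨ x.val = N + 1)) ∨ (1 ≤ j.val ∧ x.val + 1 = N + j.val)

instance (j : Fin (k + 1)) (x : Fin (N + k)) : Decidable (rr N j x) := by
  unfold rr
  infer_instance

theorem adj_lg (x : Fin (N + k)) (q : Fin (N + k) × Fin 7) :
    (coreG G).Adj (Sum.inl x) (Sum.inr (Sum.inl q)) ↔ q.1 = x ∧ q.2 = 0 := by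
  simp [coreG, SimpleGraph.fromRel_adj, coreRel]

theorem adj_lr (x : Fin (N + k)) (j : Fin (k + 1)) :
    (coreG G).Adj (Sum.inl x) (Sum.inr (Sum.inr j)) ↔ rr N j x := by
  simp [coreG, SimpleGraph.fromRel_adj, coreRel, rr]

theorem gam_ne : ∀ a b : Fin 7, gam a b ∨ gam b a → a ≠ b := by decide

theorem adj_gg (q q' : Fin (N + k) × Fin 7) :
    (coreG G).Adj (Sum.inr (Sum.inl q)) (Sum.inr (Sum.inl q')) ↔
      q'.1 = q.1 ∧ (gam q.2 q'.2 ∨ gam q'.2 q.2) := by
  simp only [coreG, SimpleGraph.fromRel_adj, coreRel]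
  constructor
  · rintro ⟨-, h | h⟩
    · exact ⟨h.1.symm, Or.inl h.2⟩
    · exact ⟨h.1, Or.inr h.2⟩
  · rintro ⟨h1, h⟩
    refine ⟨fun e => gam_ne _ _ h ?_, h.elim (fun h => Or.inl ⟨h1.symm, h⟩) fun h => Or.inr ⟨h1, h⟩⟩
    simp only [Sum.inr.injEq, Sum.inl.injEq] at e
    rw [e]

theorem adj_gr (q : Fin (N + k) × Fin 7) (j : Fin (k + 1)) :
    ¬ (coreG G).Adj (Sum.inr (Sum.inl q)) (Sum.inr (Sum.inr j)) := by
  simp [coreG, SimpleGraph.fromRel_adj, coreRel]

theorem adj_rr (i j : Fin (k + 1)) :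
    ¬ (coreG G).Adj (Sum.inr (Sum.inr i)) (Sum.inr (Sum.inr j)) := by
  simp [coreG, SimpleGraph.fromRel_adj, coreRel]

section Sums

variable {R : Type} [CommRing R] (f : CV N k → R)

theorem cast_am {V : Type} (H : SimpleGraph V) (x y : V) (P : Prop) [Decidable P]
    (h : H.Adj x y ↔ P) (c : R) : ((am H x y : ℤ) : R) * c = if P then c else 0 := by
  simp only [am, Matrix.of_apply]
  by_cases hP : P
  · rw [if_pos (h.2 hP), if_pos hP]
    simp
  · rw [if_neg fun h' => hP (h.1 h'), if_neg hP]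
    simp

theorem sum_l (x : Fin (N + k)) :
    ∑ y, ((am (coreG G) (Sum.inl x) y : ℤ) : R) * f y =
      ∑ y, ((am G x y : ℤ) : R) * f (Sum.inl y) + (f (Sum.inr (Sum.inl (x, 0))) +
        ∑ j, if rr N j x then f (Sum.inr (Sum.inr j)) else 0) := by
  rw [Fintype.sum_sum_type, Fintype.sum_sum_type]
  congr 1
  · refine Finset.sum_congr rfl fun y _ => ?_
    classical
    rw [cast_am _ _ _ _ (Main.core_adj G x y), cast_am G x y _ Iff.rfl]
  · congr 1
    · rw [Finset.sum_eq_single (x, 0)]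
      · rw [cast_am _ _ _ _ (adj_lg G x _), if_pos ⟨rfl, rfl⟩]
      · intro q _ hq
        rw [cast_am _ _ _ _ (adj_lg G x _), if_neg fun h => hq (Prod.ext h.1 h.2)]
      · simp
    · exact Finset.sum_congr rfl fun j _ => cast_am _ _ _ _ (adj_lr G x j) _

theorem sum_g (x : Fin (N + k)) (a : Fin 7) :
    ∑ y, ((am (coreG G) (Sum.inr (Sum.inl (x, a))) y : ℤ) : R) * f y =
      (if a = 0 then f (Sum.inl x) else 0) +
        ∑ b, if gam a b ∨ gam b a then f (Sum.inr (Sum.inl (x, b))) else 0 := by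
  rw [Fintype.sum_sum_type, Fintype.sum_sum_type]
  congr 1
  · rw [Finset.sum_eq_single x]
    · exact cast_am _ _ _ _ (by rw [SimpleGraph.adj_comm, adj_lg]; simp) _
    · intro y _ hy
      rw [cast_am _ _ _ False (by rw [SimpleGraph.adj_comm, adj_lg]; simp [Ne.symm hy]),
        if_neg not_false]
    · simp
  · rw [Finset.sum_eq_zero (s := (univ : Finset (Fin (k + 1)))) fun j _ => by
      rw [cast_am _ _ _ False (iff_false_intro (adj_gr G _ j)), if_neg not_false], add_zero,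
      Fintype.sum_prod_type, Finset.sum_eq_single x]
    · exact Finset.sum_congr rfl fun b _ => cast_am _ _ _ _ (by rw [adj_gg]; simp) _
    · intro y _ hy
      exact Finset.sum_eq_zero fun b _ => by
        rw [cast_am _ _ _ False (by rw [adj_gg]; simp [hy]), if_neg not_false]
    · simp

theorem sum_r (j : Fin (k + 1)) :
    ∑ y, ((am (coreG G) (Sum.inr (Sum.inr j)) y : ℤ) : R) * f y =
      ∑ x, if rr N j x then f (Sum.inl x) else 0 := by
  rw [Fintype.sum_sum_type, Fintype.sum_sum_type,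
    Finset.sum_eq_zero (s := (univ : Finset (Fin (k + 1)))) fun i _ => by
      rw [cast_am _ _ _ False (iff_false_intro (adj_rr G _ i)), if_neg not_false],
    Finset.sum_eq_zero (s := (univ : Finset (Fin (N + k) × Fin 7))) fun q _ => by
      rw [cast_am _ _ _ False (iff_false_intro fun h => adj_gr G q j h.symm), if_neg not_false],
    add_zero, add_zero]
  exact Finset.sum_congr rfl fun x _ =>
    cast_am _ _ _ _ (by rw [SimpleGraph.adj_comm, adj_lr]) _

theorem sum_r_succ (j : Fin k) :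
    ∑ y, ((am (coreG G) (Sum.inr (Sum.inr j.succ)) y : ℤ) : R) * f y =
      f (Sum.inl (Fin.natAdd N j)) := by
  rw [sum_r, Finset.sum_eq_single (Fin.natAdd N j)]
  · exact if_pos (Or.inr ⟨by simp, by simp [Nat.add_assoc]⟩)
  · intro x _ hx
    refine if_neg ?_
    rintro (h | h)
    · simp at h
    · refine hx (Fin.ext ?_)
      have := h.2
      simp only [Fin.val_succ] at this
      simp only [Fin.val_natAdd]
      omega
  · simp

theorem eqs_of {θ : R} (x : Fin (N + k))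
    (h : ∀ a : Fin 7, ∑ y, ((am (coreG G) (Sum.inr (Sum.inl (x, a))) y : ℤ) : R) * f y =
      θ * f (Sum.inr (Sum.inl (x, a)))) :
    Eqs θ (f (Sum.inl x)) fun a => f (Sum.inr (Sum.inl (x, a))) := by
  simp only [sum_g, Fin.sum_univ_seven] at h
  refine ⟨?_, ?_, ?_, ?_, ?_, ?_, ?_⟩
  · simpa (config := { decide := true }) using h 0
  · simpa (config := { decide := true }) using h 1
  · simpa (config := { decide := true }) using h 2
  · simpa (config := { decide := true }) using h 3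
  · simpa (config := { decide := true }) using h 4
  · simpa (config := { decide := true }) using h 5
  · simpa (config := { decide := true }) using h 6

/-- Once `f` vanishes on the dense part and on the roots it vanishes. -/
theorem all_zero {θ : R} (hr : ∀ j, f (Sum.inr (Sum.inr j)) = 0) (hl : ∀ x, f (Sum.inl x) = 0)
    (h1 : ∀ x, ∑ y, ((am (coreG G) (Sum.inl x) y : ℤ) : R) * f y = θ * f (Sum.inl x))
    (h2 : ∀ x, Eqs θ (f (Sum.inl x)) fun a => f (Sum.inr (Sum.inl (x, a)))) (v : CV N k) :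
    f v = 0 := by
  rcases v with x | ⟨x, a⟩ | j
  · exact hl x
  · refine g2 (h2 x) (hl x) ?_ a
    have := h1 x
    rw [sum_l] at this
    simpa [hl, hr] using this
  · exact hr j

end Sums

theorem ctrl (hG : CoreGood N k G) : Ctrl (am (coreG G)) (coreT N k) := by
  intro p _ θ f hr he
  have hr' : ∀ j, f (Sum.inr (Sum.inr j)) = 0 := hr
  have h2 := fun x => eqs_of G f x fun a => he _
  refine all_zero G f hr' ?_ (fun x => he _) h2
  by_cases hc : chi θ = 0
  · exact fun x => fx_zero (h2 x) hc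
  · refine hG p (θ - chi1 θ / chi θ) (fun x => f (Sum.inl x)) (fun j => ?_) fun x => ?_
    · have := he (Sum.inr (Sum.inr j.succ))
      rw [sum_r_succ, hr', mul_zero] at this
      exact this
    · have h3 := he (Sum.inl x)
      have h4 := g1 (h2 x)
      rw [sum_l] at h3
      simp only [hr', ite_self, Finset.sum_const_zero, add_zero] at h3
      field_simp
      linear_combination chi θ * h3 - h4

theorem kerT : KerT (coreG G) (coreT N k) := by
  intro p _ f he
  have h2 : ∀ x, Eqs (-1) (f (Sum.inl x)) fun a => f (Sum.inr (Sum.inl (x, a))) :=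
    fun x => eqs_of G f x fun a => by
      linear_combination he (Sum.inr (Sum.inl (x, a))) fun i => by simp [coreT]
  have hl : ∀ x, f (Sum.inl x) = 0 := fun x => fx_zero (h2 x) (by unfold chi; ring)
  refine ⟨fun i => ?_, fun hr => all_zero G f (θ := -1) hr hl (fun x => ?_) h2⟩
  · rw [coreT, sum_r]
    simp [hl]
  · linear_combination he (Sum.inl x) fun i => by simp [coreT]

theorem reach_of_pow {V : Type} [Fintype V] [DecidableEq V] (H : SimpleGraph V) (y : V) :
    ∀ (n : ℕ) (x : V), (am H ^ n) x y ≠ 0 → H.Reachable y x := by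
  intro n
  induction n with
  | zero =>
    intro x h
    by_cases e : x = y
    · rw [e]
    · rw [pow_zero, Matrix.one_apply_ne e] at h
      exact absurd rfl h
  | succ n ih =>
    intro x h
    rw [pow_succ', Matrix.mul_apply] at h
    obtain ⟨z, -, hz⟩ := Finset.exists_ne_zero_of_sum_ne_zero h
    refine (ih z (right_ne_zero_of_mul hz)).trans (SimpleGraph.Adj.reachable ?_)
    by_contra hn
    refine left_ne_zero_of_mul hz ?_
    simp only [am, Matrix.of_apply]
    exact if_neg fun h' => hn h'.symm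

theorem reach_of_top {V T : Type} [Fintype V] [DecidableEq V] (H : SimpleGraph V) (t : T → V)
    (h : kry (am H) t = ⊤) (x : V) : ∃ i, H.Reachable (t i) x := by
  by_contra hn
  have hle : kry (am H) t ≤ LinearMap.ker (LinearMap.proj (R := ℤ) (φ := fun _ : V => ℤ) x) := by
    refine Submodule.span_le.2 ?_
    rintro g ⟨n, i, rfl⟩
    by_contra h0
    exact hn ⟨i, reach_of_pow H (t i) n x h0⟩
  have : (fun _ : V => (1 : ℤ)) ∈ kry (am H) t := by
    rw [h]
    trivial
  exact one_ne_zero (hle this)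

theorem not_isolated (hG : CoreGood N k G) (x : Fin (N + k)) (hx : x.val < N) :
    ∃ y, G.Adj x y := by
  by_contra hn
  have : Fact (Nat.Prime 2) := ⟨Nat.prime_two⟩
  have := hG 2 0 (fun y => if y = x then 1 else 0) (fun j => if_neg fun e => by
    have := congrArg Fin.val e
    simp only [Fin.val_natAdd] at this
    omega) (fun y => by
    rw [zero_mul]
    refine Finset.sum_eq_zero fun z _ => ?_
    by_cases e : z = x
    · rw [e, cast_am _ _ _ False (iff_false_intro fun h => hn ⟨y, h.symm⟩), if_neg not_false]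
    · rw [if_neg e, mul_zero]) x
  simp at this

theorem gam_two : ∀ a : Fin 7, ∃ b c : Fin 7, b ≠ c ∧ (gam a b ∨ gam b a) ∧ (gam a c ∨ gam c a) := by
  decide

theorem two (hG : CoreGood N k G) (v : CV N k) (hv : ∀ i, v ≠ coreT N k i) :
    ∃ y z, y ≠ z ∧ (coreG G).Adj v y ∧ (coreG G).Adj v z := by
  rcases v with x | ⟨x, a⟩ | j
  · by_cases hx : x.val < N
    · obtain ⟨y, hy⟩ := not_isolated G hG x hx
      exact ⟨Sum.inl y, Sum.inr (Sum.inl (x, 0)), by simp, (Main.core_adj G x y).2 hy,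
        (adj_lg G x _).2 ⟨rfl, rfl⟩⟩
    · have := x.2
      refine ⟨Sum.inr (Sum.inr ⟨x.val - N + 1, by omega⟩), Sum.inr (Sum.inl (x, 0)), by simp,
        (adj_lr G x _).2 (Or.inr ⟨by simp, ?_⟩), (adj_lg G x _).2 ⟨rfl, rfl⟩⟩
      simp only
      omega
  · obtain ⟨b, c, hbc, hb, hc⟩ := gam_two a
    exact ⟨Sum.inr (Sum.inl (x, b)), Sum.inr (Sum.inl (x, c)), by simpa using hbc,
      (adj_gg G _ _).2 ⟨rfl, hb⟩, (adj_gg G _ _).2 ⟨rfl, hc⟩⟩
  · exact absurd rfl (hv j)

theorem deg0 (hk : 2 ≤ k) : ∑ y, am (coreG G) (coreT N k 0) y = 2 := by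
  have := sum_r (R := ℤ) G (fun _ => 1) 0
  simp only [Int.cast_id, mul_one] at this
  rw [coreT, this, Finset.sum_eq_add (⟨N, by omega⟩ : Fin (N + k)) ⟨N + 1, by omega⟩ (by simp)]
  · rw [if_pos (show rr N 0 _ from Or.inl ⟨rfl, Or.inl rfl⟩),
      if_pos (show rr N 0 _ from Or.inl ⟨rfl, Or.inr rfl⟩)]
    rfl
  · intro x _ hx
    refine if_neg ?_
    rintro (⟨-, h | h⟩ | h)
    · exact hx.1 (Fin.ext h)
    · exact hx.2 (Fin.ext h)
    · simp at h
  · simp
  · simp

theorem deg1 (i : Fin (k + 1)) (hi : i ≠ 0) : ∑ y, am (coreG G) (coreT N k i) y = 1 := by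
  obtain ⟨j, rfl⟩ := Fin.exists_succ_eq.2 hi
  have := sum_r_succ (R := ℤ) G (fun _ => 1) j
  simp only [Int.cast_id, mul_one] at this
  exact this

end CoreAux

open CoreAux in
theorem pCorePre : StCorePre := fun N k G hk hG =>
  ⟨ctrl G hG, fun h => ⟨fun i j e => by simpa [coreT] using e, kerT G,
    reach_of_top _ _ h, two G hG, deg0 G hk, deg1 G⟩⟩

end Pool.Agent.P.MP_f57657_co.SY
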