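import Pool.Agent.P.MP_f57657_co.SX.Defs

/-! Interface for the family of `2 ^ (n ^ (2 - ε))` graphs determined by their spectrum. -/

open Matrix Finset

namespace Pool.Agent.P.MP_f57657_co.SY

open SX

section Abstract

variable {V : Type} [Fintype V] [DecidableEq V]

/-- Equal walk counts between the marked vertices `t` (for `A`) and `s` (for `B`). -/
def Mom {T : Type} (A B : Matrix V V ℤ) (t s : T → V) : Prop :=
  ∀ k i j, (B ^ k) (s i) (s j) = (A ^ k) (t i) (t j)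

/-- The lattice spanned by the vectors `A ^ k e_(t i)`. -/
def kry {T : Type} (A : Matrix V V ℤ) (t : T → V) : Submodule ℤ (V → ℤ) :=
  Submodule.span ℤ {g | ∃ k i, g = fun x => (A ^ k) x (t i)}

/-- The determinant and the walk counts between the roots determine the rooted graph. -/
def Rigid {T : Type} (G : SimpleGraph V) (t : T → V) : Prop :=
  ∀ (H : SimpleGraph V) (s : T → V), dd (am H) = dd (am G) → Mom (am G) (am H) t s →
    ∃ e : G ≃g H, ∀ i, e (t i) = s i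

/-- Kernel property of `A + 1` away from the roots, modulo every prime. -/
def KerT {T : Type} (G : SimpleGraph V) (t : T → V) : Prop :=
  ∀ p : ℕ, p.Prime → ∀ f : V → ZMod p,
    (∀ x, (∀ i, x ≠ t i) → f x + ∑ y, ((am G x y : ℤ) : ZMod p) * f y = 0) →
    (∀ i, ∑ y, ((am G (t i) y : ℤ) : ZMod p) * f y = 0) ∧ ((∀ i, f (t i) = 0) → ∀ x, f x = 0)

/-- The properties of a rooted graph other than rigidity. -/
structure Pre {m : ℕ} (G : SimpleGraph V) (t : Fin (m + 1) → V) : Prop where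
  inj : Function.Injective t
  ker : KerT G t
  reach : ∀ x, ∃ i, G.Reachable (t i) x
  two : ∀ x, (∀ i, x ≠ t i) → ∃ y z, y ≠ z ∧ G.Adj x y ∧ G.Adj x z
  deg0 : ∑ y, am G (t 0) y = 2
  deg1 : ∀ i, i ≠ 0 → ∑ y, am G (t i) y = 1

/-- No eigenvector over an algebraically closed field of prime characteristic vanishes at all
roots. -/
def Ctrl {T : Type} (A : Matrix V V ℤ) (t : T → V) : Prop :=
  ∀ (p : ℕ) [Fact p.Prime] (θ : AlgebraicClosure (ZMod p)) (f : V → AlgebraicClosure (ZMod p)),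
    (∀ i, f (t i) = 0) → (∀ x, ∑ y, ((A x y : ℤ) : AlgebraicClosure (ZMod p)) * f y = θ * f x) →
      ∀ x, f x = 0

/-! ### Joining two roots under a new root -/

/-- New vertices: a root and two paths with `l + 2` vertices each. -/
abbrev St (l : ℕ) : Type := Option (Fin (l + 2) × Bool)

/-- One orientation of the edges of the extension. -/
def extRel (G : SimpleGraph V) (t0 t1 : V) (l : ℕ) : V ⊕ St l → V ⊕ St l → Prop
  | Sum.inl x, Sum.inl y => G.Adj x y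
  | Sum.inr none, Sum.inr (some q) => q.1.val = 0
  | Sum.inr (some q), Sum.inr (some q') =>
      (q.2 = q'.2 ∧ q'.1.val = q.1.val + 1) ∨ (q.1.val = l ∧ q'.1.val = l ∧ q.2 ≠ q'.2)
  | Sum.inr (some q), Sum.inl x => q.1.val = l + 1 ∧ x = if q.2 then t1 else t0
  | _, _ => False

/-- The extension. -/
def extG (G : SimpleGraph V) (t0 t1 : V) (l : ℕ) : SimpleGraph (V ⊕ St l) :=
  SimpleGraph.fromRel (extRel G t0 t1 l)

/-- Layers of the extension. -/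
def extLay (l : ℕ) : V ⊕ St l → ℕ
  | Sum.inl _ => l + 3
  | Sum.inr none => 0
  | Sum.inr (some q) => q.1.val + 1

/-- The path vertex on layer `j` and side `c`. -/
def extP (l : ℕ) (c : Bool) (j : ℕ) : V ⊕ St l :=
  if h : 1 ≤ j ∧ j ≤ l + 2 then Sum.inr (some (⟨j - 1, by omega⟩, c)) else Sum.inr none

/-- The roots of the extension. -/
def extT {m : ℕ} (t : Fin (m + 2) → V) (l : ℕ) : Fin (m + 1) → V ⊕ St l :=
  fun i => if i = 0 then Sum.inr none else Sum.inl (t i.succ)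

/-! ### Attaching the clique and the long path -/

/-- One orientation of the edges: `tw` twins, a path with `k` vertices, then the root. -/
def ancRel (G : SimpleGraph V) (ρ : V) (tw k : ℕ) :
    V ⊕ (Fin tw ⊕ Fin k) → V ⊕ (Fin tw ⊕ Fin k) → Prop
  | Sum.inl x, Sum.inl y => G.Adj x y
  | Sum.inr (Sum.inl _), Sum.inr (Sum.inl _) => True
  | Sum.inr (Sum.inl _), Sum.inr (Sum.inr i) => i.val = 0
  | Sum.inr (Sum.inr i), Sum.inr (Sum.inr j) => j.val = i.val + 1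
  | Sum.inr (Sum.inr i), Sum.inl x => i.val + 1 = k ∧ x = ρ
  | _, _ => False

/-- The anchored graph. -/
def ancG (G : SimpleGraph V) (ρ : V) (tw k : ℕ) : SimpleGraph (V ⊕ (Fin tw ⊕ Fin k)) :=
  SimpleGraph.fromRel (ancRel G ρ tw k)

/-- Layers of the anchored graph. -/
def ancLay (ρ : V) (tw k : ℕ) : V ⊕ (Fin tw ⊕ Fin k) → ℕ
  | Sum.inl x => if x = ρ then k + 1 else k + 2
  | Sum.inr (Sum.inl _) => 0
  | Sum.inr (Sum.inr i) => i.val + 1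

/-- The path vertex on layer `j`. -/
def ancP (ρ : V) (tw k : ℕ) (j : ℕ) : V ⊕ (Fin tw ⊕ Fin k) :=
  if h : 1 ≤ j ∧ j ≤ k then Sum.inr (Sum.inr ⟨j - 1, by omega⟩) else Sum.inl ρ

end Abstract

/-! ### The core -/

/-- Edges of the seven vertex gadget. -/
def gam (a b : Fin 7) : Prop :=
  (a.val, b.val) ∈ ([(0, 1), (0, 2), (0, 4), (1, 4), (2, 5), (3, 5), (3, 6), (4, 6), (5, 6)] :
    List (ℕ × ℕ))

/-- Vertices of the core: dense part, one gadget for each of its vertices, roots. -/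
abbrev CV (N k : ℕ) : Type := Fin (N + k) ⊕ ((Fin (N + k) × Fin 7) ⊕ Fin (k + 1))

/-- One orientation of the edges of the core. -/
def coreRel {N k : ℕ} (G : SimpleGraph (Fin (N + k))) : CV N k → CV N k → Prop
  | Sum.inl x, Sum.inl y => G.Adj x y
  | Sum.inl x, Sum.inr (Sum.inl q) => q.1 = x ∧ q.2 = 0
  | Sum.inr (Sum.inl q), Sum.inr (Sum.inl q') => q.1 = q'.1 ∧ gam q.2 q'.2
  | Sum.inr (Sum.inr j), Sum.inl x =>
      (j.val = 0 ∧ (x.val = N ∨ x.val = N + 1)) ∨ (1 ≤ j.val ∧ x.val + 1 = N + j.val)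
  | _, _ => False

/-- The core. -/
def coreG {N k : ℕ} (G : SimpleGraph (Fin (N + k))) : SimpleGraph (CV N k) :=
  SimpleGraph.fromRel (coreRel G)

/-- The roots of the core. -/
def coreT (N k : ℕ) : Fin (k + 1) → CV N k := fun j => Sum.inr (Sum.inr j)

/-- The last `k` vertices control the dense part. -/
def CoreGood (N k : ℕ) (G : SimpleGraph (Fin (N + k))) : Prop :=
  Ctrl (am G) fun j : Fin k => (Fin.natAdd N j : Fin (N + k))

/-! ### The random dense part -/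

/-- Sample space. -/
abbrev Om (n : ℕ) : Type := Fin n × Fin n → Bool

/-- The graph of a sample: only the bits below the diagonal are used. -/
def gOf {n : ℕ} (ω : Om n) : SimpleGraph (Fin n) :=
  SimpleGraph.fromRel fun i j => j < i ∧ ω (i, j) = true

open Classical in
/-- Uniform probability on a finite type. -/
noncomputable def pr {Ω : Type} [Fintype Ω] (E : Ω → Prop) : ℝ :=
  ((univ.filter E).card : ℝ) / Fintype.card Ω

/-- Replace row `i` of the sample. -/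
def setRow {n : ℕ} (ω : Om n) (i : ℕ) (a : Fin n → Bool) : Om n :=
  fun q => if q.1.val = i then a q.2 else ω q

/-- The sum of the entries of `f` selected by `a`. -/
def dotB {n : ℕ} {F : Type} [Field F] (a : Fin n → Bool) (f : Fin n → F) : F :=
  ∑ j, if a j = true then f j else 0

/-- Eigenvectors of the graph on the first `s` vertices that also satisfy the equations of the
next `j` rows. -/
def KK (F : Type) [Field F] {n : ℕ} (G : SimpleGraph (Fin n)) (s j : ℕ) (θ : F) :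
    Submodule F (Fin n → F) where
  carrier := {f | (∀ i : Fin n, s ≤ i.val → f i = 0) ∧
    ∀ i : Fin n, i.val < s + j → ∑ l, ((am G i l : ℤ) : F) * f l = θ * f i}
  add_mem' := by
    intro f g hf hg
    refine ⟨fun i hi => by simp [hf.1 i hi, hg.1 i hi], fun i hi => ?_⟩
    simp only [Pi.add_apply, mul_add, Finset.sum_add_distrib, hf.2 i hi, hg.2 i hi]
  zero_mem' := ⟨fun _ _ => rfl, fun _ _ => by simp⟩
  smul_mem' := by
    intro c f hf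
    refine ⟨fun i hi => by simp [hf.1 i hi], fun i hi => ?_⟩
    simp only [Pi.smul_apply, smul_eq_mul]
    rw [mul_left_comm θ, ← hf.2 i hi, Finset.mul_sum]
    exact Finset.sum_congr rfl fun l _ => by ring

/-- Its dimension. -/
noncomputable def nu (F : Type) [Field F] {n : ℕ} (G : SimpleGraph (Fin n)) (s j : ℕ) (θ : F) :
    ℕ := Module.finrank F (KK F G s j θ)

instance primeFact (p : Nat.Primes) : Fact p.1.Prime := ⟨p.2⟩

/-- The algebraic closure of the prime field. -/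
abbrev FF (p : Nat.Primes) : Type := AlgebraicClosure (ZMod p.1)

/-- Points of prime characteristic. -/
abbrev Pt : Type := Σ p : Nat.Primes, FF p

/-- Every small set has, for each of its elements, an outside vertex adjacent to that element
only. -/
def Supp {n : ℕ} (G : SimpleGraph (Fin n)) (N s0 : ℕ) : Prop :=
  ∀ S : Finset (Fin n), (∀ j ∈ S, j.val < N) → S.card ≤ s0 → ∀ j ∈ S,
    ∃ i : Fin n, i.val < N ∧ i ∉ S ∧ ∀ j' ∈ S, (G.Adj i j' ↔ j' = j)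

/-- All real eigenvalue multiplicities stay below `μ` up to time `N`. -/
def Null0 {n : ℕ} (G : SimpleGraph (Fin n)) (N μ : ℕ) : Prop :=
  ∀ s, s ≤ N → ∀ θ : ℝ, nu ℝ G s 0 θ < μ

/-- All multiplicities in prime characteristic stay below `μ` up to time `N`. -/
def NullP {n : ℕ} (G : SimpleGraph (Fin n)) (N μ : ℕ) : Prop :=
  ∀ s, s ≤ N → ∀ q : Pt, nu (FF q.1) G s 0 q.2 < μ

/-! ### Statements: rigidity side -/

def StKry : Prop := ∀ (V : Type) [Fintype V] [DecidableEq V] (T U : Type) (A B : Matrix V V ℤ)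
  (t s : T → V) (u : U → V), A.IsSymm → B.IsSymm → (∀ x y, 0 ≤ A x y) → (∀ x y, 0 ≤ B x y) →
  Mom A B t s → (∀ l, Pi.single (u l) (1 : ℤ) ∈ kry A t) →
  ∃ w : U → V, Mom A B (Sum.elim t u) (Sum.elim s w)

def StMod : Prop := ∀ (V : Type) [Fintype V] [DecidableEq V] (A B D : Matrix V V ℤ)
  (Q : Finset V), (∀ x y, D x y ≠ 0 → x ∈ Q ∧ y ∈ Q) → dd B = dd A →
  Mom A B (fun x : Q => (x : V)) (fun x : Q => (x : V)) →
  dd (B - D) = dd (A - D) ∧ Mom (A - D) (B - D) (fun x : Q => (x : V)) (fun x : Q => (x : V))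

def StRestr : Prop := ∀ (V W : Type) [Fintype V] [DecidableEq V] [Fintype W] [DecidableEq W]
  (A : Matrix (V ⊕ W) (V ⊕ W) ℤ), (∀ x w, A x (Sum.inr w) = 0) → (∀ x w, A (Sum.inr w) x = 0) →
  dd A = dd (A.submatrix Sum.inl Sum.inl) ∧
  ∀ k x y, (A ^ k) (Sum.inl x) (Sum.inl y) = (A.submatrix Sum.inl Sum.inl ^ k) x y

def StGlue2 : Prop := ∀ (V : Type) [Fintype V] [DecidableEq V] (ι : Type) [Fintype ι]
  [DecidableEq ι] (A A1 A2 : Matrix V V ℤ) (y r : ι → V) (Q : V → Prop),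
  (∀ x x', A1 x x' ≠ 0 → Q x ∧ Q x') → (∀ x x', A2 x x' ≠ 0 → ¬ Q x ∧ ¬ Q x') →
  (∀ i, Q (y i)) → (∀ i, ¬ Q (r i)) →
  (∀ x x', A x x' = A1 x x' + A2 x x' + (∑ i, if x = y i ∧ x' = r i then 1 else 0) +
    ∑ i, if x = r i ∧ x' = y i then 1 else 0) →
  ∀ τ, ¬ Q τ →
    (∀ x, Q x → res A x τ = PowerSeries.X * ∑ j, res A x (y j) * res A2 (r j) τ) ∧
    ∀ x, ¬ Q x → res A x τ = res A2 x τ + PowerSeries.X * ∑ j, res A x (y j) * res A2 (r j) τ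

def StMore : Prop := ∀ (V : Type) [Fintype V] [DecidableEq V] (lay : V → ℕ) (G H : SimpleGraph V)
  (k1 k0 : ℕ) (ρ : V) (a b : ℕ → V) (T : Type) (t s : T → V), Paths lay G k1 k0 ρ a b →
  Ag1 lay G H k0 → (∀ i, k0 ≤ lay (t i)) → (∀ i, k0 ≤ lay (s i)) →
  dd (up lay k1 (am H)) = dd (up lay k1 (am G)) →
  Mom (up lay k1 (am G)) (up lay k1 (am H)) (fun o : Option T => o.elim ρ t)
    (fun o : Option T => o.elim ρ s) →
  Mom2 lay G H k0 (a k0) (b k0) (a k0) (b k0) →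
  (∃ j, (up lay k0 (am G) ^ j) (a k0) (a k0) ≠ (up lay k0 (am G) ^ j) (b k0) (b k0)) →
  (Uk lay k0).card + k1 + 6 ≤ k0 →
  dd (up lay k0 (am H)) = dd (up lay k0 (am G)) ∧
    Mom (up lay k0 (am G)) (up lay k0 (am H))
      (Sum.elim (fun c : Bool => if c then b k0 else a k0) t)
      (Sum.elim (fun c : Bool => if c then b k0 else a k0) s)

def StPBH : Prop := ∀ (V : Type) [Fintype V] [DecidableEq V] (T : Type) (A : Matrix V V ℤ)
  (t : T → V), A.IsSymm → Ctrl A t → kry A t = ⊤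

def StExtPaths : Prop := ∀ (V : Type) [Fintype V] [DecidableEq V] (G : SimpleGraph V)
  (t0 t1 : V) (l : ℕ), 1 ≤ l → t0 ≠ t1 →
  Paths (extLay l) (extG G t0 t1 l) 0 l (Sum.inr none) (extP l false) (extP l true) ∧
  (∀ k, k < l → HasParent (extLay l) (extG G t0 t1 l) k) ∧
  (Uk (extLay l : V ⊕ St l → ℕ) l).card = Fintype.card V + 6 ∧
  (∀ (c : Bool) (x : V ⊕ St l), x = extP l c (l + 1) ∨ x = extP l c (l + 2) ∨
      x = Sum.inl (if c then t1 else t0) →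
    Pi.single x (1 : ℤ) ∈ kry (up (extLay l) l (am (extG G t0 t1 l)))
      (fun c : Bool => if c then extP l true l else extP l false l)) ∧
  (∑ y, am G t0 y ≠ ∑ y, am G t1 y →
    ∃ j, (up (extLay l) l (am (extG G t0 t1 l)) ^ j) (extP l false l) (extP l false l) ≠
      (up (extLay l) l (am (extG G t0 t1 l)) ^ j) (extP l true l) (extP l true l))

def StExtPre : Prop := ∀ (V : Type) [Fintype V] [DecidableEq V] (m : ℕ) (G : SimpleGraph V)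
  (t : Fin (m + 2) → V) (l : ℕ), l % 3 = 0 → Pre G t →
  Pre (extG G (t 0) (t 1) l) (extT t l)

def StExtRigid : Prop := ∀ (V : Type) [Fintype V] [DecidableEq V] (m : ℕ) (G : SimpleGraph V)
  (t : Fin (m + 2) → V) (l : ℕ), Fintype.card V + 12 ≤ l → Pre G t → Rigid G t →
  Rigid (extG G (t 0) (t 1) l) (extT t l)

def StCorePre : Prop := ∀ (N k : ℕ) (G : SimpleGraph (Fin (N + k))), 2 ≤ k → CoreGood N k G →
  Ctrl (am (coreG G)) (coreT N k) ∧ (kry (am (coreG G)) (coreT N k) = ⊤ → Pre (coreG G) (coreT N k))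

def StAnc : Prop := ∀ (V : Type) [Fintype V] [DecidableEq V] (G : SimpleGraph V)
  (t : Fin 1 → V) (tw k : ℕ), k % 3 = 1 → 2 * (Fintype.card V + 2) + 2 ≤ tw → Pre G t →
  Front (ancLay (t 0) tw k) (ancG G (t 0) tw k) (k + 1) (Fintype.card V + 2) (ancP (t 0) tw k) ∧
  (∃ t0, ancLay (t 0) tw k t0 = 0 ∧ KerOK (ancG G (t 0) tw k) (Lk (ancLay (t 0) tw k) 0) t0) ∧
  (Uk (ancLay (t 0) tw k) (k + 1)).card = Fintype.card V ∧
  (ancG G (t 0) tw k).Connected ∧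
  ∀ x, ∃ y z, y ≠ z ∧ (ancG G (t 0) tw k).Adj x y ∧ (ancG G (t 0) tw k).Adj x z

def StAncDS : Prop := ∀ (V : Type) [Fintype V] [DecidableEq V] (G : SimpleGraph V)
  (t : Fin 1 → V) (tw k : ℕ), k % 3 = 1 → 2 * (Fintype.card V + 2) + 2 ≤ tw →
  Fintype.card V + 2 ≤ k → Pre G t → Rigid G t → DSV (ancG G (t 0) tw k)

/-! ### Statements: random side -/

def StSM : Prop := ∀ (n : ℕ) (Q : Type) (s0 t : ℕ) (P : Om n → Finset Q) (φ : ℕ → Om n → Q → ℝ)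
  (c W : ℝ), 0 ≤ c → s0 + t ≤ n →
  (∀ ω i a, s0 ≤ i → P (setRow ω i a) = P ω) → (∀ i ω q, 0 ≤ φ i ω q) →
  (∀ i ω q, i < t → q ∈ P ω →
    ∑ a : Fin n → Bool, φ (i + 1) (setRow ω (s0 + i) a) q ≤ c * 2 ^ n * φ i ω q) →
  (∀ ω, ∑ q ∈ P ω, φ 0 ω q ≤ W) →
  pr (fun ω : Om n => ∃ q ∈ P ω, 1 ≤ φ t ω q) ≤ c ^ t * W

def StRow : Prop := ∀ (F : Type) [Field F] (n : ℕ) (ω : Om n) (a : Fin n → Bool) (θ : F)
  (i s j : ℕ),
  (s + j ≤ i → KK F (gOf (setRow ω i a)) s j θ = KK F (gOf ω) s j θ) ∧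
  (s ≤ i → ∀ s0, Supp (gOf (setRow ω i a)) s s0 ↔ Supp (gOf ω) s s0) ∧
  (∀ (hi : i < n) (f : Fin n → F), (∀ l : Fin n, i ≤ l.val → f l = 0) →
    ∑ l, ((am (gOf (setRow ω i a)) ⟨i, hi⟩ l : ℤ) : F) * f l = dotB a f)

def StBord : Prop := ∀ (F : Type) [Field F] (n : ℕ) (G : SimpleGraph (Fin n)) (θ : F) (s : ℕ)
  (hs : s < n),
  nu F G (s + 1) 0 θ ≤ nu F G s 0 θ + 1 ∧ nu F G s 0 θ ≤ s ∧
  ((∃ f ∈ KK F G s 0 θ, ∑ l, ((am G ⟨s, hs⟩ l : ℤ) : F) * f l ≠ 0) →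
    nu F G (s + 1) 0 θ + 1 ≤ nu F G s 0 θ) ∧
  ∀ N j, N + j = s → nu F G N (j + 1) θ ≤ nu F G N j θ ∧
    ((∃ f ∈ KK F G N j θ, ∑ l, ((am G ⟨s, hs⟩ l : ℤ) : F) * f l ≠ 0) →
      nu F G N (j + 1) θ + 1 ≤ nu F G N j θ)

def StOdl : Prop := ∀ (F : Type) [Field F] (n : ℕ) (K : Submodule F (Fin n → F)),
  pr (fun a : Fin n → Bool => ∀ f ∈ K, dotB a f = 0) ≤ (1 / 2) ^ Module.finrank F K

def StOdlDeg : Prop := ∀ (p : Nat.Primes) (n D : ℕ) (θ : FF p) (f : Fin n → FF p), f ≠ 0 →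
  LinearIndependent (ZMod p.1) (fun i : Fin D => θ ^ i.val) →
  (∀ i, θ * f i ∈ Submodule.span (ZMod p.1) (Set.range f)) →
  pr (fun a : Fin n → Bool => dotB a f = 0) ≤ (1 / 2) ^ D

open Classical in
def StLO : Prop := ∀ (F : Type) [Field F] (n r : ℕ) (f : Fin n → F), 1 ≤ r →
  (∀ m : ℕ, 1 ≤ m → m ≤ 2 * r → (m : F) ≠ 0) → 32 * r ^ 3 < (univ.filter fun i => f i ≠ 0).card →
  pr (fun a : Fin n → Bool => dotB a f = 0) ≤ 1 / (r : ℝ)

open Classical in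
def StSuppVec : Prop := ∀ (F : Type) [Field F] (n : ℕ) (G : SimpleGraph (Fin n)) (N j s0 : ℕ)
  (θ : F) (f : Fin n → F), Supp G N s0 → f ∈ KK F G N j θ → f ≠ 0 →
  s0 < (univ.filter fun i => f i ≠ 0).card

def StEig : Prop := ∀ (F : Type) [Field F] (n : ℕ) (G : SimpleGraph (Fin n)) (s j : ℕ),
  ∃ S : Finset F, S.card ≤ n ∧ ∀ θ, 1 ≤ nu F G s j θ → θ ∈ S

def StFin : Prop := ∀ (n : ℕ) (G : SimpleGraph (Fin n)) (s j q : ℕ), q ≤ n →
  (∀ θ : ℝ, nu ℝ G s j θ ≤ q) →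
  ∃ S : Finset Nat.Primes, S.card ≤ 20 * n ^ 3 + 20 ∧
    ∀ p : Nat.Primes, p ∉ S → ∀ θ : FF p, nu (FF p) G s j θ ≤ q

def StSmall : Prop := ∀ P D : ℕ, ∃ S : Finset Pt, S.card ≤ P * (D * P ^ D) ∧
  ∀ q : Pt, q.1.1 ≤ P → ¬ LinearIndependent (ZMod q.1.1) (fun i : Fin D => q.2 ^ i.val) → q ∈ S

def StE1 : Prop := ∀ n N s0 : ℕ, N ≤ n →
  pr (fun ω : Om n => ¬ Supp (gOf ω) N s0) ≤
    ((N : ℝ) + 1) ^ s0 * s0 * (1 - (1 / 2) ^ s0) ^ (N - s0)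

def StE2 : Prop := ∀ n N m : ℕ, N ≤ n → 1 ≤ m →
  pr (fun ω : Om n => ¬ Null0 (gOf ω) N (4 * m)) ≤ (n : ℝ) * n * (2 / 2 ^ m) ^ (2 * m)

def StE3 : Prop := ∀ n N m : ℕ, N ≤ n → 1 ≤ m → 4 * m ≤ n →
  pr (fun ω : Om n => Null0 (gOf ω) N (4 * m) ∧ ¬ NullP (gOf ω) N (8 * m)) ≤
    (n : ℝ) * ((20 * n ^ 3 + 20) * n) * (2 / 2 ^ (2 * m)) ^ (4 * m)

def StE4 : Prop := ∀ n N k1 μ r : ℕ, N + k1 ≤ n → 1 ≤ r →
  pr (fun ω : Om n => Supp (gOf ω) N (32 * r ^ 3) ∧ Null0 (gOf ω) N μ ∧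
      ∃ θ : ℝ, 1 ≤ nu ℝ (gOf ω) N k1 θ) ≤ (n : ℝ) * r ^ μ * (2 / r) ^ k1

def StE5 : Prop := ∀ n N k1 k2 μ g : ℕ, N + k1 + k2 ≤ n →
  pr (fun ω : Om n => Supp (gOf ω) N (32 * (2 ^ g) ^ 3) ∧ NullP (gOf ω) N μ ∧
      (∀ θ : ℝ, nu ℝ (gOf ω) N k1 θ = 0) ∧
      ∃ q : Pt, 1 ≤ nu (FF q.1) (gOf ω) N (k1 + k2) q.2) ≤
    ((20 * (n : ℝ) ^ 3 + 20) * n) * (2 ^ g) ^ μ * (2 / 2 ^ g) ^ k2 +
      ((2 * 2 ^ g * (g * (2 * 2 ^ g) ^ g) : ℕ) : ℝ) * 4 ^ μ * (3 / 4) ^ k2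

def StNum : Prop := ∀ g : ℕ, 4 ≤ g → ∃ N0 : ℕ, ∀ N ≥ N0, ∀ m n : ℕ,
  m = Nat.log 2 N / g + 1 → n = N + 80 * m →
  ((N : ℝ) + 1) ^ (32 * (2 ^ g) ^ 3) * ((32 * (2 ^ g) ^ 3 : ℕ) : ℝ) *
      (1 - (1 / 2) ^ (32 * (2 ^ g) ^ 3)) ^ (N - 32 * (2 ^ g) ^ 3) ≤ 1 / 12 ∧
  (n : ℝ) * n * (2 / 2 ^ m) ^ (2 * m) ≤ 1 / 12 ∧
  (n : ℝ) * ((20 * n ^ 3 + 20) * n) * (2 / 2 ^ (2 * m)) ^ (4 * m) ≤ 1 / 12 ∧
  (n : ℝ) * ((2 ^ g : ℕ) : ℝ) ^ (4 * m) * (2 / ((2 ^ g : ℕ) : ℝ)) ^ (16 * m) ≤ 1 / 12 ∧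
  ((20 * (n : ℝ) ^ 3 + 20) * n) * (2 ^ g) ^ (8 * m) * (2 / 2 ^ g) ^ (64 * m) ≤ 1 / 12 ∧
  ((2 * 2 ^ g * (g * (2 * 2 ^ g) ^ g) : ℕ) : ℝ) * 4 ^ (8 * m) * (3 / 4) ^ (64 * m) ≤ 1 / 12

def StMany : Prop := ∀ (n : ℕ) (E : SimpleGraph (Fin n) → Prop),
  pr (fun ω : Om n => ¬ E (gOf ω)) ≤ 1 / 2 →
  ∃ S : Finset (SimpleGraph (Fin n)), (∀ G ∈ S, E G) ∧ 2 ^ n.choose 2 ≤ 2 * S.card

def StRandom : Prop := ∀ g : ℕ, 4 ≤ g → ∃ N0 : ℕ, ∀ N ≥ N0,
  ∃ S : Finset (SimpleGraph (Fin (N + 80 * (Nat.log 2 N / g + 1)))),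
    (∀ G ∈ S, CoreGood N (80 * (Nat.log 2 N / g + 1)) G) ∧
    2 ^ (N + 80 * (Nat.log 2 N / g + 1)).choose 2 ≤ 2 * S.card

def StAsy : Prop := ∀ ε : ℝ, 0 < ε → ∃ g : ℕ, 4 ≤ g ∧ ∀ N0 : ℕ, ∃ n0 : ℕ, ∀ n ≥ n0, ∃ N ≥ N0,
  4 * (3 ^ (80 * (Nat.log 2 N / g + 1)) * (8 * N + 9 * (80 * (Nat.log 2 N / g + 1)) + 18)) + 20
      ≤ n ∧
  ∀ q : ℕ, 2 ^ N.choose 2 ≤ 2 * (q * n.factorial) → (2 : ℝ) ^ ((n : ℝ) ^ (2 - ε)) ≤ q

end Pool.Agent.P.MP_f57657_co.SY
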