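import Pool.Agent.P.MP_f57657_co.SY.Defs

/-! The support property fails with small probability. -/

open Finset

namespace Pool.Agent.P.MP_f57657_co.SY

open SX

namespace E1Aux

section Blocks

variable {X : Type} [Fintype X] [DecidableEq X]

/-- Indicator of the event that `ω` agrees with `c` on `U`. -/
noncomputable def mt (c : X → Bool) (U : Finset X) (ω : X → Bool) : ℝ :=
  ∏ x ∈ U, if ω x = c x then 1 else 0

omit [Fintype X] [DecidableEq X] in
lemma mt_cases (c : X → Bool) (U : Finset X) (ω : X → Bool) :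
    mt c U ω = 0 ∨ (mt c U ω = 1 ∧ ∀ x ∈ U, ω x = c x) := by
  by_cases h : ∀ x ∈ U, ω x = c x
  · refine Or.inr ⟨?_, h⟩
    exact Finset.prod_eq_one fun x hx => by simp [h x hx]
  · left
    push Not at h
    obtain ⟨x, hx, hne⟩ := h
    exact Finset.prod_eq_zero hx (by simp [hne])

lemma sum_mt (c : X → Bool) (U : Finset X) :
    ∑ ω : X → Bool, mt c U ω = 2 ^ Fintype.card X * (1 / 2) ^ U.card := by
  have h1 : ∀ ω : X → Bool, mt c U ω =
      ∏ x, (if x ∈ U then (if ω x = c x then (1 : ℝ) else 0) else 1) := by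
    intro ω
    rw [Finset.prod_ite_mem, Finset.univ_inter, mt]
  simp_rw [h1]
  have h2 := Finset.prod_univ_sum (fun _ : X => (univ : Finset Bool))
    (fun x b => if x ∈ U then (if b = c x then (1 : ℝ) else 0) else 1)
  rw [Fintype.piFinset_univ] at h2
  rw [← h2]
  have h3 : ∀ x : X, (∑ b : Bool, if x ∈ U then (if b = c x then (1 : ℝ) else 0) else 1) =
      2 * (if x ∈ U then (1 / 2 : ℝ) else 1) := by
    intro x
    by_cases hx : x ∈ U
    · cases c x <;> simp [hx]
    · simp [hx]
  simp_rw [h3]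
  rw [Finset.prod_mul_distrib, Finset.prod_const, Finset.card_univ, Finset.prod_ite_mem,
    Finset.univ_inter, Finset.prod_const]

lemma sum_prod {I : Type} [DecidableEq I] (c : X → Bool) (J : Finset I) (B : I → Finset X)
    (hB : (J : Set I).PairwiseDisjoint B) :
    ∑ ω : X → Bool, ∏ i ∈ J, (1 - mt c (B i) ω) =
      2 ^ Fintype.card X * ∏ i ∈ J, (1 - (1 / 2 : ℝ) ^ (B i).card) := by
  have e1 : ∀ f : I → ℝ, ∏ i ∈ J, (1 - f i) =
      ∑ T ∈ J.powerset, (-1) ^ T.card * ∏ i ∈ T, f i := by
    intro f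
    simp_rw [sub_eq_add_neg]
    rw [Finset.prod_one_add]
    refine Finset.sum_congr rfl fun T _ => ?_
    rw [Finset.prod_neg]
  simp_rw [e1]
  rw [Finset.sum_comm, Finset.mul_sum]
  refine Finset.sum_congr rfl fun T hT => ?_
  have hT' : (T : Set I).PairwiseDisjoint B :=
    hB.subset (Finset.coe_subset.mpr (Finset.mem_powerset.mp hT))
  have h2 : ∀ ω : X → Bool, ∏ i ∈ T, mt c (B i) ω = mt c (T.biUnion B) ω := by
    intro ω
    simp only [mt]
    rw [Finset.prod_biUnion hT']
  simp_rw [h2]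
  rw [← Finset.mul_sum, sum_mt, Finset.card_biUnion hT', Finset.prod_pow_eq_pow_sum]
  ring

open Classical in
lemma card_bad {I : Type} [DecidableEq I] (c : X → Bool) (J : Finset I) (B : I → Finset X)
    (hB : (J : Set I).PairwiseDisjoint B) (s m : ℕ) (hs : ∀ i ∈ J, (B i).card ≤ s)
    (hm : m ≤ J.card) (E : (X → Bool) → Prop)
    (hE : ∀ ω, E ω → ∀ i ∈ J, ¬ ∀ x ∈ B i, ω x = c x) :
    ((univ.filter E).card : ℝ) ≤ 2 ^ Fintype.card X * (1 - (1 / 2 : ℝ) ^ s) ^ m := by
  have h0 : (0 : ℝ) ≤ 1 - (1 / 2 : ℝ) ^ s := by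
    have := pow_le_one₀ (a := (1 / 2 : ℝ)) (n := s) (by norm_num) (by norm_num)
    linarith
  have h1 : 1 - (1 / 2 : ℝ) ^ s ≤ 1 := by
    have : (0 : ℝ) ≤ (1 / 2 : ℝ) ^ s := by positivity
    linarith
  have hA : ((univ.filter E).card : ℝ) ≤ ∑ ω : X → Bool, ∏ i ∈ J, (1 - mt c (B i) ω) := by
    rw [Finset.card_filter]
    push_cast
    refine Finset.sum_le_sum fun ω _ => ?_
    split_ifs with h
    · refine le_of_eq (Finset.prod_eq_one fun i hi => ?_).symm
      rcases mt_cases c (B i) ω with h' | h'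
      · simp [h']
      · exact absurd h'.2 (hE ω h i hi)
    · refine Finset.prod_nonneg fun i _ => ?_
      rcases mt_cases c (B i) ω with h' | h'
      · simp [h']
      · simp [h'.1]
  rw [sum_prod c J B hB] at hA
  refine hA.trans (mul_le_mul_of_nonneg_left ?_ (by positivity))
  calc ∏ i ∈ J, (1 - (1 / 2 : ℝ) ^ (B i).card) ≤ ∏ _i ∈ J, (1 - (1 / 2 : ℝ) ^ s) := by
        refine Finset.prod_le_prod (fun i _ => ?_) fun i hi => ?_
        · have := pow_le_one₀ (a := (1 / 2 : ℝ)) (n := (B i).card) (by norm_num) (by norm_num)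
          linarith
        · have := pow_le_pow_of_le_one (a := (1 / 2 : ℝ)) (by norm_num) (by norm_num) (hs i hi)
          linarith
    _ = (1 - (1 / 2 : ℝ) ^ s) ^ J.card := Finset.prod_const _
    _ ≤ _ := pow_le_pow_of_le_one h0 h1 hm

end Blocks

lemma card_small {α : Type} [DecidableEq α] (A : Finset α) (s : ℕ) :
    (A.powerset.filter fun S => S.card ≤ s).card ≤ (A.card + 1) ^ s := by
  induction s with
  | zero =>
    rw [pow_zero, Finset.card_le_one]
    intro S hS T hT
    simp only [Finset.mem_filter, Nat.le_zero, Finset.card_eq_zero] at hS hT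
    rw [hS.2, hT.2]
  | succ s ih =>
    have hsub : (A.powerset.filter fun S => S.card ≤ s + 1) ⊆
        (A.powerset.filter fun S => S.card ≤ s) ∪
          A.biUnion fun a => (A.powerset.filter fun S => S.card ≤ s).image (insert a) := by
      intro S hS
      simp only [Finset.mem_filter, Finset.mem_powerset] at hS
      rcases S.eq_empty_or_nonempty with rfl | ⟨a, ha⟩
      · simp
      · refine Finset.mem_union_right _ (Finset.mem_biUnion.mpr ⟨a, hS.1 ha, ?_⟩)
        refine Finset.mem_image.mpr ⟨S.erase a, ?_, Finset.insert_erase ha⟩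
        simp only [Finset.mem_filter, Finset.mem_powerset]
        refine ⟨(Finset.erase_subset a S).trans hS.1, ?_⟩
        rw [Finset.card_erase_of_mem ha]
        omega
    have h1 := (Finset.card_le_card hsub).trans (Finset.card_union_le _ _)
    have h2 : (A.biUnion fun a => (A.powerset.filter fun S => S.card ≤ s).image (insert a)).card ≤
        A.card * (A.powerset.filter fun S => S.card ≤ s).card :=
      Finset.card_biUnion_le_card_mul _ _ _ fun a _ => Finset.card_image_le
    calc _ ≤ (A.card + 1) * (A.powerset.filter fun S => S.card ≤ s).card := by linarith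
      _ ≤ (A.card + 1) * (A.card + 1) ^ s := Nat.mul_le_mul_left _ ih
      _ = _ := by ring

/-- The position of the bit that decides the edge between `i` and `j`. -/
def pos {n : ℕ} (i j : Fin n) : Fin n × Fin n := if j < i then (i, j) else (j, i)

lemma adj_iff {n : ℕ} (ω : Om n) {i j : Fin n} (h : i ≠ j) :
    (gOf ω).Adj i j ↔ ω (pos i j) = true := by
  simp only [gOf, SimpleGraph.fromRel_adj, pos]
  rcases lt_or_gt_of_ne h with hl | hl
  · simp [h, hl, hl.not_gt]
  · simp [h, hl, hl.not_gt]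

open Classical in
lemma one {n N s0 : ℕ} (hN : N ≤ n) (S : Finset (Fin n)) (hc : S.card ≤ s0) (j : Fin n)
    (hj : j ∈ S) :
    ((univ.filter fun ω : Om n => ¬ ∃ i : Fin n, i.val < N ∧ i ∉ S ∧
        ∀ j' ∈ S, ((gOf ω).Adj i j' ↔ j' = j)).card : ℝ) ≤
      2 ^ Fintype.card (Fin n × Fin n) * (1 - (1 / 2 : ℝ) ^ s0) ^ (N - s0) := by
  have key := card_bad (X := Fin n × Fin n) (fun q => decide (q.1 = j ∨ q.2 = j))
    ((univ.filter fun i : Fin n => i.val < N) \ S) (fun i => S.image (pos i)) ?_ s0 (N - s0)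
    (fun i _ => Finset.card_image_le.trans hc) ?_
    (fun ω : Om n => ¬ ∃ i : Fin n, i.val < N ∧ i ∉ S ∧ ∀ j' ∈ S, ((gOf ω).Adj i j' ↔ j' = j)) ?_
  · convert key
  · intro i hi i' hi' hne
    simp only [Finset.coe_sdiff, Set.mem_sdiff, Finset.mem_coe] at hi hi'
    refine Finset.disjoint_left.mpr fun x hx hx' => ?_
    obtain ⟨a, ha, rfl⟩ := Finset.mem_image.mp hx
    obtain ⟨b, hb, hab⟩ := Finset.mem_image.mp hx'
    simp only [pos] at hab
    split_ifs at hab <;> simp only [Prod.mk.injEq] at hab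
    · exact hne hab.1.symm
    · exact hi'.2 (hab.1 ▸ ha)
    · exact hi'.2 (hab.2 ▸ ha)
    · exact hne hab.2.symm
  · have h1 : (univ.filter fun i : Fin n => i.val < N).card = N := by
      rw [Fin.card_filter_val_lt]
      omega
    have h2 := Finset.le_card_sdiff S (univ.filter fun i : Fin n => i.val < N)
    omega
  · intro ω hω i hi hall
    simp only [Finset.mem_sdiff, Finset.mem_filter, Finset.mem_univ, true_and] at hi
    refine hω ⟨i, hi.1, hi.2, fun j' hj' => ?_⟩
    have hne : i ≠ j' := fun h => hi.2 (h ▸ hj')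
    have hij : i ≠ j := fun h => hi.2 (h ▸ hj)
    rw [adj_iff ω hne, hall _ (Finset.mem_image_of_mem _ hj')]
    simp only [pos]
    split_ifs <;> simp [hij]

end E1Aux

open E1Aux in
theorem pE1 : StE1 := by
  classical
  intro n N s0 hN
  set A : Finset (Fin n) := univ.filter fun i : Fin n => i.val < N with hA
  have hAc : A.card = N := by
    rw [hA, Fin.card_filter_val_lt]
    omega
  set b : ℝ := 2 ^ Fintype.card (Fin n × Fin n) * (1 - (1 / 2 : ℝ) ^ s0) ^ (N - s0) with hb
  have h0 : (0 : ℝ) ≤ 1 - (1 / 2 : ℝ) ^ s0 := by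
    have := pow_le_one₀ (a := (1 / 2 : ℝ)) (n := s0) (by norm_num) (by norm_num)
    linarith
  have hb0 : 0 ≤ b := by positivity
  let bad : Finset (Fin n) → Fin n → Finset (Om n) := fun S j =>
    univ.filter fun ω : Om n => ¬ ∃ i : Fin n, i.val < N ∧ i ∉ S ∧
      ∀ j' ∈ S, ((gOf ω).Adj i j' ↔ j' = j)
  have hsub : (univ.filter fun ω : Om n => ¬ Supp (gOf ω) N s0) ⊆
      (A.powerset.filter fun S => S.card ≤ s0).biUnion fun S => S.biUnion (bad S) := by
    intro ω hω
    simp only [Finset.mem_filter, Finset.mem_univ, true_and, Supp, not_forall] at hω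
    obtain ⟨S, hS, hc, j, hj, hno⟩ := hω
    refine Finset.mem_biUnion.mpr ⟨S, ?_, Finset.mem_biUnion.mpr ⟨j, hj, ?_⟩⟩
    · simp only [Finset.mem_filter, Finset.mem_powerset]
      exact ⟨fun x hx => by simp [hA, hS x hx], hc⟩
    · simp only [bad, Finset.mem_filter, Finset.mem_univ, true_and]
      exact hno
  have hcard : (((univ.filter fun ω : Om n => ¬ Supp (gOf ω) N s0).card : ℕ) : ℝ) ≤
      ((N : ℝ) + 1) ^ s0 * (s0 * b) := by
    calc (((univ.filter fun ω : Om n => ¬ Supp (gOf ω) N s0).card : ℕ) : ℝ)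
        ≤ ((∑ S ∈ A.powerset.filter fun S => S.card ≤ s0, ∑ j ∈ S, (bad S j).card : ℕ) : ℝ) := by
          exact_mod_cast (Finset.card_le_card hsub).trans (Finset.card_biUnion_le.trans
            (Finset.sum_le_sum fun S _ => Finset.card_biUnion_le))
      _ ≤ ∑ _S ∈ A.powerset.filter fun S => S.card ≤ s0, (s0 * b) := by
          push_cast
          refine Finset.sum_le_sum fun S hS => ?_
          have hc := (Finset.mem_filter.mp hS).2
          calc ∑ j ∈ S, ((bad S j).card : ℝ) ≤ ∑ _j ∈ S, b :=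
                Finset.sum_le_sum fun j hj => by convert one hN S hc j hj
            _ = S.card * b := by rw [Finset.sum_const, nsmul_eq_mul]
            _ ≤ s0 * b := mul_le_mul_of_nonneg_right (by exact_mod_cast hc) hb0
      _ = ((A.powerset.filter fun S => S.card ≤ s0).card : ℝ) * (s0 * b) := by
          rw [Finset.sum_const, nsmul_eq_mul]
      _ ≤ _ := by
          refine mul_le_mul_of_nonneg_right ?_ (by positivity)
          have := card_small A s0
          rw [hAc] at this
          exact_mod_cast this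
  have hΩ : (Fintype.card (Om n) : ℝ) = 2 ^ Fintype.card (Fin n × Fin n) := by
    rw [Fintype.card_fun, Fintype.card_bool]
    push_cast
    rfl
  unfold pr
  rw [hΩ, div_le_iff₀ (by positivity)]
  have hfin : ((N : ℝ) + 1) ^ s0 * (s0 * b) = ((N : ℝ) + 1) ^ s0 * s0 *
      (1 - (1 / 2) ^ s0) ^ (N - s0) * 2 ^ Fintype.card (Fin n × Fin n) := by
    rw [hb]
    ring
  rw [← hfin]
  refine le_trans (le_of_eq ?_) hcard
  congr

end Pool.Agent.P.MP_f57657_co.SY
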