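import Pool.Agent.P.MP_f57657_co.SY.Defs

/-! The multiplicity walk: bounds `StE2` and `StE3`. -/

open Matrix Finset

namespace Pool.Agent.P.MP_f57657_co.SY

open SX

namespace E23Aux

theorem pr_mono {Ω : Type} [Fintype Ω] {E E' : Ω → Prop} (h : ∀ ω, E ω → E' ω) :
    pr E ≤ pr E' := by
  classical
  unfold pr
  refine div_le_div_of_nonneg_right ?_ (Nat.cast_nonneg _)
  refine Nat.cast_le.mpr (card_le_card ?_)
  intro ω hω
  simp only [mem_filter, mem_univ, true_and] at hω ⊢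
  exact h ω hω

theorem pr_union {Ω : Type} [Fintype Ω] (E : ℕ → Ω → Prop) (n : ℕ) (b : ℝ)
    (hb : ∀ s, s < n → pr (E s) ≤ b) :
    pr (fun ω => ∃ s, s < n ∧ E s ω) ≤ n * b := by
  classical
  have h1 : pr (fun ω => ∃ s, s < n ∧ E s ω) ≤ ∑ s ∈ range n, pr (E s) := by
    unfold pr
    rw [← Finset.sum_div]
    refine div_le_div_of_nonneg_right ?_ (Nat.cast_nonneg _)
    rw [← Nat.cast_sum]
    refine Nat.cast_le.mpr (le_trans (card_le_card ?_) (card_biUnion_le (s := range n)))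
    intro ω hω
    simp only [mem_filter, mem_univ, true_and, mem_biUnion, mem_range] at hω ⊢
    exact hω
  refine h1.trans ?_
  calc ∑ s ∈ range n, pr (E s) ≤ ∑ _s ∈ range n, b :=
        sum_le_sum fun s hs => hb s (mem_range.mp hs)
    _ = n * b := by simp

theorem card_of_pr {n : ℕ} (E : (Fin n → Bool) → Prop) [DecidablePred E] (b : ℝ)
    (h : pr E ≤ b) : ((univ.filter E).card : ℝ) ≤ b * 2 ^ n := by
  unfold pr at h
  have hc : (Fintype.card (Fin n → Bool) : ℝ) = 2 ^ n := by simp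
  rw [hc, div_le_iff₀ (by positivity)] at h
  refine le_trans (Nat.cast_le.mpr (card_le_card ?_)) h
  intro a ha
  simpa using ha

theorem nu_setRow (hRow : StRow) (F : Type) [Field F] {n : ℕ} (ω : Om n) (a : Fin n → Bool)
    (θ : F) (i s : ℕ) (h : s ≤ i) :
    nu F (gOf (setRow ω i a)) s 0 θ = nu F (gOf ω) s 0 θ := by
  unfold nu
  rw [(hRow F n ω a θ i s 0).1 (by omega)]

/-- One step of the walk. -/
theorem step (hRow : StRow) (hBord : StBord) (hOdl : StOdl) (F : Type) [Field F] {n : ℕ}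
    (ω : Om n) (θ : F) (s m : ℕ) (hs : s < n) (hν : 2 * m ≤ nu F (gOf ω) s 0 θ) :
    ∑ a : Fin n → Bool, ((2 : ℝ) ^ m) ^ nu F (gOf (setRow ω s a)) (s + 1) 0 θ ≤
      (2 / 2 ^ m) * 2 ^ n * ((2 : ℝ) ^ m) ^ nu F (gOf ω) s 0 θ := by
  classical
  set x : ℝ := 2 ^ m with hx
  have hx1 : 1 ≤ x := one_le_pow₀ (by norm_num)
  have hx0 : 0 < x := by linarith
  set ν := nu F (gOf ω) s 0 θ with hνdef
  let bad : (Fin n → Bool) → Prop := fun a => ∀ f ∈ KK F (gOf ω) s 0 θ, dotB a f = 0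
  have hpt : ∀ a : Fin n → Bool, x ^ nu F (gOf (setRow ω s a)) (s + 1) 0 θ ≤
      (if bad a then x ^ (ν + 1) else 0) + x ^ ν / x := by
    intro a
    have hB := hBord F n (gOf (setRow ω s a)) θ s hs
    have he : nu F (gOf (setRow ω s a)) s 0 θ = ν := nu_setRow hRow F ω a θ s s le_rfl
    rw [he] at hB
    have hpos : 0 ≤ x ^ ν / x := by positivity
    by_cases hb : bad a
    · rw [if_pos hb]
      have := pow_le_pow_right₀ hx1 hB.1
      linarith
    · rw [if_neg hb, zero_add]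
      have hex : ∃ f ∈ KK F (gOf ω) s 0 θ, dotB a f ≠ 0 := by
        by_contra hc
        push Not at hc
        exact hb hc
      obtain ⟨f, hf, hf0⟩ := hex
      have hK := (hRow F n ω a θ s s 0).1 (by omega)
      have hd := (hRow F n ω a θ s s 0).2.2 hs f hf.1
      have h2 := hB.2.2.1 ⟨f, by rw [hK]; exact hf, by rw [hd]; exact hf0⟩
      rw [le_div_iff₀ hx0, ← pow_succ]
      exact pow_le_pow_right₀ hx1 h2
  have hcard : ((univ.filter bad).card : ℝ) ≤ (1 / 2) ^ ν * 2 ^ n :=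
    card_of_pr bad _ (hOdl F n (KK F (gOf ω) s 0 θ))
  have hhalf : ((1 : ℝ) / 2) ^ ν ≤ 1 / (x * x) := by
    have h1 : ((1 : ℝ) / 2) ^ ν ≤ (1 / 2) ^ (2 * m) :=
      pow_le_pow_of_le_one (by norm_num) (by norm_num) hν
    refine h1.trans (le_of_eq ?_)
    rw [hx, ← pow_add, _root_.one_div_pow]
    congr 2
    ring
  calc ∑ a : Fin n → Bool, x ^ nu F (gOf (setRow ω s a)) (s + 1) 0 θ
      ≤ ∑ a : Fin n → Bool, ((if bad a then x ^ (ν + 1) else 0) + x ^ ν / x) :=
        sum_le_sum fun a _ => hpt a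
    _ = ((univ.filter bad).card : ℝ) * x ^ (ν + 1) + 2 ^ n * (x ^ ν / x) := by
        rw [sum_add_distrib, ← sum_filter]
        simp
    _ ≤ (1 / (x * x) * 2 ^ n) * x ^ (ν + 1) + 2 ^ n * (x ^ ν / x) := by
        have h3 : ((univ.filter bad).card : ℝ) ≤ 1 / (x * x) * 2 ^ n :=
          hcard.trans (mul_le_mul_of_nonneg_right hhalf (by positivity))
        have h4 : 0 ≤ x ^ (ν + 1) := by positivity
        have := mul_le_mul_of_nonneg_right h3 h4
        linarith
    _ = (2 / x) * 2 ^ n * x ^ ν := by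
        field_simp
        ring

/-- The walk lemma for a family of fields. -/
theorem walk (hSM : StSM) (hRow : StRow) (hBord : StBord) (hOdl : StOdl) {n : ℕ} (Q : Type)
    (F : Q → Type) [∀ q, Field (F q)] (θ : ∀ q, F q) (s0 m : ℕ) (W : ℝ) (hW0 : 0 ≤ W)
    (hs : s0 + 2 * m ≤ n) (R : Om n → Prop)
    (hR : ∀ ω i a, s0 ≤ i → (R (setRow ω i a) ↔ R ω))
    (hW : ∀ ω, R ω → ∃ S : Finset Q, (S.card : ℝ) ≤ W ∧
      ∀ q, 2 * m ≤ nu (F q) (gOf ω) s0 0 (θ q) → q ∈ S) :
    pr (fun ω : Om n => R ω ∧ ∃ q, nu (F q) (gOf ω) s0 0 (θ q) ≤ 4 * m ∧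
      2 * m ≤ nu (F q) (gOf ω) s0 0 (θ q) ∧
      4 * m ≤ nu (F q) (gOf ω) (s0 + 2 * m) 0 (θ q)) ≤ (2 / 2 ^ m) ^ (2 * m) * W := by
  classical
  set x : ℝ := 2 ^ m with hx
  have hx1 : 1 ≤ x := one_le_pow₀ (by norm_num)
  have hx0 : 0 < x := by linarith
  let A : Om n → Set Q := fun ω => {q | R ω ∧ 2 * m ≤ nu (F q) (gOf ω) s0 0 (θ q) ∧
    nu (F q) (gOf ω) s0 0 (θ q) ≤ 4 * m}
  have hfin : ∀ ω, (A ω).Finite := by
    intro ω
    by_cases h : R ω
    · obtain ⟨S, -, hS⟩ := hW ω h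
      exact S.finite_toSet.subset fun q hq => hS q hq.2.1
    · convert Set.finite_empty
      ext q
      simp [A, h]
  let P : Om n → Finset Q := fun ω => (hfin ω).toFinset
  have hP : ∀ ω q, q ∈ P ω ↔ R ω ∧ 2 * m ≤ nu (F q) (gOf ω) s0 0 (θ q) ∧
      nu (F q) (gOf ω) s0 0 (θ q) ≤ 4 * m := by
    intro ω q
    simp [P, A]
  let φ : ℕ → Om n → Q → ℝ := fun i ω q =>
    if 4 * m ≤ nu (F q) (gOf ω) (s0 + i) 0 (θ q) + (2 * m - i) then
      x ^ nu (F q) (gOf ω) (s0 + i) 0 (θ q) / x ^ (4 * m) else 0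
  have hφ0 : ∀ i ω q, 0 ≤ φ i ω q := by
    intro i ω q
    simp only [φ]
    split_ifs
    · positivity
    · exact le_rfl
  have key := hSM n Q s0 (2 * m) P φ (2 / x) W (by positivity) hs ?_ hφ0 ?_ ?_
  · refine le_trans (pr_mono ?_) key
    rintro ω ⟨hr, q, h1, h2, h3⟩
    refine ⟨q, (hP ω q).2 ⟨hr, h2, h1⟩, ?_⟩
    simp only [φ]
    rw [if_pos (by omega), le_div_iff₀ (by positivity), one_mul]
    exact pow_le_pow_right₀ hx1 h3
  · intro ω i a hi
    ext q
    rw [hP, hP, hR ω i a hi, nu_setRow hRow (F q) ω a (θ q) i s0 hi]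
  · intro i ω q hi _
    have hsn : s0 + i < n := by omega
    by_cases hc : 4 * m ≤ nu (F q) (gOf ω) (s0 + i) 0 (θ q) + (2 * m - i)
    · have hst := step hRow hBord hOdl (F q) ω (θ q) (s0 + i) m hsn (by omega)
      rw [← hx] at hst
      have hle : ∀ a : Fin n → Bool, φ (i + 1) (setRow ω (s0 + i) a) q ≤
          x ^ nu (F q) (gOf (setRow ω (s0 + i) a)) (s0 + i + 1) 0 (θ q) / x ^ (4 * m) := by
        intro a
        simp only [φ]
        split_ifs
        · exact le_of_eq rfl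
        · positivity
      calc ∑ a : Fin n → Bool, φ (i + 1) (setRow ω (s0 + i) a) q
          ≤ ∑ a : Fin n → Bool,
            x ^ nu (F q) (gOf (setRow ω (s0 + i) a)) (s0 + i + 1) 0 (θ q) / x ^ (4 * m) :=
            sum_le_sum fun a _ => hle a
        _ = (∑ a : Fin n → Bool,
            x ^ nu (F q) (gOf (setRow ω (s0 + i) a)) (s0 + i + 1) 0 (θ q)) / x ^ (4 * m) := by
            rw [Finset.sum_div]
        _ ≤ (2 / x * 2 ^ n * x ^ nu (F q) (gOf ω) (s0 + i) 0 (θ q)) / x ^ (4 * m) :=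
            div_le_div_of_nonneg_right hst (by positivity)
        _ = 2 / x * 2 ^ n * φ i ω q := by
            simp only [φ]
            rw [if_pos hc, mul_div_assoc]
    · have hz : ∀ a : Fin n → Bool, φ (i + 1) (setRow ω (s0 + i) a) q = 0 := by
        intro a
        have hB := (hBord (F q) n (gOf (setRow ω (s0 + i) a)) (θ q) (s0 + i) hsn).1
        rw [nu_setRow hRow (F q) ω a (θ q) (s0 + i) (s0 + i) le_rfl] at hB
        simp only [φ]
        rw [if_neg]
        rw [← add_assoc]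
        omega
      rw [sum_congr rfl fun a _ => hz a, sum_const_zero]
      exact mul_nonneg (by positivity) (hφ0 i ω q)
  · intro ω
    by_cases h : R ω
    · obtain ⟨S, hSc, hS⟩ := hW ω h
      have h1 : ∀ q ∈ P ω, φ 0 ω q ≤ 1 := by
        intro q hq
        have hq' := (hP ω q).1 hq
        simp only [φ]
        split_ifs
        · rw [div_le_one (by positivity)]
          exact pow_le_pow_right₀ hx1 hq'.2.2
        · exact zero_le_one
      have h2 : (P ω).card ≤ S.card :=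
        card_le_card fun q hq => hS q ((hP ω q).1 hq).2.1
      calc ∑ q ∈ P ω, φ 0 ω q ≤ ∑ _q ∈ P ω, (1 : ℝ) := sum_le_sum h1
        _ = ((P ω).card : ℝ) := by simp
        _ ≤ S.card := by exact_mod_cast h2
        _ ≤ W := hSc
    · have : P ω = ∅ := by
        ext q
        simp [hP, h]
      rw [this, sum_empty]
      exact hW0

/-- First passage time of the multiplicity. -/
theorem first (hBord : StBord) (F : Type) [Field F] {n : ℕ} (G : SimpleGraph (Fin n)) (θ : F)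
    (N m s : ℕ) (hN : N ≤ n) (hm : 1 ≤ m) (hsN : s ≤ N) (h : 4 * m ≤ nu F G s 0 θ) :
    ∃ s0, s0 < n ∧ s0 + 2 * m ≤ N ∧ nu F G s0 0 θ ≤ 4 * m ∧ 2 * m ≤ nu F G s0 0 θ ∧
      4 * m ≤ nu F G (s0 + 2 * m) 0 θ := by
  classical
  have hex : ∃ s, 4 * m ≤ nu F G s 0 θ := ⟨s, h⟩
  have h1 : Nat.find hex ≤ s := Nat.find_min' hex h
  have h2 : 4 * m ≤ nu F G (Nat.find hex) 0 θ := Nat.find_spec hex
  have hup : ∀ u v, u + v ≤ n → nu F G (u + v) 0 θ ≤ nu F G u 0 θ + v := by
    intro u v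
    induction v with
    | zero => intro _; simp
    | succ v ih =>
      intro hv
      have := (hBord F n G θ (u + v) (by omega)).1
      have := ih (by omega)
      rw [← add_assoc]
      omega
  have h0 : nu F G 0 0 θ = 0 ∨ n = 0 := by
    rcases Nat.eq_zero_or_pos n with h | h
    · exact Or.inr h
    · have := (hBord F n G θ 0 h).2.1
      omega
  have h00 : nu F G 0 0 θ = 0 := by
    rcases h0 with h0 | h0
    · exact h0
    · subst h0
      unfold nu
      have := Submodule.finrank_le (KK F G 0 0 θ)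
      simp only [Module.finrank_fin_fun] at this
      omega
  have h3 := hup 0 (Nat.find hex) (by omega)
  rw [zero_add, h00] at h3
  refine ⟨Nat.find hex - 2 * m, by omega, by omega, ?_, ?_, ?_⟩
  · have := Nat.find_min hex (m := Nat.find hex - 2 * m) (by omega)
    omega
  · have := hup (Nat.find hex - 2 * m) (2 * m) (by omega)
    rw [show Nat.find hex - 2 * m + 2 * m = Nat.find hex by omega] at this
    omega
  · rw [show Nat.find hex - 2 * m + 2 * m = Nat.find hex by omega]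
    exact h2

end E23Aux

open E23Aux

theorem pE2 (hSM : StSM) (hRow : StRow) (hBord : StBord) (hOdl : StOdl) (hEig : StEig) :
    StE2 := by
  intro n N m hN hm
  let E : ℕ → Om n → Prop := fun s0 ω => s0 + 2 * m ≤ n ∧ (True ∧ ∃ θ : ℝ,
    nu ℝ (gOf ω) s0 0 θ ≤ 4 * m ∧ 2 * m ≤ nu ℝ (gOf ω) s0 0 θ ∧
      4 * m ≤ nu ℝ (gOf ω) (s0 + 2 * m) 0 θ)
  have hb : ∀ s0, s0 < n → pr (E s0) ≤ (2 / 2 ^ m) ^ (2 * m) * (n : ℝ) := by
    intro s0 _
    by_cases hs : s0 + 2 * m ≤ n
    · refine le_trans (pr_mono fun ω h => h.2) ?_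
      refine walk hSM hRow hBord hOdl ℝ (fun _ => ℝ) (fun θ => θ) s0 m n (Nat.cast_nonneg _) hs
        (fun _ => True) (fun _ _ _ _ => Iff.rfl) ?_
      intro ω _
      obtain ⟨S, hS, hS'⟩ := hEig ℝ n (gOf ω) s0 0
      exact ⟨S, by exact_mod_cast hS, fun θ h => hS' θ (by omega)⟩
    · have : pr (E s0) = 0 := by
        unfold pr
        simp [E, hs]
      rw [this]
      positivity
  have hu := pr_union E n _ hb
  refine le_trans (pr_mono ?_) (hu.trans (le_of_eq (by ring)))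
  intro ω hω
  unfold Null0 at hω
  push Not at hω
  obtain ⟨s, hs, θ, hθ⟩ := hω
  obtain ⟨s0, h1, h2, h3⟩ := first hBord ℝ (gOf ω) θ N m s hN hm hs hθ
  exact ⟨s0, h1, by omega, trivial, θ, h3⟩

theorem pE3 (hSM : StSM) (hRow : StRow) (hBord : StBord) (hOdl : StOdl) (hEig : StEig)
    (hFin : StFin) : StE3 := by
  classical
  intro n N m hN hm hmn
  let R : ℕ → Om n → Prop := fun s0 ω => ∀ θ : ℝ, nu ℝ (gOf ω) s0 0 θ < 4 * m
  let E : ℕ → Om n → Prop := fun s0 ω => s0 + 2 * (2 * m) ≤ n ∧ (R s0 ω ∧ ∃ q : Pt,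
    nu (FF q.1) (gOf ω) s0 0 q.2 ≤ 4 * (2 * m) ∧ 2 * (2 * m) ≤ nu (FF q.1) (gOf ω) s0 0 q.2 ∧
      4 * (2 * m) ≤ nu (FF q.1) (gOf ω) (s0 + 2 * (2 * m)) 0 q.2)
  have hb : ∀ s0, s0 < n → pr (E s0) ≤
      (2 / 2 ^ (2 * m)) ^ (2 * (2 * m)) * ((20 * (n : ℝ) ^ 3 + 20) * n) := by
    intro s0 _
    by_cases hs : s0 + 2 * (2 * m) ≤ n
    · refine le_trans (pr_mono fun ω h => h.2) ?_
      refine walk hSM hRow hBord hOdl Pt (fun q => FF q.1) (fun q => q.2) s0 (2 * m) _
        (by positivity) hs (R s0) ?_ ?_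
      · intro ω i a hi
        simp only [R, nu_setRow hRow ℝ ω a _ i s0 hi]
      · intro ω hω
        obtain ⟨S, hS, hS'⟩ := hFin n (gOf ω) s0 0 (4 * m - 1) (by omega)
          (fun θ => by have := hω θ; omega)
        choose T hT hT' using fun p : Nat.Primes => hEig (FF p) n (gOf ω) s0 0
        refine ⟨S.sigma T, ?_, ?_⟩
        · have h1 : (S.sigma T).card ≤ (20 * n ^ 3 + 20) * n := by
            rw [card_sigma]
            calc ∑ p ∈ S, (T p).card ≤ ∑ _p ∈ S, n := sum_le_sum fun p _ => hT p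
              _ = S.card * n := by simp
              _ ≤ (20 * n ^ 3 + 20) * n := Nat.mul_le_mul_right _ hS
          exact_mod_cast h1
        · intro q hq
          rw [mem_sigma]
          refine ⟨?_, hT' q.1 q.2 (by omega)⟩
          by_contra hc
          have := hS' q.1 hc q.2
          omega
    · have : pr (E s0) = 0 := by
        unfold pr
        simp [E, hs]
      rw [this]
      positivity
  have hu := pr_union E n _ hb
  refine le_trans (pr_mono ?_) (hu.trans (le_of_eq ?_))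
  · rintro ω ⟨h0, hω⟩
    unfold NullP at hω
    push Not at hω
    obtain ⟨s, hs, q, hq⟩ := hω
    obtain ⟨s0, h1, h2, h3⟩ := first hBord (FF q.1) (gOf ω) q.2 N (2 * m) s hN (by omega) hs
      (by omega)
    exact ⟨s0, h1, by omega, fun θ => h0 s0 (by omega) θ, q, h3⟩
  · rw [show 2 * (2 * m) = 4 * m by ring]
    ring

end Pool.Agent.P.MP_f57657_co.SY
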