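import Pool.Agent.P.MP_f57657_co.SY.Defs

/-! The extra rows kill all kernels, over the reals and in prime characteristic. -/

open Matrix Finset

namespace Pool.Agent.P.MP_f57657_co.SY

open SX

namespace E45Aux

theorem pr_mono {Ω : Type} [Fintype Ω] {E E' : Ω → Prop} (h : ∀ ω, E ω → E' ω) : pr E ≤ pr E' := by
  classical
  unfold pr
  refine div_le_div_of_nonneg_right (Nat.cast_le.2 (card_le_card fun ω hω => ?_)) (by positivity)
  simp only [mem_filter, mem_univ, true_and] at hω ⊢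
  exact h ω hω

theorem pr_or {Ω : Type} [Fintype Ω] {E E1 E2 : Ω → Prop} (h : ∀ ω, E ω → E1 ω ∨ E2 ω) :
    pr E ≤ pr E1 + pr E2 := by
  classical
  unfold pr
  rw [← add_div]
  refine div_le_div_of_nonneg_right ?_ (by positivity)
  rw [← Nat.cast_add, Nat.cast_le]
  refine le_trans (card_le_card fun ω hω => ?_) (card_union_le _ _)
  simp only [mem_filter, mem_univ, true_and, mem_union] at hω ⊢
  exact h ω hω

theorem nu_anti (F : Type) [Field F] {n : ℕ} (G : SimpleGraph (Fin n)) (s : ℕ) {j j' : ℕ}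
    (h : j ≤ j') (θ : F) : nu F G s j' θ ≤ nu F G s j θ :=
  Submodule.finrank_mono fun _ hf => ⟨hf.1, fun i hi => hf.2 i (by omega)⟩

theorem nu_row (hRow : StRow) (F : Type) [Field F] {n : ℕ} (ω : Om n) (a : Fin n → Bool) (θ : F)
    {i s j : ℕ} (h : s + j ≤ i) : nu F (gOf (setRow ω i a)) s j θ = nu F (gOf ω) s j θ := by
  unfold nu
  rw [(hRow F n ω a θ i s j).1 h]

theorem supp_row (hRow : StRow) {n : ℕ} (ω : Om n) (a : Fin n → Bool) {i s : ℕ} (h : s ≤ i)
    (s0 : ℕ) : Supp (gOf (setRow ω i a)) s s0 ↔ Supp (gOf ω) s s0 :=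
  (hRow ℝ n ω a 0 i s 0).2.1 h s0

/-- One step of the potential. -/
theorem step (hRow : StRow) (hBord : StBord) (F : Type) [Field F] {n : ℕ} (ω : Om n) (θ : F)
    (N j : ℕ) (hn : N + j < n) {x ρ : ℝ} (hx : 1 ≤ x)
    (hρ : ∀ f ∈ KK F (gOf ω) N j θ, f ≠ 0 → pr (fun a : Fin n → Bool => dotB a f = 0) ≤ ρ) :
    ∑ a : Fin n → Bool, (if 1 ≤ nu F (gOf (setRow ω (N + j) a)) N (j + 1) θ then
        x ^ nu F (gOf (setRow ω (N + j) a)) N (j + 1) θ else 0) ≤
      (ρ + 1 / x) * 2 ^ n * if 1 ≤ nu F (gOf ω) N j θ then x ^ nu F (gOf ω) N j θ else 0 := by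
  classical
  have h1 : ∀ a, nu F (gOf (setRow ω (N + j) a)) N (j + 1) θ ≤ nu F (gOf ω) N j θ := fun a =>
    (nu_anti F _ N (Nat.le_succ j) θ).trans (nu_row hRow F ω a θ le_rfl).le
  split_ifs with h0
  · obtain ⟨f, hf, hf0⟩ : ∃ f ∈ KK F (gOf ω) N j θ, f ≠ 0 := by
      refine Submodule.exists_mem_ne_zero_of_ne_bot fun e => ?_
      rw [nu, e, finrank_bot] at h0
      omega
    have h2 : ∀ a, dotB a f ≠ 0 →
        nu F (gOf (setRow ω (N + j) a)) N (j + 1) θ + 1 ≤ nu F (gOf ω) N j θ := fun a ha => by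
      rw [← nu_row hRow F ω a θ (le_refl (N + j))]
      refine ((hBord F n _ θ (N + j) hn).2.2.2 N j rfl).2 ⟨f, ?_, ?_⟩
      · rwa [(hRow F n ω a θ (N + j) N j).1 le_rfl]
      · rwa [(hRow F n ω a θ (N + j) N j).2.2 hn f fun l hl => hf.1 l (by omega)]
    set ν := nu F (gOf ω) N j θ
    have hx0 : 0 < x := one_pos.trans_le hx
    have h3 : ∀ a : Fin n → Bool, (if 1 ≤ nu F (gOf (setRow ω (N + j) a)) N (j + 1) θ then
        x ^ nu F (gOf (setRow ω (N + j) a)) N (j + 1) θ else 0) ≤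
        (if dotB a f = 0 then x ^ ν else 0) + x ^ ν / x := fun a => by
      have h4 : (if 1 ≤ nu F (gOf (setRow ω (N + j) a)) N (j + 1) θ then
          x ^ nu F (gOf (setRow ω (N + j) a)) N (j + 1) θ else 0) ≤
          x ^ nu F (gOf (setRow ω (N + j) a)) N (j + 1) θ := by
        split_ifs
        · exact le_rfl
        · positivity
      refine h4.trans ?_
      split_ifs with ha
      · exact (pow_le_pow_right₀ hx (h1 a)).trans (le_add_of_nonneg_right (by positivity))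
      · rw [zero_add, le_div_iff₀ hx0, ← pow_succ]
        exact pow_le_pow_right₀ hx (h2 a ha)
    refine (sum_le_sum fun a _ => h3 a).trans ?_
    have h5 := hρ f hf hf0
    have hc : (Fintype.card (Fin n → Bool) : ℝ) = 2 ^ n := by simp
    rw [pr, hc, div_le_iff₀ (by positivity)] at h5
    rw [sum_add_distrib, ← sum_filter, sum_const, sum_const, card_univ, nsmul_eq_mul, nsmul_eq_mul,
      hc]
    have h6 := mul_le_mul_of_nonneg_right h5 (pow_pos hx0 ν).le
    calc _ ≤ ρ * 2 ^ n * x ^ ν + 2 ^ n * (x ^ ν / x) := by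
          refine add_le_add (le_of_eq_of_le ?_ h6) le_rfl
          congr
      _ = _ := by ring
  · rw [mul_zero]
    refine le_of_eq (sum_eq_zero fun a _ => if_neg ?_)
    have := h1 a
    omega

/-- The extra rows kill the kernels at a bounded number of points. -/
theorem kill (hSM : StSM) (hRow : StRow) (hBord : StBord) {Q : Type} (F : Q → Type)
    [∀ q, Field (F q)] (θ : ∀ q, F q) {n : ℕ} (N j t μ : ℕ) (hn : N + j + t ≤ n)
    (S : Om n → Set Q) {x ρ M : ℝ} (hx : 1 ≤ x) (hρ0 : 0 ≤ ρ)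
    (hS : ∀ ω i a, N + j ≤ i → S (setRow ω i a) = S ω)
    (hM : ∀ ω, ∃ T : Finset Q, S ω ⊆ T ∧ (T.card : ℝ) ≤ M)
    (hμ : ∀ ω, ∀ q ∈ S ω, nu (F q) (gOf ω) N j (θ q) ≤ μ)
    (hρ : ∀ ω, ∀ q ∈ S ω, ∀ j', ∀ f ∈ KK (F q) (gOf ω) N j' (θ q), f ≠ 0 →
      pr (fun a : Fin n → Bool => dotB a f = 0) ≤ ρ) :
    pr (fun ω : Om n => ∃ q ∈ S ω, 1 ≤ nu (F q) (gOf ω) N (j + t) (θ q)) ≤
      M * x ^ μ * (ρ + 1 / x) ^ t := by
  classical
  have hfin : ∀ ω, (S ω).Finite := fun ω =>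
    let ⟨T, hT, _⟩ := hM ω; T.finite_toSet.subset hT
  have hx0 : 0 < x := one_pos.trans_le hx
  have key := hSM n Q (N + j) t (fun ω => (hfin ω).toFinset)
    (fun i ω q => if 1 ≤ nu (F q) (gOf ω) N (j + i) (θ q) then
      x ^ nu (F q) (gOf ω) N (j + i) (θ q) else 0) (ρ + 1 / x) (M * x ^ μ) (by positivity) hn
    (fun ω i a hi => by ext q; simp only [Set.Finite.mem_toFinset, hS ω i a hi])
    (fun i ω q => by positivity)
    (fun i ω q hi hq => by
      rw [add_assoc N j i, ← add_assoc j i 1]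
      exact step hRow hBord (F q) ω (θ q) N (j + i) (by omega) hx
        (hρ ω q ((hfin ω).mem_toFinset.1 hq) _))
    (fun ω => by
      obtain ⟨T, hT, hc⟩ := hM ω
      refine (sum_le_card_nsmul _ _ (x ^ μ) fun q hq => ?_).trans ?_
      · split_ifs
        · exact pow_le_pow_right₀ hx (hμ ω q ((hfin ω).mem_toFinset.1 hq))
        · positivity
      · rw [nsmul_eq_mul]
        refine mul_le_mul_of_nonneg_right (le_trans (Nat.cast_le.2 (card_le_card fun q hq => ?_))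
          hc) (by positivity)
        exact hT ((hfin ω).mem_toFinset.1 hq))
  rw [mul_comm]
  refine le_trans (pr_mono ?_) key
  rintro ω ⟨q, hq, h1⟩
  exact ⟨q, (hfin ω).mem_toFinset.2 hq, by rw [if_pos h1]; exact one_le_pow₀ hx⟩

theorem half (hOdl : StOdl) {F : Type} [Field F] {n : ℕ} {f : Fin n → F} (hf : f ≠ 0) :
    pr (fun a : Fin n → Bool => dotB a f = 0) ≤ 1 / 2 := by
  have h := hOdl F n (Submodule.span F {f})
  rw [finrank_span_singleton hf, pow_one] at h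
  refine le_trans (pr_mono fun a ha g hg => ?_) h
  obtain ⟨c, rfl⟩ := Submodule.mem_span_singleton.1 hg
  have : dotB a (c • f) = c * dotB a f := by
    unfold dotB
    rw [mul_sum]
    exact sum_congr rfl fun j _ => by split_ifs <;> simp
  rw [this, ha, mul_zero]

theorem mem_span {p : Nat.Primes} {n : ℕ} {G : SimpleGraph (Fin n)} {N j : ℕ} {θ : FF p}
    {f : Fin n → FF p} (hf : f ∈ KK (FF p) G N j θ) (i : Fin n) :
    θ * f i ∈ Submodule.span (ZMod p.1) (Set.range f) := by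
  by_cases hi : N ≤ i.val
  · rw [hf.1 i hi, mul_zero]
    exact zero_mem _
  · rw [← hf.2 i (by omega)]
    refine sum_mem fun l _ => ?_
    rw [← zsmul_eq_mul]
    exact zsmul_mem (Submodule.subset_span (Set.mem_range_self l)) _

end E45Aux

open E45Aux

theorem pE4 (hSM : StSM) (hRow : StRow) (hBord : StBord) (hLO : StLO) (hSV : StSuppVec)
    (hEig : StEig) : StE4 := by
  intro n N k1 μ r hn hr
  have hr' : (1 : ℝ) ≤ r := Nat.one_le_cast.2 hr
  have key := kill hSM hRow hBord (fun _ : ℝ => ℝ) (fun q => q) N 0 k1 μ (n := n) hn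
    (fun ω => {θ | Supp (gOf ω) N (32 * r ^ 3) ∧ 1 ≤ nu ℝ (gOf ω) N 0 θ ∧ nu ℝ (gOf ω) N 0 θ ≤ μ})
    (x := r) (ρ := 1 / r) (M := n) hr' (by positivity)
    (fun ω i a hi => by
      ext θ
      simp only [Set.mem_ofPred_eq, supp_row hRow ω a (show N ≤ i from hi), nu_row hRow ℝ ω a θ hi])
    (fun ω => by
      obtain ⟨T, hT, h⟩ := hEig ℝ n (gOf ω) N 0
      exact ⟨T, fun θ hθ => h θ hθ.2.1, Nat.cast_le.2 hT⟩)
    (fun ω q hq => hq.2.2)
    (fun ω q hq j' f hf hf0 => hLO ℝ n r f hr (fun m hm _ => Nat.cast_ne_zero.2 (by omega))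
      (hSV ℝ n _ N j' _ q f hq.1 hf hf0))
  rw [← add_div, one_add_one_eq_two, zero_add] at key
  refine le_trans (pr_mono ?_) key
  rintro ω ⟨h1, h2, θ, h3⟩
  exact ⟨θ, ⟨h1, h3.trans (nu_anti ℝ _ N (Nat.zero_le _) θ), (h2 N le_rfl θ).le⟩, h3⟩

theorem pE5 (hSM : StSM) (hRow : StRow) (hBord : StBord) (hOdl : StOdl) (hOD : StOdlDeg)
    (hLO : StLO) (hSV : StSuppVec) (hEig : StEig) (hFin : StFin) (hSm : StSmall) : StE5 := by
  classical
  intro n N k1 k2 μ g hn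
  obtain ⟨S0, hS0, hs⟩ := hSm (2 * 2 ^ g) g
  have key1 := kill hSM hRow hBord (fun q : Pt => FF q.1) (fun q => q.2) N k1 k2 μ (n := n) hn
    (fun ω => {q | Supp (gOf ω) N (32 * (2 ^ g) ^ 3) ∧ (∀ θ : ℝ, nu ℝ (gOf ω) N k1 θ = 0) ∧
      1 ≤ nu (FF q.1) (gOf ω) N k1 q.2 ∧ nu (FF q.1) (gOf ω) N k1 q.2 ≤ μ ∧ q ∉ S0})
    (x := 2 ^ g) (ρ := 1 / 2 ^ g) (M := (20 * (n : ℝ) ^ 3 + 20) * n) (one_le_pow₀ one_le_two)
    (by positivity)
    (fun ω i a hi => by
      ext q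
      simp only [Set.mem_ofPred_eq, supp_row hRow ω a (show N ≤ i by omega),
        nu_row hRow _ ω a _ hi])
    (fun ω => by
      by_cases h0 : ∀ θ : ℝ, nu ℝ (gOf ω) N k1 θ = 0
      · obtain ⟨T, hT, h⟩ := hFin n (gOf ω) N k1 0 (Nat.zero_le _) fun θ => (h0 θ).le
        choose E hE hE' using fun p : Nat.Primes => hEig (FF p) n (gOf ω) N k1
        refine ⟨T.sigma E, fun q hq => ?_, ?_⟩
        · refine mem_coe.2 (mem_sigma.2 ⟨not_not.1 fun e => ?_, hE' q.1 q.2 hq.2.2.1⟩)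
          have h1 := h q.1 e q.2
          have h2 := hq.2.2.1
          omega
        · have : (T.sigma E).card ≤ (20 * n ^ 3 + 20) * n := by
            rw [card_sigma]
            exact (sum_le_card_nsmul _ _ n fun p _ => hE p).trans (Nat.mul_le_mul_right n hT)
          exact_mod_cast this
      · exact ⟨∅, fun q hq => absurd hq.2.1 h0, by rw [card_empty, Nat.cast_zero]; positivity⟩)
    (fun ω q hq => hq.2.2.2.1)
    (fun ω q hq j' f hf hf0 => by
      by_cases hp : q.1.1 ≤ 2 * 2 ^ g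
      · have := hOD q.1 n g q.2 f hf0 (not_not.1 fun e => hq.2.2.2.2 (hs q hp e)) (mem_span hf)
        rwa [_root_.one_div_pow] at this
      · have := hLO (FF q.1) n (2 ^ g) f Nat.one_le_two_pow (fun m h1 h2 e => ?_)
          (hSV _ n _ N j' _ q.2 f hq.1 hf hf0)
        · exact_mod_cast this
        · have := Nat.le_of_dvd h1 ((CharP.cast_eq_zero_iff (FF q.1) q.1.1 m).1 e)
          omega)
  have key2 := kill hSM hRow hBord (fun q : Pt => FF q.1) (fun q => q.2) N k1 k2 μ (n := n) hn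
    (fun ω => {q | nu (FF q.1) (gOf ω) N k1 q.2 ≤ μ ∧ q ∈ S0})
    (x := 4) (ρ := 1 / 2) (M := ((2 * 2 ^ g * (g * (2 * 2 ^ g) ^ g) : ℕ) : ℝ)) (by norm_num)
    (by norm_num)
    (fun ω i a hi => by
      ext q
      simp only [Set.mem_ofPred_eq, nu_row hRow _ ω a _ hi])
    (fun ω => ⟨S0, fun q hq => hq.2, Nat.cast_le.2 hS0⟩) (fun ω q hq => hq.1)
    (fun ω q _ j' f _ hf0 => half hOdl hf0)
  rw [← add_div, one_add_one_eq_two] at key1
  rw [show (1 / 2 + 1 / 4 : ℝ) = 3 / 4 by norm_num] at key2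
  refine le_trans (pr_or ?_) (add_le_add key1 key2)
  rintro ω ⟨h1, h2, h3, q, h4⟩
  have h5 : nu (FF q.1) (gOf ω) N k1 q.2 ≤ μ :=
    (nu_anti _ _ N (Nat.zero_le _) _).trans (h2 N le_rfl q).le
  by_cases hq : q ∈ S0
  · exact Or.inr ⟨q, ⟨h5, hq⟩, h4⟩
  · exact Or.inl ⟨q, ⟨h1, h3, h4.trans (nu_anti _ _ N (Nat.le_add_right _ _) _), h5, hq⟩, h4⟩

end Pool.Agent.P.MP_f57657_co.SY
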