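import Pool.Agent.P.MP_f57657_co.SY.Main

/-! The two paths of the extension. -/

open Matrix Finset

set_option linter.unusedSectionVars false

namespace Pool.Agent.P.MP_f57657_co.SY

open SX

namespace ExtAAux

variable {V : Type} [Fintype V] [DecidableEq V] (G : SimpleGraph V) (t0 t1 : V) (l : ℕ)

theorem extP_eq (c : Bool) (j : ℕ) (h1 : 1 ≤ j) (h2 : j ≤ l + 2) :
    (extP l c j : V ⊕ St l) = Sum.inr (some (⟨j - 1, by omega⟩, c)) := by
  simp [extP, h1, h2]

theorem adj_pp (q q' : Fin (l + 2) × Bool) :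
    (extG G t0 t1 l).Adj (Sum.inr (some q)) (Sum.inr (some q')) ↔
      (q.2 = q'.2 ∧ (q'.1.val = q.1.val + 1 ∨ q.1.val = q'.1.val + 1)) ∨
        (q.1.val = l ∧ q'.1.val = l ∧ q.2 ≠ q'.2) := by
  obtain ⟨⟨i, hi⟩, c⟩ := q
  obtain ⟨⟨i', hi'⟩, c'⟩ := q'
  simp only [extG, SimpleGraph.fromRel_adj, extRel, ne_eq, Sum.inr.injEq, Option.some.injEq,
    Prod.mk.injEq, Fin.mk.injEq]
  cases c <;> cases c' <;> simp <;> omega

theorem adj_np (q : Fin (l + 2) × Bool) :
    (extG G t0 t1 l).Adj (Sum.inr none) (Sum.inr (some q)) ↔ q.1.val = 0 := by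
  simp [extG, SimpleGraph.fromRel_adj, extRel]

theorem adj_nl (x : V) : ¬ (extG G t0 t1 l).Adj (Sum.inr none) (Sum.inl x) := by
  simp [extG, SimpleGraph.fromRel_adj, extRel]

theorem adj_pl (q : Fin (l + 2) × Bool) (x : V) :
    (extG G t0 t1 l).Adj (Sum.inr (some q)) (Sum.inl x) ↔
      q.1.val = l + 1 ∧ x = if q.2 then t1 else t0 := by
  simp [extG, SimpleGraph.fromRel_adj, extRel]

theorem layered : Layered (extLay l) (extG G t0 t1 l) := by
  rintro (x | _ | q) (y | _ | q') h
  · simp [extLay]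
  · simp [extLay]
  · have := q'.1.2
    simp only [extLay]
    omega
  · exact absurd h (adj_nl G t0 t1 l y)
  · simp [extLay]
  · rw [adj_np] at h
    simp [extLay, h]
  · rw [adj_pl] at h
    simp only [extLay]
    omega
  · simp [extLay]
  · rw [adj_pp] at h
    simp only [extLay]
    omega

theorem paths (hl : 1 ≤ l) :
    Paths (extLay l) (extG G t0 t1 l) 0 l (Sum.inr none) (extP l false) (extP l true) where
  layered := layered G t0 t1 l
  lt := hl
  rho_lay := rfl
  rho_uniq := by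
    rintro (x | _ | q) h
    · simp [extLay] at h
    · rfl
    · simp [extLay] at h
  a_lay := fun j h1 h2 => by
    rw [extP_eq l false j h1 (by omega)]
    simp only [extLay]
    omega
  b_lay := fun j h1 h2 => by
    rw [extP_eq l true j h1 (by omega)]
    simp only [extLay]
    omega
  ne := fun j h1 h2 => by
    rw [extP_eq l false j h1 (by omega), extP_eq l true j h1 (by omega)]
    simp
  uniq := by
    rintro (x | _ | ⟨⟨i, hi⟩, c⟩) h1 h2
    · simp only [extLay] at h2
      omega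
    · simp [extLay] at h1
    · simp only [extLay] at h1 h2 ⊢
      rw [extP_eq l false _ (by omega) (by omega), extP_eq l true _ (by omega) (by omega)]
      cases c <;> simp
  rho_a := by
    rw [extP_eq l false _ (by omega) (by omega), adj_np]
  rho_b := by
    rw [extP_eq l true _ (by omega) (by omega), adj_np]
  aa := fun j h1 h2 => by
    rw [extP_eq l false _ h1 (by omega), extP_eq l false _ (by omega) (by omega), adj_pp]
    exact Or.inl ⟨rfl, Or.inl (by simp only; omega)⟩
  bb := fun j h1 h2 => by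
    rw [extP_eq l true _ h1 (by omega), extP_eq l true _ (by omega) (by omega), adj_pp]
    exact Or.inl ⟨rfl, Or.inl (by simp only; omega)⟩
  ab := fun j h1 h2 => by
    rw [extP_eq l false _ h1 (by omega), extP_eq l true _ (by omega) (by omega), adj_pp]
    simp only [Bool.false_eq_true, false_and, false_or]
    omega
  ba := fun j h1 h2 => by
    rw [extP_eq l true _ h1 (by omega), extP_eq l false _ (by omega) (by omega), adj_pp]
    simp only [Bool.true_eq_false, false_and, false_or]
    omega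
  bare := fun j h1 h2 => by
    rw [extP_eq l false _ h1 (by omega), extP_eq l true _ (by omega) (by omega), adj_pp]
    simp only [Bool.false_eq_true, false_and, false_or]
    omega
  rung := by
    rw [extP_eq l false _ (by omega) (by omega), extP_eq l true _ (by omega) (by omega), adj_pp]
    exact Or.inr ⟨by simp, by simp, by simp⟩

theorem parent (k : ℕ) (hk : k < l) : HasParent (extLay l) (extG G t0 t1 l) k := by
  rintro (x | _ | ⟨⟨i, hi⟩, c⟩) h
  · simp only [extLay] at h
    omega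
  · simp [extLay] at h
  · simp only [extLay] at h
    rcases Nat.eq_zero_or_pos k with rfl | h0
    · exact ⟨Sum.inr none, rfl, (adj_np G t0 t1 l _).2 (by simp only; omega)⟩
    · refine ⟨Sum.inr (some (⟨k - 1, by omega⟩, c)), by simp only [extLay]; omega, ?_⟩
      rw [adj_pp]
      exact Or.inl ⟨rfl, Or.inl (by simp only; omega)⟩

theorem card_U (hl : 1 ≤ l) :
    (Uk (extLay l : V ⊕ St l → ℕ) l).card = Fintype.card V + 6 := by
  have h : (univ.filter fun i : Fin (l + 2) => l ≤ i.val + 1) =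
      {⟨l - 1, by omega⟩, ⟨l, by omega⟩, ⟨l + 1, by omega⟩} := by
    ext ⟨i, hi⟩
    simp only [mem_filter, mem_univ, true_and, mem_insert, Fin.mk.injEq, mem_singleton]
    omega
  have h3 : (univ.filter fun i : Fin (l + 2) => l ≤ i.val + 1).card = 3 := by
    rw [h, card_eq_three]
    exact ⟨_, _, _, by simp only [ne_eq, Fin.mk.injEq]; omega,
      by simp only [ne_eq, Fin.mk.injEq]; omega, by simp only [ne_eq, Fin.mk.injEq]; omega, rfl⟩
  rw [card_filter] at h3
  rw [Uk, card_filter, Fintype.sum_sum_type, Fintype.sum_option, Fintype.sum_prod_type_right]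
  have h0 : ¬ l ≤ 0 := by omega
  simp only [extLay, Fintype.sum_bool, h0, if_false]
  erw [h3]
  simp

/-- The path vertex with index `l + j - 1` on side `c`. -/
def pv (c : Bool) (j : Fin 3) : V ⊕ St l :=
  Sum.inr (some (⟨l + j.val - 1, by have := j.2; omega⟩, c))

/-- The root on side `c`. -/
def tv (c : Bool) : V := if c then t1 else t0

/-- The matrix on the layers from `l` on. -/
noncomputable abbrev AA : Matrix (V ⊕ St l) (V ⊕ St l) ℤ := up (extLay l) l (am (extG G t0 t1 l))

theorem AA_symm (x y : V ⊕ St l) : AA G t0 t1 l x y = AA G t0 t1 l y x := by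
  simp only [AA, up, of_apply]
  rw [(Main.am_symm (extG G t0 t1 l)).apply y x]
  simp only [and_comm]

theorem AA_ll (x y : V) : AA G t0 t1 l (Sum.inl x) (Sum.inl y) = am G x y := by
  by_cases h : G.Adj x y <;> simp [AA, up, am, extLay, Main.ext_adj, h]

theorem AA_n (x : V ⊕ St l) (hl : 1 ≤ l) : AA G t0 t1 l (Sum.inr none) x = 0 := by
  have h0 : ¬ l ≤ 0 := by omega
  simp [AA, up, extLay, h0]

theorem AA_pl (q : Fin (l + 2) × Bool) (x : V) : AA G t0 t1 l (Sum.inr (some q)) (Sum.inl x) =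
    if q.1.val = l + 1 ∧ x = tv t0 t1 q.2 then 1 else 0 := by
  simp only [AA, up, am, extLay, of_apply, adj_pl, tv]
  split_ifs <;> first | rfl | omega

theorem AA_pp (q q' : Fin (l + 2) × Bool) :
    AA G t0 t1 l (Sum.inr (some q)) (Sum.inr (some q')) =
      if (l ≤ q.1.val + 1 ∧ l ≤ q'.1.val + 1) ∧
        ((q.2 = q'.2 ∧ (q'.1.val = q.1.val + 1 ∨ q.1.val = q'.1.val + 1)) ∨
          (q.1.val = l ∧ q'.1.val = l ∧ q.2 ≠ q'.2)) then 1 else 0 := by
  simp only [AA, up, am, extLay, of_apply, adj_pp]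
  split_ifs <;> first | rfl | tauto

theorem col0 (hl : 1 ≤ l) (c : Bool) :
    AA G t0 t1 l *ᵥ Pi.single (pv l c 0) 1 = Pi.single (pv l c 1) 1 := by
  funext x
  rw [mulVec_single_one]
  rcases x with x | _ | ⟨⟨i, hi⟩, c'⟩
  · simp only [col_apply, pv]
    rw [AA_symm, AA_pl]
    simp
  · simp [AA_n G t0 t1 l _ hl, pv]
  · simp only [col_apply, pv, AA_pp, Pi.single_apply, Sum.inr.injEq, Option.some.injEq,
      Prod.mk.injEq, Fin.mk.injEq, Fin.val_zero, Fin.val_one]
    cases c <;> cases c' <;> simp <;> omega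

theorem col1 (hl : 1 ≤ l) (c : Bool) :
    AA G t0 t1 l *ᵥ Pi.single (pv l c 1) 1 =
      Pi.single (pv l c 0) 1 + Pi.single (pv l c 2) 1 + Pi.single (pv l (!c) 1) 1 := by
  funext x
  rw [mulVec_single_one]
  rcases x with x | _ | ⟨⟨i, hi⟩, c'⟩
  · simp only [col_apply, pv]
    rw [AA_symm, AA_pl]
    simp
  · simp [AA_n G t0 t1 l _ hl, pv]
  · simp only [col_apply, pv, AA_pp, Pi.add_apply, Pi.single_apply, Sum.inr.injEq,
      Option.some.injEq, Prod.mk.injEq, Fin.mk.injEq, Fin.val_zero, Fin.val_one, Fin.val_two]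
    cases c <;> cases c' <;> simp <;> omega

theorem col2 (hl : 1 ≤ l) (c : Bool) :
    AA G t0 t1 l *ᵥ Pi.single (pv l c 2) 1 =
      Pi.single (pv l c 1) 1 + Pi.single (Sum.inl (tv t0 t1 c)) 1 := by
  funext x
  rw [mulVec_single_one]
  rcases x with x | _ | ⟨⟨i, hi⟩, c'⟩
  · simp only [col_apply, pv]
    rw [AA_symm, AA_pl]
    simp [Pi.single_apply]
  · simp [AA_n G t0 t1 l _ hl, pv]
  · simp only [col_apply, pv, AA_pp, Pi.add_apply, Pi.single_apply, Sum.inr.injEq,
      Option.some.injEq, Prod.mk.injEq, Fin.mk.injEq, Fin.val_zero, Fin.val_one, Fin.val_two]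
    cases c <;> cases c' <;> simp <;> omega

theorem kry_mul {W T : Type} [Fintype W] [DecidableEq W] (A : Matrix W W ℤ) (t : T → W)
    {g : W → ℤ} (hg : g ∈ kry A t) : A *ᵥ g ∈ kry A t := by
  induction hg using Submodule.span_induction with
  | mem g h =>
    obtain ⟨k, i, rfl⟩ := h
    refine Submodule.subset_span ⟨k + 1, i, ?_⟩
    funext x
    rw [pow_succ', mul_apply]
    rfl
  | zero => rw [mulVec_zero]; exact zero_mem _
  | add a b _ _ ha hb => rw [mulVec_add]; exact add_mem ha hb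
  | smul c a _ ha => rw [mulVec_smul]; exact Submodule.smul_mem _ c ha

theorem kry_root {W T : Type} [Fintype W] [DecidableEq W] (A : Matrix W W ℤ) (t : T → W)
    (i : T) : Pi.single (t i) (1 : ℤ) ∈ kry A t := by
  refine Submodule.subset_span ⟨0, i, ?_⟩
  funext x
  rw [pow_zero, one_apply, Pi.single_apply]

theorem extP_pv (hl : 1 ≤ l) (c : Bool) (j : Fin 3) :
    (extP l c (l + j.val) : V ⊕ St l) = pv l c j := by
  have := j.2
  rw [extP_eq l c _ (by omega) (by omega), pv]

theorem quad {W : Type} [Fintype W] [DecidableEq W] (A : Matrix W W ℤ)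
    (hA : ∀ x y, A x y = A y x) (k : ℕ) (x : W) :
    (A ^ (k + k)) x x = (A ^ k *ᵥ Pi.single x 1) ⬝ᵥ (A ^ k *ᵥ Pi.single x 1) := by
  have hs : A.IsSymm := Matrix.IsSymm.ext fun i j => hA j i
  rw [pow_add, mul_apply, mulVec_single_one]
  exact Finset.sum_congr rfl fun y _ => by
    rw [col_apply, (hs.pow k).apply y x]

theorem eight (hl : 1 ≤ l) (hne : t0 ≠ t1) (c : Bool) :
    (AA G t0 t1 l ^ 8) (pv l c 0) (pv l c 0) =
      51 + ∑ y, am G (tv t0 t1 c) y + 2 * am G t0 t1 := by
  set u := AA G t0 t1 l *ᵥ Pi.single (Sum.inl (tv t0 t1 c)) 1 with hu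
  have h4 : AA G t0 t1 l ^ 4 *ᵥ Pi.single (pv l c 0) 1 =
      (3 : ℤ) • Pi.single (pv l c 0) 1 + (3 : ℤ) • Pi.single (pv l c 2) 1 +
        (5 : ℤ) • Pi.single (pv l (!c) 1) 1 + Pi.single (Sum.inl (tv t0 t1 (!c))) 1 + u := by
    rw [show AA G t0 t1 l ^ 4 = AA G t0 t1 l * (AA G t0 t1 l * (AA G t0 t1 l * AA G t0 t1 l)) by
      noncomm_ring]
    simp only [← mulVec_mulVec, col0 G t0 t1 l hl, col1 G t0 t1 l hl, col2 G t0 t1 l hl,
      mulVec_add, Bool.not_not, ← hu]
    abel
  have hux : ∀ x, u x = AA G t0 t1 l x (Sum.inl (tv t0 t1 c)) := fun x => by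
    rw [hu, mulVec_single_one, col_apply]
  have ht : tv t0 t1 c ≠ tv t0 t1 (!c) := by
    cases c
    · simpa [tv] using hne
    · simpa [tv] using hne.symm
  have u0 : u (pv l c 0) = 0 := by
    rw [hux, pv, AA_pl, if_neg (by simp only [Fin.val_zero]; omega)]
  have u2 : u (pv l c 2) = 1 := by
    rw [hux, pv, AA_pl, if_pos ⟨by simp only [Fin.val_two]; omega, rfl⟩]
  have u1 : u (pv l (!c) 1) = 0 := by
    rw [hux, pv, AA_pl, if_neg (by simp only [Fin.val_one]; omega)]
  have ut : u (Sum.inl (tv t0 t1 (!c))) = am G t0 t1 := by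
    rw [hux, AA_ll]
    cases c
    · exact (Main.am_symm G).apply t0 t1
    · rfl
  have uu : u ⬝ᵥ u = 1 + ∑ y, am G (tv t0 t1 c) y := by
    rw [dotProduct, Fintype.sum_sum_type, Fintype.sum_option, add_comm]
    congr 1
    · rw [hux, AA_n G t0 t1 l _ hl, mul_zero, zero_add,
        Finset.sum_eq_single (⟨l + 1, by omega⟩, c)]
      · rw [hux, AA_pl, if_pos ⟨rfl, rfl⟩, mul_one]
      · rintro ⟨⟨i, hi⟩, c'⟩ _ h
        rw [hux, AA_pl, if_neg, mul_zero]
        rintro ⟨h1, h2⟩
        simp only at h1 h2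
        subst h1
        cases c <;> cases c' <;> simp_all
      · simp
    · refine Finset.sum_congr rfl fun y _ => ?_
      rw [hux, AA_ll, (Main.am_symm G).apply (tv t0 t1 c) y]
      simp only [am, of_apply]
      split_ifs <;> rfl
  have n1 : ∀ (c c' : Bool) (j j' : Fin 3), (pv l c j : V ⊕ St l) = pv l c' j' ↔
      j = j' ∧ c = c' := fun c c' j j' => by
    simp only [pv, Sum.inr.injEq, Option.some.injEq, Prod.mk.injEq, Fin.mk.injEq, Fin.ext_iff]
    exact and_congr_left fun _ => by omega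
  have n2 : ∀ (c : Bool) (j : Fin 3) (x : V), (pv l c j : V ⊕ St l) ≠ Sum.inl x :=
    fun c j x => by simp [pv]
  rw [show 8 = 4 + 4 from rfl, quad _ (AA_symm G t0 t1 l), h4]
  simp only [add_dotProduct, dotProduct_add, smul_dotProduct, dotProduct_smul, single_dotProduct,
    dotProduct_single, uu, u0, u1, u2, ut, Pi.single_apply, n1, n2, (n2 _ _ _).symm]
  simp [u0, u1, u2, ut, n1, n2, (n2 _ _ _).symm]
  ring

end ExtAAux

open ExtAAux in
theorem pExtPaths : StExtPaths := by
  intro V _ _ G t0 t1 l hl hne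
  refine ⟨paths G t0 t1 l hl, parent G t0 t1 l, card_U l hl, ?_, fun hd => ⟨8, ?_⟩⟩
  · set K := kry (up (extLay l) l (am (extG G t0 t1 l)))
      (fun c : Bool => if c then extP l true l else extP l false l) with hK
    have h0 : ∀ c, Pi.single (pv l c 0) (1 : ℤ) ∈ K := fun c => by
      have := kry_root (up (extLay l) l (am (extG G t0 t1 l)))
        (fun c : Bool => if c then extP l true l else extP l false l) c
      rw [← extP_pv l hl c 0]
      cases c <;> exact this
    have h1 : ∀ c, Pi.single (pv l c 1) (1 : ℤ) ∈ K := fun c => by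
      rw [← col0 G t0 t1 l hl]
      exact kry_mul _ _ (h0 c)
    have h2 : ∀ c, Pi.single (pv l c 2) (1 : ℤ) ∈ K := fun c => by
      have := kry_mul _ _ (h1 c)
      rw [col1 G t0 t1 l hl] at this
      exact (add_mem_cancel_left (h0 c)).1 ((add_mem_cancel_right (h1 !c)).1 this)
    have h3 : ∀ c, Pi.single (Sum.inl (tv t0 t1 c)) (1 : ℤ) ∈ K := fun c => by
      have := kry_mul _ _ (h2 c)
      rw [col2 G t0 t1 l hl] at this
      exact (add_mem_cancel_left (h1 c)).1 this
    rintro c x (rfl | rfl | rfl)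
    · exact extP_pv (V := V) l hl c 1 ▸ h1 c
    · exact extP_pv (V := V) l hl c 2 ▸ h2 c
    · exact h3 c
  · have e0 := extP_pv (V := V) l hl false 0
    have e1 := extP_pv (V := V) l hl true 0
    simp only [Fin.val_zero, add_zero] at e0 e1
    rw [e0, e1, eight G t0 t1 l hl hne, eight G t0 t1 l hl hne]
    intro h
    apply hd
    simp only [tv, Bool.false_eq_true, if_false, if_true] at h
    linarith

end Pool.Agent.P.MP_f57657_co.SY
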