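import Pool.Agent.P.MP_f57657_co.SY.Main

/-! The extension keeps the properties collected in `Pre`. -/

open Matrix Finset

set_option linter.unusedSectionVars false

namespace Pool.Agent.P.MP_f57657_co.SY

open SX

namespace ExtBAux

section General

variable {U : Type} [Fintype U] [DecidableEq U] {R : Type} [CommRing R]

open Classical in
theorem sum_am (G : SimpleGraph U) (x : U) (f : U → R) :
    ∑ y, ((am G x y : ℤ) : R) * f y = ∑ y, if G.Adj x y then f y else 0 := by
  refine Finset.sum_congr rfl fun y _ => ?_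
  simp only [am, Matrix.of_apply]
  split_ifs <;> simp

theorem sum_set (G : SimpleGraph U) (x : U) (f : U → R) (S : Finset U)
    (h : ∀ y, G.Adj x y ↔ y ∈ S) : ∑ y, ((am G x y : ℤ) : R) * f y = ∑ y ∈ S, f y := by
  classical
  rw [sum_am, ← Finset.sum_filter]
  refine Finset.sum_congr ?_ fun _ _ => rfl
  ext y
  simp [h y]

theorem sum_two (G : SimpleGraph U) (x u v : U) (f : U → R) (huv : u ≠ v)
    (h : ∀ y, G.Adj x y ↔ y = u ∨ y = v) : ∑ y, ((am G x y : ℤ) : R) * f y = f u + f v := by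
  rw [sum_set G x f {u, v} (by simpa using h), Finset.sum_pair huv]

theorem sum_three (G : SimpleGraph U) (x u v w : U) (f : U → R) (huv : u ≠ v) (huw : u ≠ w)
    (hvw : v ≠ w) (h : ∀ y, G.Adj x y ↔ y = u ∨ y = v ∨ y = w) :
    ∑ y, ((am G x y : ℤ) : R) * f y = f u + f v + f w := by
  rw [sum_set G x f {u, v, w} (by simpa using h), Finset.sum_insert (by simp [huv, huw]),
    Finset.sum_pair hvw, add_assoc]

theorem exists_adj (G : SimpleGraph U) (x : U) (h : ∑ y, am G x y ≠ 0) : ∃ y, G.Adj x y := by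
  obtain ⟨y, _, hy⟩ := Finset.exists_ne_zero_of_sum_ne_zero h
  refine ⟨y, ?_⟩
  by_contra hn
  apply hy
  simp only [am, Matrix.of_apply]
  rw [if_neg hn]

end General

variable {V : Type} [Fintype V] [DecidableEq V]

/-- The vertex on layer `j` of side `c`, the old root included. -/
def W (t0 t1 : V) (l : ℕ) (c : Bool) (j : ℕ) : V ⊕ St l :=
  if j = 0 then Sum.inr none
  else if h : j ≤ l + 2 then Sum.inr (some (⟨j - 1, by omega⟩, c))
  else Sum.inl (if c then t1 else t0)

theorem W_zero (t0 t1 : V) (l : ℕ) (c : Bool) : W t0 t1 l c 0 = Sum.inr none := by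
  simp [W]

theorem W_succ (t0 t1 : V) (l : ℕ) (c : Bool) (j : ℕ) (h : j < l + 2) :
    W t0 t1 l c (j + 1) = Sum.inr (some (⟨j, h⟩, c)) := by
  have h' : j + 1 ≤ l + 2 := h
  simp [W, h']

theorem W_top (t0 t1 : V) (l : ℕ) (c : Bool) :
    W t0 t1 l c (l + 3) = Sum.inl (if c then t1 else t0) := by
  simp [W]

theorem lay_W (t0 t1 : V) (l : ℕ) (c : Bool) (j : ℕ) (h : j ≤ l + 3) :
    extLay l (W t0 t1 l c j) = j := by
  rcases j with _ | j
  · rw [W_zero]; rfl
  · by_cases h' : j < l + 2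
    · rw [W_succ _ _ _ _ _ h']; rfl
    · obtain rfl : j = l + 2 := by omega
      rw [W_top]; rfl

theorem W_ne (t0 t1 : V) (l : ℕ) (c c' : Bool) (j j' : ℕ) (h : j ≤ l + 3) (h' : j' ≤ l + 3)
    (hne : j ≠ j') : W t0 t1 l c j ≠ W t0 t1 l c' j' := by
  intro e
  apply hne
  rw [← lay_W t0 t1 l c j h, ← lay_W t0 t1 l c' j' h', e]

theorem adj_none (G : SimpleGraph V) (t0 t1 : V) (l : ℕ) (y : V ⊕ St l) :
    (extG G t0 t1 l).Adj (Sum.inr none) y ↔ y = W t0 t1 l false 1 ∨ y = W t0 t1 l true 1 := by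
  rw [W_succ t0 t1 l false 0 (by omega), W_succ t0 t1 l true 0 (by omega)]
  simp only [extG, SimpleGraph.fromRel_adj]
  rcases y with y | _ | ⟨⟨i, hi⟩, c⟩
  · simp [extRel]
  · simp [extRel]
  · cases c <;> simp [extRel]

theorem adj_path (G : SimpleGraph V) (t0 t1 : V) (l : ℕ) (c : Bool) (j : ℕ) (hj : j < l + 2)
    (y : V ⊕ St l) :
    (extG G t0 t1 l).Adj (W t0 t1 l c (j + 1)) y ↔
      y = W t0 t1 l c j ∨ y = W t0 t1 l c (j + 2) ∨ (j = l ∧ y = W t0 t1 l (!c) (j + 1)) := by
  rw [W_succ t0 t1 l c j hj, W_succ t0 t1 l (!c) j hj]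
  simp only [extG, SimpleGraph.fromRel_adj]
  have e2 : W t0 t1 l c (j + 2) = if h : j + 1 < l + 2 then Sum.inr (some (⟨j + 1, h⟩, c))
      else Sum.inl (if c then t1 else t0) := by
    split_ifs with h
    · exact W_succ t0 t1 l c (j + 1) h
    all_goals
      obtain rfl : j = l + 1 := by omega
      rw [W_top]
      simp [*]
  have e0 : W t0 t1 l c j = if j = 0 then Sum.inr none
      else Sum.inr (some (⟨j - 1, by omega⟩, c)) := by
    split_ifs with h
    · rw [h, W_zero]
    · obtain ⟨j, rfl⟩ : ∃ i, j = i + 1 := ⟨j - 1, by omega⟩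
      exact W_succ t0 t1 l c j (by omega)
  rw [e2, e0]
  rcases y with y | _ | ⟨⟨i, hi⟩, c'⟩
  · by_cases h1 : j + 1 < l + 2 <;> by_cases h0 : j = 0 <;> simp [extRel, h0, h1] <;> omega
  · by_cases h1 : j + 1 < l + 2 <;> by_cases h0 : j = 0 <;> simp [extRel, h0, h1]
  · by_cases h1 : j + 1 < l + 2 <;> by_cases h0 : j = 0 <;> cases c <;> cases c' <;>
      simp [extRel, h0, h1] <;> omega

theorem adj_inl_inr (G : SimpleGraph V) (t0 t1 : V) (l : ℕ) (v : V) (s : St l) :
    (extG G t0 t1 l).Adj (Sum.inl v) (Sum.inr s) ↔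
      (v = t0 ∧ s = some (⟨l + 1, by omega⟩, false)) ∨
        (v = t1 ∧ s = some (⟨l + 1, by omega⟩, true)) := by
  simp only [extG, SimpleGraph.fromRel_adj]
  rcases s with _ | ⟨⟨i, hi⟩, c⟩
  · simp [extRel]
  · cases c <;> simp [extRel, and_comm]

variable {R : Type} [CommRing R]

theorem sum_none (G : SimpleGraph V) (t0 t1 : V) (l : ℕ) (f : V ⊕ St l → R) :
    ∑ y, ((am (extG G t0 t1 l) (Sum.inr none) y : ℤ) : R) * f y =
      f (W t0 t1 l false 1) + f (W t0 t1 l true 1) := by
  refine sum_two _ _ _ _ f ?_ (adj_none G t0 t1 l)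
  rw [W_succ t0 t1 l false 0 (by omega), W_succ t0 t1 l true 0 (by omega)]
  simp

theorem sum_path (G : SimpleGraph V) (t0 t1 : V) (l : ℕ) (c : Bool) (j : ℕ) (hj : j < l + 2)
    (hl : j ≠ l) (f : V ⊕ St l → R) :
    ∑ y, ((am (extG G t0 t1 l) (W t0 t1 l c (j + 1)) y : ℤ) : R) * f y =
      f (W t0 t1 l c j) + f (W t0 t1 l c (j + 2)) := by
  refine sum_two _ _ _ _ f (W_ne _ _ _ _ _ _ _ (by omega) (by omega) (by omega)) fun y => ?_
  rw [adj_path G t0 t1 l c j hj]
  simp [hl]

theorem sum_rung (G : SimpleGraph V) (t0 t1 : V) (l : ℕ) (c : Bool) (f : V ⊕ St l → R) :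
    ∑ y, ((am (extG G t0 t1 l) (W t0 t1 l c (l + 1)) y : ℤ) : R) * f y =
      f (W t0 t1 l c l) + f (W t0 t1 l c (l + 2)) + f (W t0 t1 l (!c) (l + 1)) := by
  refine sum_three _ _ _ _ _ f (W_ne _ _ _ _ _ _ _ (by omega) (by omega) (by omega))
    (W_ne _ _ _ _ _ _ _ (by omega) (by omega) (by omega))
    (W_ne _ _ _ _ _ _ _ (by omega) (by omega) (by omega)) fun y => ?_
  rw [adj_path G t0 t1 l c l (by omega)]
  simp

theorem sum_inl (G : SimpleGraph V) (t0 t1 : V) (l : ℕ) (v : V) (f : V ⊕ St l → R) :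
    ∑ y, ((am (extG G t0 t1 l) (Sum.inl v) y : ℤ) : R) * f y =
      ∑ y, ((am G v y : ℤ) : R) * f (Sum.inl y) +
        ((if v = t0 then f (W t0 t1 l false (l + 2)) else 0) +
          if v = t1 then f (W t0 t1 l true (l + 2)) else 0) := by
  classical
  rw [sum_am, sum_am, Fintype.sum_sum_type, W_succ t0 t1 l false (l + 1) (by omega),
    W_succ t0 t1 l true (l + 1) (by omega)]
  congr 1
  · refine Finset.sum_congr rfl fun y _ => ?_
    simp only [Main.ext_adj]
  · simp only [adj_inl_inr]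
    have key : ∀ s : St l, (if (v = t0 ∧ s = some (⟨l + 1, by omega⟩, false)) ∨
        (v = t1 ∧ s = some (⟨l + 1, by omega⟩, true)) then f (Sum.inr s) else 0) =
        (if s = some (⟨l + 1, by omega⟩, false) then (if v = t0 then f (Sum.inr s) else 0)
          else 0) +
        (if s = some (⟨l + 1, by omega⟩, true) then (if v = t1 then f (Sum.inr s) else 0)
          else 0) := by
      intro s
      by_cases h0 : s = some (⟨l + 1, by omega⟩, false)
      · subst h0
        simp
      · by_cases h1 : s = some (⟨l + 1, by omega⟩, true)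
        · subst h1
          simp
        · simp [h0, h1]
    rw [Finset.sum_congr rfl fun s _ => by convert key s, Finset.sum_add_distrib]
    simp

section Roots

variable {m : ℕ} (t : Fin (m + 2) → V) (l : ℕ)

theorem extT_zero : extT t l 0 = Sum.inr none := by
  simp [extT]

theorem extT_ne (i : Fin (m + 1)) (hi : i ≠ 0) : extT t l i = Sum.inl (t i.succ) := by
  simp [extT, hi]

theorem succ_ne_one (i : Fin (m + 1)) (hi : i ≠ 0) : i.succ ≠ (1 : Fin (m + 2)) := by
  intro e
  apply hi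
  rw [← Fin.succ_zero_eq_one] at e
  exact Fin.succ_injective _ e

theorem path_ne_root (c : Bool) (j : ℕ) (hj : j < l + 2) (i : Fin (m + 1)) :
    W (t 0) (t 1) l c (j + 1) ≠ extT t l i := by
  rw [W_succ _ _ _ _ _ hj]
  by_cases hi : i = 0
  · rw [hi, extT_zero]
    simp
  · rw [extT_ne t l i hi]
    simp

theorem inl_ne_root (v : V) (hv : ∀ i : Fin (m + 1), i ≠ 0 → v ≠ t i.succ) (i : Fin (m + 1)) :
    Sum.inl v ≠ extT t l i := by
  by_cases hi : i = 0
  · rw [hi, extT_zero]
    simp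
  · rw [extT_ne t l i hi]
    simpa using hv i hi

theorem old_ne_root (ht : Function.Injective t) (c : Bool) (i : Fin (m + 1)) :
    Sum.inl (if c then t 1 else t 0) ≠ extT t l i := by
  refine inl_ne_root t l _ (fun i hi => ?_) i
  cases c
  · exact fun e => Fin.succ_ne_zero i (ht e).symm
  · exact fun e => succ_ne_one i hi (ht e).symm

theorem zero_ne_one' (ht : Function.Injective t) : t 0 ≠ t 1 :=
  fun e => zero_ne_one (ht e)

theorem sum_old (G : SimpleGraph V) (ht : Function.Injective t) (c : Bool) (f : V ⊕ St l → R) :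
    ∑ y, ((am (extG G (t 0) (t 1) l) (Sum.inl (if c then t 1 else t 0)) y : ℤ) : R) * f y =
      ∑ y, ((am G (if c then t 1 else t 0) y : ℤ) : R) * f (Sum.inl y) +
        f (W (t 0) (t 1) l c (l + 2)) := by
  have h := zero_ne_one' t ht
  rw [sum_inl]
  cases c
  · simp [h]
  · simp [h.symm]

theorem sum_far (G : SimpleGraph V) (v : V) (h0 : v ≠ t 0) (h1 : v ≠ t 1) (f : V ⊕ St l → R) :
    ∑ y, ((am (extG G (t 0) (t 1) l) (Sum.inl v) y : ℤ) : R) * f y =
      ∑ y, ((am G v y : ℤ) : R) * f (Sum.inl y) := by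
  rw [sum_inl, if_neg h0, if_neg h1]
  simp

theorem root_cases (i : Fin (m + 2)) :
    (∃ c : Bool, t i = if c then t 1 else t 0) ∨ ∃ j : Fin (m + 1), j ≠ 0 ∧ i = j.succ := by
  rcases Fin.eq_zero_or_eq_succ i with rfl | ⟨j, rfl⟩
  · exact Or.inl ⟨false, rfl⟩
  · by_cases hj : j = 0
    · subst hj
      exact Or.inl ⟨true, rfl⟩
    · exact Or.inr ⟨j, hj, rfl⟩

/-- A sequence with three-term relation is periodic. -/
theorem period (a : ℕ → R) (l : ℕ) (h : ∀ j, j < l → a (j + 1) + (a j + a (j + 2)) = 0) :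
    ∀ k, 3 * k ≤ l → a (3 * k + 1) = a 1 := by
  intro k
  induction k with
  | zero => exact fun _ => rfl
  | succ k ih =>
    intro hk
    have h1 := h (3 * k + 1) (by omega)
    have h2 := h (3 * k + 2) (by omega)
    have h3 := ih (by omega)
    rw [show 3 * (k + 1) + 1 = 3 * k + 2 + 2 by ring]
    rw [show 3 * k + 1 + 1 = 3 * k + 2 by ring, show 3 * k + 1 + 2 = 3 * k + 2 + 1 by ring] at h1
    linear_combination h2 - h1 + h3

theorem vanish (a : ℕ → R) (l : ℕ) (h : ∀ j, j < l → a (j + 1) + (a j + a (j + 2)) = 0)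
    (h0 : a 0 = 0) (h1 : a 1 = 0) : ∀ j, j ≤ l → a j = 0 ∧ a (j + 1) = 0 := by
  intro j
  induction j with
  | zero => exact fun _ => ⟨h0, h1⟩
  | succ j ih =>
    intro hj
    obtain ⟨e0, e1⟩ := ih (by omega)
    refine ⟨e1, ?_⟩
    have h2 := h j (by omega)
    linear_combination h2 - e0 - e1

theorem ker_ext (G : SimpleGraph V) (hl : l % 3 = 0) (ht : Function.Injective t)
    (hk : KerT G t) : KerT (extG G (t 0) (t 1) l) (extT t l) := by
  intro p hp f hf
  obtain ⟨k1, k2⟩ := hk p hp (fun y => f (Sum.inl y)) fun x hx => by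
    have h := hf (Sum.inl x) (inl_ne_root t l x fun i _ => hx i.succ)
    rwa [sum_far t l G x (hx 0) (hx 1)] at h
  have hold : ∀ c : Bool,
      f (Sum.inl (if c then t 1 else t 0)) + f (W (t 0) (t 1) l c (l + 2)) = 0 := by
    intro c
    have h := hf _ (old_ne_root t l ht c)
    rw [sum_old t l G ht c] at h
    have h' : ∑ y, ((am G (if c then t 1 else t 0) y : ℤ) : ZMod p) * f (Sum.inl y) = 0 := by
      cases c
      · exact k1 0
      · exact k1 1
    rwa [h', zero_add] at h
  have hrung : ∀ c : Bool, f (W (t 0) (t 1) l c (l + 1)) = 0 := by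
    intro c
    have h := hf _ (path_ne_root t l c (l + 1) (by omega))
    rw [sum_path G _ _ l c (l + 1) (by omega) (by omega), W_top] at h
    linear_combination h - hold c
  have hrec : ∀ (c : Bool) (j : ℕ), j < l → f (W (t 0) (t 1) l c (j + 1)) +
      (f (W (t 0) (t 1) l c j) + f (W (t 0) (t 1) l c (j + 2))) = 0 := by
    intro c j hj
    have h := hf _ (path_ne_root t l c j (by omega))
    rwa [sum_path G _ _ l c j (by omega) (by omega)] at h
  have hone : ∀ c : Bool, f (W (t 0) (t 1) l c 1) = 0 := by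
    intro c
    have h := period (fun j => f (W (t 0) (t 1) l c j)) l (hrec c) (l / 3) (by omega)
    rw [← h, show 3 * (l / 3) = l by omega]
    exact hrung c
  refine ⟨fun i => ?_, fun h0 => ?_⟩
  · by_cases hi : i = 0
    · rw [hi, extT_zero, sum_none, hone, hone, add_zero]
    · rw [extT_ne t l i hi, sum_far t l G _ (fun e => Fin.succ_ne_zero i (ht e))
        fun e => succ_ne_one i hi (ht e)]
      exact k1 i.succ
  · have hρ : f (Sum.inr none) = 0 := by
      rw [← extT_zero t l]
      exact h0 0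
    have hv : ∀ (c : Bool) (j : ℕ), j ≤ l → f (W (t 0) (t 1) l c j) = 0 := fun c j hj =>
      (vanish (fun j => f (W (t 0) (t 1) l c j)) l (hrec c) (by rw [W_zero]; exact hρ) (hone c)
        j hj).1
    have hlast : ∀ c : Bool, f (W (t 0) (t 1) l c (l + 2)) = 0 := by
      intro c
      have h := hf _ (path_ne_root t l c l (by omega))
      rw [sum_rung, hrung, hrung, hv c l le_rfl] at h
      simpa using h
    have hin := k2 fun i => by
      rcases root_cases t i with ⟨c, hc⟩ | ⟨j, hj, rfl⟩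
      · have h := hold c
        rw [hlast, add_zero] at h
        simpa only [hc] using h
      · have h := h0 j
        rwa [extT_ne t l j hj] at h
    rintro (x | _ | ⟨⟨j, hj⟩, c⟩)
    · exact hin x
    · exact hρ
    · rw [← W_succ (t 0) (t 1) l c j hj]
      by_cases e1 : j + 1 ≤ l
      · exact hv c _ e1
      · by_cases e2 : j = l
        · rw [e2]
          exact hrung c
        · rw [show j + 1 = l + 2 by omega]
          exact hlast c

theorem reach_W (G : SimpleGraph V) (t0 t1 : V) (c : Bool) :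
    ∀ j, j ≤ l + 3 → (extG G t0 t1 l).Reachable (Sum.inr none) (W t0 t1 l c j) := by
  intro j
  induction j with
  | zero => exact fun _ => by rw [W_zero]
  | succ j ih =>
    intro hj
    refine (ih (by omega)).trans (SimpleGraph.Adj.reachable ?_)
    rcases j with _ | j
    · rw [W_zero, adj_none]
      cases c <;> simp
    · rw [adj_path G t0 t1 l c j (by omega)]
      exact Or.inr (Or.inl rfl)

theorem reach_inl (G : SimpleGraph V) (t0 t1 : V) {x y : V} (h : G.Reachable x y) :
    (extG G t0 t1 l).Reachable (Sum.inl x) (Sum.inl y) :=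
  h.map (⟨Sum.inl, fun h => (Main.ext_adj G t0 t1 l _ _).2 h⟩ : G →g extG G t0 t1 l)

end Roots

end ExtBAux

open ExtBAux in
theorem pExtPre : StExtPre := by
  intro V _ _ m G t l hl hP
  have ht := hP.inj
  refine ⟨?_, ker_ext t l G hl ht hP.ker, ?_, ?_, ?_, ?_⟩
  · intro i j hij
    by_cases hi : i = 0 <;> by_cases hj : j = 0
    · rw [hi, hj]
    · rw [hi, extT_zero, extT_ne t l j hj] at hij
      simp at hij
    · rw [hj, extT_zero, extT_ne t l i hi] at hij
      simp at hij
    · rw [extT_ne t l i hi, extT_ne t l j hj] at hij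
      exact Fin.succ_injective _ (ht (Sum.inl_injective hij))
  · rintro (x | _ | ⟨⟨j, hj⟩, c⟩)
    · obtain ⟨i, hi⟩ := hP.reach x
      have hi' := reach_inl l G (t 0) (t 1) hi
      rcases root_cases t i with ⟨c, hc⟩ | ⟨j, hj, rfl⟩
      · refine ⟨0, ?_⟩
        have h := reach_W l G (t 0) (t 1) c (l + 3) le_rfl
        rw [W_top, ← hc] at h
        rw [extT_zero]
        exact h.trans hi'
      · exact ⟨j, by rwa [extT_ne t l j hj]⟩
    · exact ⟨0, by rw [extT_zero]⟩
    · refine ⟨0, ?_⟩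
      rw [extT_zero, ← W_succ (t 0) (t 1) l c j hj]
      exact reach_W l G (t 0) (t 1) c (j + 1) (by omega)
  · rintro (x | _ | ⟨⟨j, hj⟩, c⟩) hx
    · by_cases hr : ∀ i, x ≠ t i
      · obtain ⟨y, z, hyz, hy, hz⟩ := hP.two x hr
        exact ⟨Sum.inl y, Sum.inl z, fun e => hyz (Sum.inl_injective e),
          (Main.ext_adj G _ _ l _ _).2 hy, (Main.ext_adj G _ _ l _ _).2 hz⟩
      · push Not at hr
        obtain ⟨i, rfl⟩ := hr
        have hd : ∑ y, am G (t i) y ≠ 0 := by
          by_cases hi : i = 0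
          · rw [hi, hP.deg0]
            norm_num
          · rw [hP.deg1 i hi]
            norm_num
        obtain ⟨y, hy⟩ := exists_adj G _ hd
        rcases root_cases t i with ⟨c, hc⟩ | ⟨j, hj, rfl⟩
        · refine ⟨Sum.inl y, Sum.inr (some (⟨l + 1, by omega⟩, c)), by simp,
            (Main.ext_adj G _ _ l _ _).2 hy, ?_⟩
          rw [adj_inl_inr, hc]
          cases c <;> simp
        · exact absurd (extT_ne t l j hj).symm (hx j)
    · exact absurd (extT_zero t l).symm (hx 0)
    · refine ⟨W (t 0) (t 1) l c j, W (t 0) (t 1) l c (j + 2),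
        W_ne _ _ _ _ _ _ _ (by omega) (by omega) (by omega), ?_, ?_⟩
      · rw [← W_succ (t 0) (t 1) l c j hj, adj_path G _ _ l c j hj]
        exact Or.inl rfl
      · rw [← W_succ (t 0) (t 1) l c j hj, adj_path G _ _ l c j hj]
        exact Or.inr (Or.inl rfl)
  · have h := sum_none (R := ℤ) G (t 0) (t 1) l fun _ => 1
    rw [extT_zero]
    simpa using h
  · intro i hi
    have h := sum_far (R := ℤ) t l G (t i.succ) (fun e => Fin.succ_ne_zero i (ht e))
      (fun e => succ_ne_one i hi (ht e)) fun _ => 1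
    have h1 := hP.deg1 i.succ (Fin.succ_ne_zero i)
    rw [extT_ne t l i hi, ← h1]
    simpa using h

end Pool.Agent.P.MP_f57657_co.SY
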