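import Pool.Agent.P.MP_f57657_co.SY.Main
import Pool.Agent.P.MP_f57657_co.SX.Main
import Pool.Agent.P.MP_f57657_co.SX.Force
import Pool.Agent.P.MP_f57657_co.SX.Rel
import Pool.Agent.P.MP_f57657_co.SX.Two
import Pool.Agent.P.MP_f57657_co.SX.Glue

/-! Rigidity passes through the extension. -/

open Matrix Finset

set_option linter.unusedSectionVars false

namespace Pool.Agent.P.MP_f57657_co.SY

open SX

namespace ExtRigidAux

variable {V : Type} [Fintype V] [DecidableEq V]

theorem dd_sub (A : Matrix V V ℤ) (π : Equiv.Perm V) : dd (A.submatrix π π) = dd A := by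
  unfold dd
  rw [← Matrix.det_submatrix_equiv_self π
    (1 - (PowerSeries.X : PowerSeries ℤ) • A.map (PowerSeries.C : ℤ → PowerSeries ℤ))]
  congr 1
  ext x y : 2
  simp [Matrix.one_apply]

theorem up_zero (lay : V → ℕ) (A : Matrix V V ℤ) : up lay 0 A = A := by
  ext x y
  simp [up]

theorem up_sub {lay : V → ℕ} (H : SimpleGraph V) {k : ℕ} {π : Equiv.Perm V}
    (hπ : ∀ x, k ≤ lay (π x) ↔ k ≤ lay x) :
    up lay k (am (H.comap π)) = (up lay k (am H)).submatrix π π := by
  ext x y
  simp [up, SX.Main.am_comap, hπ]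

theorem pow_comap (H : SimpleGraph V) (π : Equiv.Perm V) (k : ℕ) (x y : V) :
    (am (H.comap π) ^ k) x y = (am H ^ k) (π x) (π y) := by
  have := SX.Main.up_comap (lay := fun _ => 0) H (k := 0) (π := π) (fun _ => Iff.rfl) k x y
  rwa [up_zero, up_zero] at this

/-- A relabelled copy of the marked graph `(H0, s0)` with the data of `(G, t)`. -/
def Tr {T : Type} (G : SimpleGraph V) (t : T → V) (H0 : SimpleGraph V) (s0 : T → V)
    (H : SimpleGraph V) (s : T → V) : Prop :=
  (∃ e : H ≃g H0, ∀ i, e (s i) = s0 i) ∧ dd (am H) = dd (am G) ∧ Mom (am G) (am H) t s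

theorem tr_comap {T : Type} {G H0 H : SimpleGraph V} {t s0 s : T → V} (h : Tr G t H0 s0 H s)
    (π : Equiv.Perm V) : Tr G t H0 s0 (H.comap π) fun i => π.symm (s i) := by
  obtain ⟨⟨e, he⟩, h1, h2⟩ := h
  refine ⟨⟨RelIso.trans (⟨π, ?_⟩ : H.comap π ≃g H) e, fun i => ?_⟩, ?_, fun k i j => ?_⟩
  · intro a b
    simp [SimpleGraph.comap_adj]
  · change e (π (π.symm (s i))) = s0 i
    rw [Equiv.apply_symm_apply, he]
  · rw [SX.Main.am_comap, dd_sub, h1]
  · rw [pow_comap, Equiv.apply_symm_apply, Equiv.apply_symm_apply]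
    exact h2 k i j

theorem symm_fix {π : Equiv.Perm V} {x : V} (h : π x = x) : π.symm x = x := by
  rw [Equiv.symm_apply_eq, h]

theorem pow_nonneg' (A : Matrix V V ℤ) (h : ∀ x y, 0 ≤ A x y) (k : ℕ) :
    ∀ x y, 0 ≤ (A ^ k) x y := by
  induction k with
  | zero =>
    intro x y
    rw [pow_zero, Matrix.one_apply]
    split_ifs <;> simp
  | succ k ih =>
    intro x y
    rw [pow_succ, Matrix.mul_apply]
    exact Finset.sum_nonneg fun z _ => mul_nonneg (ih x z) (h z y)

theorem pow_far {lay : V → ℕ} {G : SimpleGraph V} (hL : Layered lay G) (x : V) (k : ℕ) :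
    ∀ y, lay x + k < lay y → (am G ^ k) x y = 0 := by
  induction k with
  | zero =>
    intro y hy
    rw [pow_zero, Matrix.one_apply_ne]
    rintro rfl
    omega
  | succ k ih =>
    intro y hy
    rw [pow_succ, Matrix.mul_apply]
    refine Finset.sum_eq_zero fun z _ => ?_
    by_cases h : G.Adj z y
    · have := hL z y h
      rw [ih z (by omega), zero_mul]
    · simp [am, h]

theorem pow_near {lay : V → ℕ} {G H : SimpleGraph V} {l : ℕ} {ρ : V}
    (hρ : ∀ x, lay x = 0 → x = ρ) (hP : ∀ k, k < l → HasParent lay G k) (ha : Ag1 lay G H l) :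
    ∀ k, k ≤ l → ∀ y, lay y = k → 0 < (am H ^ k) ρ y := by
  intro k
  induction k with
  | zero =>
    intro _ y hy
    rw [hρ y hy]
    simp
  | succ k ih =>
    intro hk y hy
    obtain ⟨x, hx, hxy⟩ := hP k (by omega) y hy
    have h1 : H.Adj x y := (ha x y (by omega)).2 hxy
    rw [pow_succ, Matrix.mul_apply]
    refine Finset.sum_pos' (fun z _ => mul_nonneg
      (pow_nonneg' _ (Main.am_nonneg H) k ρ z) (Main.am_nonneg H z y)) ⟨x, Finset.mem_univ _, ?_⟩
    have h2 : am H x y = 1 := by simp [am, h1]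
    rw [h2, mul_one]
    exact ih (by omega) x hx

theorem paths_phase {T : Type} {lay : V → ℕ} {G H0 : SimpleGraph V} {l : ℕ} {ρ : V}
    {a b : ℕ → V} {t s0 : T → V} (i0 : T) (ht : t i0 = ρ) (Q : Paths lay G 0 l ρ a b)
    (hP : ∀ k, k < l → HasParent lay G k) (len : (Uk lay l).card + 0 + 6 ≤ l)
    (hd : dd (am H0) = dd (am G)) (hm : Mom (am G) (am H0) t s0) :
    ∃ H s, Tr G t H0 s0 H s ∧ s i0 = ρ ∧ Ag2 lay G H l ∧
      Mom2 lay G H l (a l) (b l) (a l) (b l) := by
  have mom1 : ∀ H s, Tr G t H0 s0 H s → s i0 = ρ → Mom1 lay G H 0 ρ := fun H s h hs j => by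
    rw [up_zero, up_zero]
    have := h.2.2 j i0 i0
    rwa [hs, ht] at this
  have step : ∀ i, i ≤ l → ∃ H s, Tr G t H0 s0 H s ∧ s i0 = ρ ∧ Ag2 lay G H i := by
    intro i
    induction i with
    | zero =>
      intro _
      have h0 : Tr G t H0 s0 H0 s0 := ⟨⟨RelIso.refl _, fun _ => rfl⟩, hd, hm⟩
      refine ⟨_, _, tr_comap h0 (Equiv.swap ρ (s0 i0)), by simp, fun x y hx => by omega, ?_⟩
      intro x y hx hy
      rw [Q.rho_uniq x hx, Q.rho_uniq y hy]
      simp
    | succ i ih =>
      intro hi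
      obtain ⟨H, s, hg, hs, ha⟩ := ih (by omega)
      obtain ⟨π, hπ, h1⟩ := pRel V lay G H i Q.layered ha
        (SX.Main.onePair_paths Q (by omega) (by omega)) fun x x' hx hx' =>
          (pForce V lay G H 0 l ρ a b i Q (by omega) (by omega) ha (mom1 H s hg hs) x x' hx hx').1
      have hg' := tr_comap hg π
      have hs' : π.symm (s i0) = ρ := by
        rw [hs]
        exact symm_fix (hπ ρ (by rw [Q.rho_lay]; omega))
      exact ⟨_, _, hg', hs', pEdge V lay G _ i Q.layered h1
        (SX.Main.seen_paths Q (by omega) (by omega) (hP i (by omega))) (hP i (by omega))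
        fun x x' hx hx' => (pForce V lay G _ 0 l ρ a b i Q (by omega) (by omega)
          (SX.Main.ag2_of_ag1 h1) (mom1 _ _ hg' hs') x x' hx hx').2⟩
  obtain ⟨H, s, hg, hs, ha⟩ := step l le_rfl
  rcases pTwo pGlue pBasic pSep V lay G H 0 l ρ a b Q ha.1
    (by rw [up_zero, up_zero]; exact hg.2.1) (mom1 H s hg hs) len with h | h
  · exact ⟨H, s, hg, hs, ha, h⟩
  · obtain ⟨π, hl, e1, e2, ha'⟩ := SX.Main.swap_paths Q ha
    refine ⟨_, _, tr_comap hg π, ?_, ha', fun j => ?_⟩
    · simp only [hs]
      exact symm_fix (Q.rho_uniq _ (by rw [hl, Q.rho_lay]))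
    · have hπ : ∀ x, l ≤ lay (π x) ↔ l ≤ lay x := fun x => by rw [hl]
      rw [SX.Main.up_comap H hπ, SX.Main.up_comap H hπ, SX.Main.up_comap H hπ, e1, e2]
      exact h j

theorem row_eq {A B : Matrix V V ℤ} (hA : A.IsSymm) (hB : B.IsSymm) (Q : Finset V) (x : V)
    (h1 : ∀ y ∈ Q, B x y = A x y) (h2 : ∀ y, y ∉ Q → A x y = 0)
    (h3 : (B ^ 2) x x = (A ^ 2) x x) (y : V) : B x y = A x y := by
  by_cases hy : y ∈ Q
  · exact h1 y hy
  rw [pow_two, pow_two, Matrix.mul_apply, Matrix.mul_apply] at h3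
  have e : ∑ z, (B x z * B x z - A x z * A x z) = 0 := by
    rw [Finset.sum_sub_distrib, sub_eq_zero]
    calc ∑ z, B x z * B x z = ∑ z, B x z * B z x :=
          Finset.sum_congr rfl fun z _ => by rw [hB.apply x z]
      _ = ∑ z, A x z * A z x := h3
      _ = _ := Finset.sum_congr rfl fun z _ => by rw [hA.apply x z]
  have e2 := (Finset.sum_eq_zero_iff_of_nonneg (fun z _ => by
    by_cases hz : z ∈ Q
    · rw [h1 z hz]
      simp
    · rw [h2 z hz]
      simpa using mul_self_nonneg (B x z))).1 e y (Finset.mem_univ y)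
  rw [h2 y hy] at e2 ⊢
  simpa using e2

theorem up_symm' (lay : V → ℕ) (K : SimpleGraph V) (j : ℕ) : (up lay j (am K)).IsSymm := by
  ext x y
  simp only [up, Matrix.transpose_apply, Matrix.of_apply, (Main.am_symm K).apply x y]
  by_cases h1 : j ≤ lay x <;> by_cases h2 : j ≤ lay y <;> simp [h1, h2]

theorem up_nonneg (lay : V → ℕ) (K : SimpleGraph V) (j : ℕ) (x y : V) :
    0 ≤ up lay j (am K) x y := by
  simp only [up, Matrix.of_apply]
  split_ifs
  · exact Main.am_nonneg K x y
  · exact le_rfl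

theorem adj_of_am {G H : SimpleGraph V} {x y x' y' : V} (h : am H x y = am G x' y') :
    H.Adj x y ↔ G.Adj x' y' := by
  simp only [am, Matrix.of_apply] at h
  by_cases e1 : H.Adj x y <;> by_cases e2 : G.Adj x' y' <;> simp_all

theorem gen_mem {T : Type} (A : Matrix V V ℤ) (t : T → V) (i : T) :
    Pi.single (t i) (1 : ℤ) ∈ kry A t := by
  refine Submodule.subset_span ⟨0, i, ?_⟩
  funext x
  simp [Matrix.one_apply, Pi.single_apply]

theorem kry_mono {T T' : Type} (A : Matrix V V ℤ) (t : T → V) (t' : T' → V)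
    (h : ∀ i, ∃ j, t i = t' j) : kry A t ≤ kry A t' := by
  refine Submodule.span_mono ?_
  rintro g ⟨k, i, rfl⟩
  obtain ⟨j, hj⟩ := h i
  exact ⟨k, j, by rw [hj]⟩

theorem mom_inj {T : Type} {A B : Matrix V V ℤ} {t s : T → V} (h : Mom A B t s) (i j : T) :
    s i = s j ↔ t i = t j := by
  have h0 := h 0 i j
  simp only [pow_zero, Matrix.one_apply] at h0
  by_cases e1 : s i = s j <;> by_cases e2 : t i = t j <;> simp_all

/-! Concrete facts about the extension. -/

theorem lay_P (l : ℕ) (c : Bool) (j : ℕ) (h1 : 1 ≤ j) (h2 : j ≤ l + 2) :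
    extLay l (extP l c j : V ⊕ St l) = j := by
  simp only [extP, h1, h2, and_self, dif_pos, extLay]
  omega

theorem eq_P (l : ℕ) (x : V ⊕ St l) (h1 : 1 ≤ extLay l x) (h2 : extLay l x ≤ l + 2) :
    ∃ c, x = extP l c (extLay l x) := by
  rcases x with x | _ | ⟨i, c⟩
  · simp [extLay] at h2
  · simp [extLay] at h1
  · refine ⟨c, ?_⟩
    have := i.2
    simp only [extP, extLay]
    rw [dif_pos ⟨by omega, by omega⟩]
    simp

theorem P_inj (l : ℕ) {c c' : Bool} {j j' : ℕ} (h1 : 1 ≤ j) (h2 : j ≤ l + 2) (h1' : 1 ≤ j')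
    (h2' : j' ≤ l + 2) (h : (extP l c j : V ⊕ St l) = extP l c' j') : c = c' ∧ j = j' := by
  simp only [extP, h1, h2, h1', h2', and_self, dif_pos, Sum.inr.injEq, Option.some.injEq,
    Prod.mk.injEq, Fin.mk.injEq] at h
  exact ⟨h.2, by omega⟩

theorem adj_inr_inl (G : SimpleGraph V) (t0 t1 : V) (l : ℕ) (q : St l) (y : V) :
    (extG G t0 t1 l).Adj (Sum.inr q) (Sum.inl y) ↔
      ∃ i c, q = some (i, c) ∧ i.val = l + 1 ∧ y = if c then t1 else t0 := by
  rcases q with _ | ⟨i, c⟩
  · simp [extG, SimpleGraph.fromRel_adj, extRel]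
  · simp only [extG, SimpleGraph.fromRel_adj, extRel]
    constructor
    · rintro ⟨_, h | h⟩
      · exact ⟨i, c, rfl, h.1, h.2⟩
      · exact h.elim
    · rintro ⟨i', c', h, h1, h2⟩
      simp only [Option.some.injEq, Prod.mk.injEq] at h
      obtain ⟨rfl, rfl⟩ := h
      exact ⟨by simp, Or.inl ⟨h1, h2⟩⟩

theorem adj_P (G : SimpleGraph V) (t0 t1 : V) (l : ℕ) (c : Bool) (j : ℕ) (h1 : 1 ≤ j)
    (h2 : j + 1 ≤ l + 2) : (extG G t0 t1 l).Adj (extP l c j) (extP l c (j + 1)) := by
  have h3 : j ≤ l + 2 := by omega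
  have h4 : 1 ≤ j + 1 := by omega
  simp only [extG, SimpleGraph.fromRel_adj, extP, h1, h2, h3, h4, and_self, dif_pos, extRel]
  refine ⟨by simp; omega, Or.inl (Or.inl ⟨trivial, by simp; omega⟩)⟩

theorem adj_P_end (G : SimpleGraph V) (t0 t1 : V) (l : ℕ) (c : Bool) :
    (extG G t0 t1 l).Adj (extP l c (l + 2)) (Sum.inl (if c then t1 else t0)) := by
  have h : (extP l c (l + 2) : V ⊕ St l) = Sum.inr (some (⟨l + 1, by omega⟩, c)) := by
    simp [extP]
  rw [h, adj_inr_inl]
  exact ⟨_, _, rfl, rfl, rfl⟩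

end ExtRigidAux

open ExtRigidAux in
theorem pExtRigid (hK : StKry) (hMod : StMod) (hRe : StRestr) (hMore : StMore)
    (hEP : StExtPaths) : StExtRigid := by
  intro V _ _ m G t l hl hpre hrig H0 s0 hd hm
  have ht01 : t 0 ≠ t 1 := fun h => by simpa using hpre.inj h
  obtain ⟨Q, hP, hU, hkry, hasym⟩ := hEP V G (t 0) (t 1) l (by omega) ht01
  set Gx := extG G (t 0) (t 1) l with hGx
  set lay : V ⊕ St l → ℕ := extLay l with hlay
  have hlen : (Uk lay l).card + 0 + 6 ≤ l := by omega
  have tt0 : extT t l 0 = Sum.inr none := by simp [extT]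
  have ttS : ∀ j : Fin m, extT t l j.succ = Sum.inl (t j.succ.succ) := fun j => by
    simp [extT, Fin.succ_ne_zero]
  obtain ⟨H, s, hg, hs, ha, hm2⟩ := paths_phase (0 : Fin (m + 1)) tt0 Q hP hlen hd hm
  have hsl : ∀ j : Fin m, l ≤ lay (s j.succ) := fun j => by
    by_contra hlt
    have h1 := pow_near Q.rho_uniq hP ha.1 (lay (s j.succ)) (by omega) _ rfl
    have h2 := hg.2.2 (lay (s j.succ)) 0 j.succ
    rw [hs, tt0, ttS, pow_far Q.layered _ _ _ (by
      change 0 + _ < l + 3
      omega)] at h2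
    omega
  obtain ⟨hdl, hml⟩ := hMore _ lay Gx H 0 l (Sum.inr none) (extP l false) (extP l true) (Fin m)
    (fun j => Sum.inl (t j.succ.succ)) (fun j => s j.succ) Q ha.1
    (fun j => by change l ≤ l + 3; omega) hsl (by rw [up_zero, up_zero]; exact hg.2.1)
    (by
      rw [up_zero, up_zero]
      intro k i j
      rcases i with _ | i <;> rcases j with _ | j <;> simp only [Option.elim]
      · have := hg.2.2 k 0 0
        rwa [hs, tt0] at this
      · have := hg.2.2 k 0 j.succ
        rwa [hs, tt0, ttS] at this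
      · have := hg.2.2 k i.succ 0
        rwa [hs, tt0, ttS] at this
      · have := hg.2.2 k i.succ j.succ
        rwa [ttS, ttS] at this)
    hm2 (hasym (by
      rw [hpre.deg0, hpre.deg1 1 (by simp)]
      decide)) hlen
  -- the family of identified vertices
  let gv : (Bool × Fin 3) ⊕ Fin (m + 2) → V ⊕ St l :=
    Sum.elim (fun q => extP l q.1 (l + q.2.val)) fun i => Sum.inl (t i)
  have hl1 : 1 ≤ l := by omega
  have layg1 : ∀ q : Bool × Fin 3, lay (gv (Sum.inl q)) = l + q.2.val := fun q =>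
    lay_P l q.1 _ (by omega) (by have := q.2.2; omega)
  have layg2 : ∀ i, lay (gv (Sum.inr i)) = l + 3 := fun _ => rfl
  have layg : ∀ j, l ≤ lay (gv j) := fun j => by
    rcases j with q | i
    · rw [layg1]; omega
    · rw [layg2]; omega
  have ginj : Function.Injective gv := by
    intro j j' h
    rcases j with q | i <;> rcases j' with q' | i'
    · have := P_inj (V := V) l (c := q.1) (c' := q'.1) (j := l + q.2.val) (j' := l + q'.2.val)
        (by omega) (by have := q.2.2; omega) (by omega) (by have := q'.2.2; omega) h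
      exact congrArg Sum.inl (Prod.ext this.1 (Fin.ext (by omega)))
    · have h1 := layg1 q
      rw [h, layg2] at h1
      have := q.2.2
      omega
    · have h1 := layg1 q'
      rw [← h, layg2] at h1
      have := q'.2.2
      omega
    · exact congrArg Sum.inr (hpre.inj (Sum.inl_injective h))
  have hab : ∀ c : Bool, (if c then extP l true l else extP l false l : V ⊕ St l) = extP l c l :=
    fun c => by cases c <;> rfl
  obtain ⟨w, hw⟩ := hK _ _ _ _ _ _ _ gv (up_symm' lay Gx l) (up_symm' lay H l)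
    (up_nonneg lay Gx l) (up_nonneg lay H l) hml (by
      have mono := kry_mono (up lay l (am Gx))
        (fun c : Bool => (if c then extP l true l else extP l false l : V ⊕ St l))
        (Sum.elim (fun c : Bool => (if c then extP l true l else extP l false l : V ⊕ St l))
          fun j : Fin m => Sum.inl (t j.succ.succ)) fun c => ⟨Sum.inl c, rfl⟩
      intro j
      rcases j with ⟨c, i⟩ | i
      · fin_cases i
        · have := gen_mem (up lay l (am Gx))
            (fun c : Bool => (if c then extP l true l else extP l false l : V ⊕ St l)) c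
          simp only [hab] at this mono ⊢
          exact mono this
        · exact mono (hkry c _ (Or.inl rfl))
        · exact mono (hkry c _ (Or.inr (Or.inl rfl)))
      · refine Fin.cases ?_ (fun i => Fin.cases ?_ (fun j => ?_) i) i
        · exact mono (hkry false _ (Or.inr (Or.inr rfl)))
        · exact mono (hkry true _ (Or.inr (Or.inr rfl)))
        · exact gen_mem _ _ (Sum.inr j))
  have hw' : Mom (up lay l (am Gx)) (up lay l (am H)) gv w := fun k i j =>
    hw k (Sum.inr i) (Sum.inr j)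
  have w0 : ∀ c, w (Sum.inl (c, 0)) = extP l c l := fun c => by
    have := (mom_inj hw (Sum.inr (Sum.inl (c, 0))) (Sum.inl (Sum.inl c))).2 (hab c).symm
    exact this.trans (hab c)
  have wS : ∀ j : Fin m, w (Sum.inr j.succ.succ) = s j.succ := fun j =>
    (mom_inj hw (Sum.inr (Sum.inr j.succ.succ)) (Sum.inl (Sum.inr j))).2 rfl
  have winj : Function.Injective w := fun i j h => ginj ((mom_inj hw' i j).1 h)
  have wadj : ∀ i j, Gx.Adj (gv i) (gv j) → l ≤ lay (w i) ∧ l ≤ lay (w j) := fun i j h => by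
    have h1 := hw' 1 i j
    simp only [pow_one, up, Matrix.of_apply, layg i, layg j, and_self, if_true] at h1
    by_contra hc
    rw [if_neg hc] at h1
    simp [am, h] at h1
  have layw : ∀ j, l ≤ lay (w j) := by
    intro j
    rcases j with ⟨c, i⟩ | i
    · fin_cases i
      · exact (wadj _ (Sum.inl (c, 1)) (adj_P G _ _ l c l hl1 (by omega))).1
      · exact (wadj (Sum.inl (c, 0)) _ (adj_P G _ _ l c l hl1 (by omega))).2
      · exact (wadj (Sum.inl (c, 1)) _ (adj_P G _ _ l c (l + 1) (by omega) (by omega))).2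
    · refine Fin.cases ?_ (fun i => Fin.cases ?_ (fun j => ?_) i) i
      · exact (wadj (Sum.inl (false, 2)) _ (adj_P_end G _ _ l false)).2
      · exact (wadj (Sum.inl (true, 2)) _ (adj_P_end G _ _ l true)).2
      · rw [wS]
        exact hsl j
  obtain ⟨π, hπ⟩ := Equiv.Perm.exists_extending_pair
    (f := Sum.elim (fun x : {x // lay x < l} => x.1) gv)
    (g := Sum.elim (fun x : {x // lay x < l} => x.1) w)
    (Subtype.val_injective.sumElim ginj fun x j h => by
      have h1 := x.2
      have h2 := layg j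
      rw [← h] at h2
      omega)
    (Subtype.val_injective.sumElim winj fun x j h => by
      have h1 := x.2
      have h2 := layw j
      rw [← h] at h2
      omega)
  have πg : ∀ j, π (gv j) = w j := fun j => hπ (Sum.inr j)
  have πfix : ∀ x, lay x ≤ l → π x = x := fun x hx => by
    rcases Nat.lt_or_ge (lay x) l with h | h
    · exact hπ (Sum.inl ⟨x, h⟩)
    · obtain ⟨c, hc⟩ := eq_P l x (by change 1 ≤ lay x; omega) (by change lay x ≤ l + 2; omega)
      have e : lay x = l := by omega
      change x = extP l c (lay x) at hc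
      rw [e] at hc
      rw [hc]
      exact (πg (Sum.inl (c, 0))).trans (w0 c)
  have πlay : ∀ x, l ≤ lay (π x) ↔ l ≤ lay x := fun x => by
    by_cases hx : lay x ≤ l
    · rw [πfix x hx]
    · have := SX.Main.lay_perm πfix (show l < lay x by omega)
      omega
  obtain ⟨K, hKdef⟩ : ∃ K, K = H.comap π := ⟨_, rfl⟩
  obtain ⟨⟨e1, he1⟩, -, -⟩ : Tr Gx (extT t l) H0 s0 K fun i => π.symm (s i) :=
    hKdef ▸ tr_comap hg π
  have hsK : ∀ i, π.symm (s i) = extT t l i := fun i => by
    refine Fin.cases ?_ (fun j => ?_) i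
    · rw [hs, tt0]
      exact symm_fix (πfix _ (Nat.zero_le _))
    · rw [ttS, Equiv.symm_apply_eq, ← wS]
      exact (πg (Sum.inr j.succ.succ)).symm
  have momK : Mom (up lay l (am Gx)) (up lay l (am K)) gv gv := fun k i j => by
    rw [hKdef, SX.Main.up_comap H πlay, πg, πg]
    exact hw' k i j
  have ddK : dd (up lay l (am K)) = dd (up lay l (am Gx)) := by
    rw [hKdef, up_sub H πlay, dd_sub, hdl]
  have ag1 : Ag1 lay Gx K l := fun x y hx => by
    rw [hKdef]
    change H.Adj (π x) (π y) ↔ _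
    rw [πfix x hx.le, ha.1 x _ hx]
    by_cases hy : lay y ≤ l
    · rw [πfix y hy]
    · have := SX.Main.lay_perm πfix (show l < lay y by omega)
      constructor
      · intro h
        have := Q.layered _ _ h
        omega
      · intro h
        have := Q.layered _ _ h
        omega
  let QQ : Finset (V ⊕ St l) := Finset.univ.image gv
  have memQ : ∀ x, l ≤ lay x → lay x ≤ l + 2 → ∃ j, gv j = x := fun x h1 h2 => by
    obtain ⟨c, hc⟩ := eq_P l x (by change 1 ≤ lay x; omega) h2
    refine ⟨Sum.inl (c, ⟨lay x - l, by omega⟩), ?_⟩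
    change extP l c (l + (lay x - l)) = x
    rw [show l + (lay x - l) = lay x by omega]
    exact hc.symm
  have nbQ : ∀ x y, lay x ≤ l + 2 → l ≤ lay y → Gx.Adj x y → ∃ j, gv j = y := by
    intro x y hx hy h
    by_cases h2 : lay y ≤ l + 2
    · exact memQ y hy h2
    · rcases x with x | q
      · change l + 3 ≤ l + 2 at hx
        omega
      · rcases y with y | _ | ⟨i, c⟩
        · obtain ⟨i, c, _, _, hy'⟩ := (adj_inr_inl G _ _ l q y).1 h
          cases c
          · exact ⟨Sum.inr 0, by rw [hy']; rfl⟩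
          · exact ⟨Sum.inr 1, by rw [hy']; rfl⟩
        · exact absurd (Nat.zero_le _) h2
        · have := i.2
          exact absurd (show i.val + 1 ≤ l + 2 by omega) h2
  have ag3 : Ag1 lay Gx K (l + 3) := by
    intro x y hx
    rcases Nat.lt_or_ge (lay x) l with h | h
    · exact ag1 x y h
    rcases Nat.lt_or_ge (lay y) l with h' | h'
    · rw [K.adj_comm, Gx.adj_comm]
      exact ag1 y x h'
    obtain ⟨j, rfl⟩ := memQ x h (by omega)
    have := row_eq (up_symm' lay Gx l) (up_symm' lay K l) QQ (gv j)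
      (fun y hy => by
        obtain ⟨i, _, rfl⟩ := Finset.mem_image.1 hy
        simpa using momK 1 j i)
      (fun y hy => by
        simp only [up, Matrix.of_apply]
        split_ifs with hc
        · have : ¬ Gx.Adj (gv j) y := fun ha => by
            obtain ⟨i, hi⟩ := nbQ _ y (by omega) hc.2 ha
            exact hy (Finset.mem_image.2 ⟨i, Finset.mem_univ _, hi⟩)
          simp [am, this]
        · rfl) (momK 2 j j) y
    simp only [up, Matrix.of_apply, h, h', and_self, if_true] at this
    exact adj_of_am this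
  have amK : ∀ x y, lay x < l + 3 ∨ lay y < l + 3 → am K x y = am Gx x y := by
    intro x y h
    have : K.Adj x y ↔ Gx.Adj x y := by
      rcases h with h | h
      · exact ag3 x y h
      · rw [K.adj_comm, Gx.adj_comm]
        exact ag3 y x h
    simp only [am, Matrix.of_apply]
    by_cases e : Gx.Adj x y
    · rw [if_pos e, if_pos (this.2 e)]
    · rw [if_neg e, if_neg fun e' => e (this.1 e')]
  obtain ⟨dd3, mom3⟩ := hMod _ (up lay l (am Gx)) (up lay l (am K))
    (up lay l (am Gx) - up lay (l + 3) (am Gx)) QQ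
    (fun x y hxy => by
      simp only [Matrix.sub_apply, up, Matrix.of_apply] at hxy
      have c1 : l ≤ lay x ∧ l ≤ lay y := by
        by_contra hc
        rw [if_neg hc, if_neg (by omega)] at hxy
        exact hxy rfl
      have c2 : ¬ (l + 3 ≤ lay x ∧ l + 3 ≤ lay y) := fun hc => by
        rw [if_pos c1, if_pos hc] at hxy
        exact hxy (sub_self _)
      rw [if_pos c1, if_neg c2, sub_zero] at hxy
      have c3 : Gx.Adj x y := by
        by_contra hc
        simp [am, hc] at hxy
      have key : (∃ j, gv j = x) ∧ ∃ j, gv j = y := by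
        by_cases hx : lay x ≤ l + 2
        · exact ⟨memQ x c1.1 hx, nbQ x y hx c1.2 c3⟩
        · exact ⟨nbQ y x (by omega) c1.1 c3.symm, memQ y c1.2 (by omega)⟩
      obtain ⟨⟨i, hi⟩, ⟨j, hj⟩⟩ := key
      exact ⟨Finset.mem_image.2 ⟨i, Finset.mem_univ _, hi⟩,
        Finset.mem_image.2 ⟨j, Finset.mem_univ _, hj⟩⟩)
    ddK
    (fun k x y => by
      obtain ⟨i, _, hi⟩ := Finset.mem_image.1 x.2
      obtain ⟨j, _, hj⟩ := Finset.mem_image.1 y.2
      simp only [← hi, ← hj]
      exact momK k i j)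
  have eG : up lay l (am Gx) - (up lay l (am Gx) - up lay (l + 3) (am Gx)) =
      up lay (l + 3) (am Gx) := sub_sub_cancel _ _
  have eK : up lay l (am K) - (up lay l (am Gx) - up lay (l + 3) (am Gx)) =
      up lay (l + 3) (am K) := by
    ext x y
    simp only [Matrix.sub_apply, up, Matrix.of_apply]
    by_cases c2 : l + 3 ≤ lay x ∧ l + 3 ≤ lay y
    · rw [if_pos (by omega), if_pos (by omega), if_pos c2, if_pos c2]
      simp
    · rw [if_neg c2, if_neg c2, amK x y (by omega)]
      simp
  rw [eG, eK] at dd3 mom3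
  have zr : ∀ (J : SimpleGraph (V ⊕ St l)) (q : St l), ¬ l + 3 ≤ lay (Sum.inr q) := by
    intro _ q
    rcases q with _ | ⟨i, c⟩
    · change ¬ l + 3 ≤ 0
      omega
    · have := i.2
      change ¬ l + 3 ≤ i.val + 1
      omega
  have re : ∀ J : SimpleGraph (V ⊕ St l),
      dd (up lay (l + 3) (am J)) = dd (am (J.comap Sum.inl)) ∧
      ∀ k x y, (up lay (l + 3) (am J) ^ k) (Sum.inl x) (Sum.inl y) =
        (am (J.comap Sum.inl) ^ k) x y := fun J => by
    have h1 := hRe V (St l) (up lay (l + 3) (am J))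
      (fun x q => by simp [up, zr J q]) (fun x q => by simp [up, zr J q])
    have h2 : (up lay (l + 3) (am J)).submatrix Sum.inl Sum.inl = am (J.comap Sum.inl) := by
      ext x y
      have e : ∀ x : V, l + 3 ≤ lay (Sum.inl x) := fun _ => le_rfl
      simp only [up, Matrix.submatrix_apply, Matrix.of_apply, e, and_self, if_true]
      rfl
    rwa [h2] at h1
  have eGx : Gx.comap Sum.inl = G := by
    ext x y
    exact Main.ext_adj G _ _ l x y
  obtain ⟨e', he'⟩ := hrig (K.comap Sum.inl) t
    (by rw [← (re K).1, dd3, (re Gx).1, eGx])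
    (fun k i j => by
      rw [← (re K).2, ← eGx, ← (re Gx).2]
      exact mom3 k ⟨gv (Sum.inr i), Finset.mem_image_of_mem _ (Finset.mem_univ _)⟩
        ⟨gv (Sum.inr j), Finset.mem_image_of_mem _ (Finset.mem_univ _)⟩)
  have mixed : ∀ (q : St l) (y : V),
      K.Adj (Sum.inr q) (Sum.inl (e' y)) ↔ Gx.Adj (Sum.inr q) (Sum.inl y) := by
    intro q y
    rw [ag3 _ _ (by have := zr K q; omega), adj_inr_inl, adj_inr_inl]
    have : ∀ c : Bool, (e' y = if c then t 1 else t 0) ↔ (y = if c then t 1 else t 0) := by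
      intro c
      cases c
      · simp only [Bool.false_eq_true, if_false]
        conv_lhs => rw [← he' 0]
        exact e'.injective.eq_iff
      · simp only [if_true]
        conv_lhs => rw [← he' 1]
        exact e'.injective.eq_iff
    simp only [this]
  let e0 : Gx ≃g K := ⟨Equiv.sumCongr e'.toEquiv (Equiv.refl _), by
    intro x y
    rcases x with x | q <;> rcases y with y | q'
    · exact (e'.map_rel_iff' (a := x) (b := y)).trans (Main.ext_adj G _ _ l x y).symm
    · rw [K.adj_comm, Gx.adj_comm]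
      exact mixed q' x
    · exact mixed q y
    · exact ag3 _ _ (by have := zr K q; change lay (Sum.inr q) < l + 3; omega)⟩
  refine ⟨e0.trans e1, fun i => ?_⟩
  change e1 (e0 (extT t l i)) = s0 i
  have : e0 (extT t l i) = extT t l i := by
    refine Fin.cases ?_ (fun j => ?_) i
    · rw [tt0]
      rfl
    · rw [ttS]
      change Sum.inl (e' (t j.succ.succ)) = _
      rw [he']
  rw [this, ← hsK]
  exact he1 i

end Pool.Agent.P.MP_f57657_co.SY
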