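import Pool.Agent.P.MP_f57657_co.SY.Defs

/-! Only finitely many primes can increase the multiplicities. -/

open Matrix Finset Polynomial

namespace Pool.Agent.P.MP_f57657_co.SY

open SX

namespace FinAux

/-- A nonzero invariant subspace of a real symmetric matrix contains an eigenvector. -/
theorem eig_bot {n : ℕ} (B : Matrix (Fin n) (Fin n) ℝ) (hB : B.IsSymm)
    (W : (Fin n → ℝ) → Prop) (hW : ∀ v (c : ℝ), W v → W (B *ᵥ v - c • v))
    (h : ∀ (θ : ℝ) f, W f → B *ᵥ f = θ • f → f = 0) : ∀ v, W v → v = 0 := by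
  have hH : B.IsHermitian := by
    unfold Matrix.IsHermitian
    rw [Matrix.conjTranspose_eq_transpose_of_trivial]
    exact hB
  have key : ∀ (lam : Fin n → ℝ) (s : Finset (Fin n)) (v : Fin n → ℝ), W v →
      (aeval B (∏ i ∈ s, (X - C (lam i)))) *ᵥ v = 0 → v = 0 := by
    intro lam s
    induction s using Finset.induction_on with
    | empty => intro v _ hv; simpa using hv
    | insert i s hi ih =>
      intro v hv h0
      rw [Finset.prod_insert hi, mul_comm, map_mul, ← Matrix.mulVec_mulVec] at h0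
      have e : (aeval B (X - C (lam i))) *ᵥ v = B *ᵥ v - lam i • v := by
        rw [map_sub, aeval_X, aeval_C, Matrix.sub_mulVec, Algebra.algebraMap_eq_smul_one,
          Matrix.smul_mulVec, Matrix.one_mulVec]
      rw [e] at h0
      exact h (lam i) v hv (sub_eq_zero.1 (ih _ (hW v _ hv) h0))
  intro v hv
  refine key hH.eigenvalues univ v hv ?_
  have e := hH.charpoly_eq
  simp only [RCLike.ofReal_real_eq_id, id] at e
  rw [← e, Matrix.aeval_self_charpoly, Matrix.zero_mulVec]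

section Gram

variable {n : ℕ} {ι : Type} [Fintype ι]

/-- Columns of the Krylov matrix. -/
def col (B : Matrix (Fin n) (Fin n) ℤ) (u : ι → Fin n → ℤ) (c : ι × Fin (n + 1)) : Fin n → ℤ :=
  (B ^ c.2.val) *ᵥ u c.1

/-- Its Gram matrix. -/
def gram (B : Matrix (Fin n) (Fin n) ℤ) (u : ι → Fin n → ℤ) : Matrix (Fin n) (Fin n) ℤ :=
  Matrix.of fun a b => ∑ c, col B u c a * col B u c b

theorem col_cast (F : Type) [Field F] (B : Matrix (Fin n) (Fin n) ℤ) (u : ι → Fin n → ℤ)
    (c : ι × Fin (n + 1)) :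
    (fun a => ((col B u c a : ℤ) : F)) =
      ((B.map (Int.castRingHom F)) ^ c.2.val) *ᵥ fun a => ((u c.1 a : ℤ) : F) := by
  funext a
  rw [← Matrix.map_pow]
  simp [col, Matrix.mulVec, dotProduct]

theorem symm_dot {F : Type} [Field F] (B : Matrix (Fin n) (Fin n) F) (hB : B.IsSymm)
    (x y : Fin n → F) : (B *ᵥ x) ⬝ᵥ y = x ⬝ᵥ (B *ᵥ y) := by
  rw [Matrix.dotProduct_mulVec, ← Matrix.mulVec_transpose, hB.eq]

theorem gram_mulVec (F : Type) [Field F] (B : Matrix (Fin n) (Fin n) ℤ) (u : ι → Fin n → ℤ)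
    (f : Fin n → F) (a : Fin n) :
    (((gram B u).map (Int.castRingHom F)) *ᵥ f) a =
      ∑ c, ((col B u c a : ℤ) : F) * ((fun b => ((col B u c b : ℤ) : F)) ⬝ᵥ f) := by
  simp only [gram, Matrix.mulVec, dotProduct, Matrix.map_apply, Matrix.of_apply, eq_intCast,
    Int.cast_sum, Int.cast_mul, Finset.sum_mul, Finset.mul_sum]
  rw [Finset.sum_comm]
  refine Finset.sum_congr rfl fun c _ => Finset.sum_congr rfl fun b _ => by ring

theorem det_cast (F : Type) [Field F] (M : Matrix (Fin n) (Fin n) ℤ) :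
    (M.map (Int.castRingHom F)).det = ((M.det : ℤ) : F) := by
  have := (Int.castRingHom F).map_det M
  simpa [RingHom.mapMatrix_apply] using this.symm

theorem ctrl_of_det (F : Type) [Field F] (B : Matrix (Fin n) (Fin n) ℤ) (hB : B.IsSymm)
    (u : ι → Fin n → ℤ) (hd : (((gram B u).det : ℤ) : F) ≠ 0) (θ : F) (f : Fin n → F)
    (hf : (B.map (Int.castRingHom F)) *ᵥ f = θ • f)
    (hu : ∀ i, (fun a => ((u i a : ℤ) : F)) ⬝ᵥ f = 0) : f = 0 := by
  have hs : (B.map (Int.castRingHom F)).IsSymm := hB.map _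
  have hp : ∀ k : ℕ, ((B.map (Int.castRingHom F)) ^ k) *ᵥ f = θ ^ k • f := by
    intro k
    induction k with
    | zero => simp
    | succ k ih =>
      rw [pow_succ, ← Matrix.mulVec_mulVec, hf, Matrix.mulVec_smul, ih, smul_smul, pow_succ']
  refine Matrix.eq_zero_of_mulVec_eq_zero (M := (gram B u).map (Int.castRingHom F))
    (by rw [det_cast]; exact hd) ?_
  funext a
  rw [gram_mulVec]
  refine Finset.sum_eq_zero fun c _ => ?_
  rw [col_cast, symm_dot _ (hs.pow _), hp, dotProduct_smul, hu, smul_zero, mul_zero]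

theorem det_ne_zero (B : Matrix (Fin n) (Fin n) ℤ) (hB : B.IsSymm) (u : ι → Fin n → ℤ)
    (h : ∀ (θ : ℝ) (f : Fin n → ℝ), (B.map (Int.castRingHom ℝ)) *ᵥ f = θ • f →
      (∀ i, (fun a => ((u i a : ℤ) : ℝ)) ⬝ᵥ f = 0) → f = 0) : (gram B u).det ≠ 0 := by
  intro hd
  set A := B.map (Int.castRingHom ℝ) with hA
  have hs : A.IsSymm := hB.map _
  have hd' : ((gram B u).map (Int.castRingHom ℝ)).det = 0 := by rw [det_cast, hd]; simp
  obtain ⟨v, hv, hv0⟩ := Matrix.exists_mulVec_eq_zero_iff.2 hd'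
  have h1 : ∑ c, ((fun b => ((col B u c b : ℤ) : ℝ)) ⬝ᵥ v) ^ 2 = 0 := by
    have e : v ⬝ᵥ (((gram B u).map (Int.castRingHom ℝ)) *ᵥ v) = 0 := by rw [hv0]; simp
    rw [← e]
    simp only [dotProduct] at *
    simp only [gram_mulVec, dotProduct, Finset.mul_sum]
    rw [Finset.sum_comm]
    refine Finset.sum_congr rfl fun c _ => ?_
    rw [sq, Finset.sum_mul_sum]
    refine Finset.sum_congr rfl fun a _ => Finset.sum_congr rfl fun b _ => by ring
  have h2 : ∀ (i : ι) (k : ℕ), k < n + 1 → (fun a => ((u i a : ℤ) : ℝ)) ⬝ᵥ ((A ^ k) *ᵥ v) = 0 := by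
    intro i k hk
    have := (Finset.sum_eq_zero_iff_of_nonneg fun c _ => sq_nonneg _).1 h1 (i, ⟨k, hk⟩)
      (Finset.mem_univ _)
    rw [col_cast, symm_dot _ (hs.pow _)] at this
    exact pow_eq_zero_iff (two_ne_zero) |>.1 this
  have h3 : ∀ (i : ι) (k : ℕ), (fun a => ((u i a : ℤ) : ℝ)) ⬝ᵥ ((A ^ k) *ᵥ v) = 0 := by
    intro i k
    have hdeg : (X ^ k %ₘ A.charpoly).natDegree < n + 1 := by
      have := Polynomial.natDegree_modByMonic_le (X ^ k) A.charpoly_monic
      rw [Matrix.charpoly_natDegree_eq_dim, Fintype.card_fin] at this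
      omega
    rw [Matrix.pow_eq_aeval_mod_charpoly, Polynomial.aeval_eq_sum_range' hdeg, Matrix.sum_mulVec,
      dotProduct_sum]
    refine Finset.sum_eq_zero fun l hl => ?_
    rw [Matrix.smul_mulVec, dotProduct_smul, h2 i l (Finset.mem_range.1 hl), smul_zero]
  refine hv (eig_bot A hs
    (fun w => ∀ (i : ι) (k : ℕ), (fun a => ((u i a : ℤ) : ℝ)) ⬝ᵥ ((A ^ k) *ᵥ w) = 0) ?_ ?_ v h3)
  · intro w c hw i k
    rw [Matrix.mulVec_sub, Matrix.mulVec_mulVec, ← pow_succ, Matrix.mulVec_smul, dotProduct_sub,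
      dotProduct_smul, hw, hw]
    simp
  · intro θ f hf he
    exact h θ f he fun i => by simpa using hf i 0

theorem two_pow_ge (n : ℕ) : (n : ℤ) + 1 ≤ 2 ^ n := by
  have := Nat.lt_two_pow_self (n := n)
  exact_mod_cast this

theorem col_le (B : Matrix (Fin n) (Fin n) ℤ) (hB : ∀ a b, |B a b| ≤ 1) (x : Fin n → ℤ) (m : ℕ)
    (hx : ∀ a, |x a| ≤ 2 ^ m) (k : ℕ) : ∀ a, |((B ^ k) *ᵥ x) a| ≤ 2 ^ (m + n * k) := by
  induction k with
  | zero => simpa using hx
  | succ k ih =>
    intro a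
    rw [pow_succ', ← Matrix.mulVec_mulVec]
    have h1 : |(B *ᵥ ((B ^ k) *ᵥ x)) a| ≤ ∑ _b : Fin n, (2 : ℤ) ^ (m + n * k) := by
      refine (Finset.abs_sum_le_sum_abs (fun b => B a b * ((B ^ k) *ᵥ x) b) univ).trans
        (Finset.sum_le_sum fun b _ => ?_)
      rw [abs_mul]
      have := mul_le_mul (hB a b) (ih b) (abs_nonneg _) zero_le_one
      simpa using this
    refine h1.trans ?_
    rw [Finset.sum_const, Finset.card_univ, Fintype.card_fin, nsmul_eq_mul,
      show m + n * (k + 1) = n + (m + n * k) by ring, pow_add (2 : ℤ) n]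
    have := two_pow_ge n
    have h2 : (0 : ℤ) ≤ 2 ^ (m + n * k) := by positivity
    nlinarith

theorem det_bound (B : Matrix (Fin n) (Fin n) ℤ) (hB : ∀ a b, |B a b| ≤ 1) (u : ι → Fin n → ℤ)
    (hu : ∀ i a, |u i a| ≤ 2 ^ (2 * n * n)) (hι : Fintype.card ι ≤ 3 * n) :
    |(gram B u).det| ≤ 2 ^ (20 * n ^ 3 + 20) := by
  have hc : ∀ c a, |col B u c a| ≤ 2 ^ (3 * n * n) := by
    intro c a
    refine (col_le B hB _ _ (hu c.1) c.2.val a).trans (pow_le_pow_right₀ (by norm_num) ?_)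
    have := c.2.isLt
    have h2 : n * c.2.val ≤ n * n := Nat.mul_le_mul_left _ (by omega)
    nlinarith
  have h2n := two_pow_ge n
  have hg : ∀ a b, AbsoluteValue.abs (gram B u a b) ≤ (2 : ℤ) ^ (6 * n * n + 2 * n + 2) := by
    intro a b
    have h1 : |gram B u a b| ≤ ∑ _c : ι × Fin (n + 1), (2 : ℤ) ^ (6 * n * n) := by
      refine (Finset.abs_sum_le_sum_abs _ _).trans (Finset.sum_le_sum fun c _ => ?_)
      rw [abs_mul, show 6 * n * n = 3 * n * n + 3 * n * n by ring, pow_add]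
      exact mul_le_mul (hc c a) (hc c b) (abs_nonneg _) (by positivity)
    refine h1.trans ?_
    rw [Finset.sum_const, Finset.card_univ, Fintype.card_prod, Fintype.card_fin, nsmul_eq_mul,
      show 6 * n * n + 2 * n + 2 = (2 + n + n) + 6 * n * n by ring, pow_add (2 : ℤ) (2 + n + n)]
    refine mul_le_mul_of_nonneg_right ?_ (by positivity)
    have h3 : ((Fintype.card ι : ℕ) : ℤ) ≤ 3 * n := by exact_mod_cast hι
    have h4 : (0 : ℤ) ≤ n := Int.natCast_nonneg n
    push_cast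
    rw [pow_add, pow_add]
    refine mul_le_mul ?_ h2n (by positivity) (by positivity)
    nlinarith
  have hd := Matrix.det_le hg
  rw [Fintype.card_fin, nsmul_eq_mul] at hd
  refine le_trans hd ?_
  have hf : ((n.factorial : ℕ) : ℤ) ≤ 2 ^ (n * n) := by
    have h1 : ((n.factorial : ℕ) : ℤ) ≤ (n : ℤ) ^ n := by exact_mod_cast Nat.factorial_le_pow n
    refine h1.trans ?_
    rw [pow_mul]
    exact pow_le_pow_left₀ (Int.natCast_nonneg n) (by linarith) n
  refine (mul_le_mul_of_nonneg_right hf (by positivity)).trans ?_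
  rw [← pow_mul, ← pow_add]
  refine pow_le_pow_right₀ (by norm_num) ?_
  have h1 : n ≤ n * n := Nat.le_mul_self n
  have h2 : n * n ≤ n * (n * n) := Nat.mul_le_mul_left n h1
  nlinarith

end Gram

/-- A nonzero integer of size at most `2 ^ m` vanishes in at most `m` prime characteristics. -/
theorem primes (d : ℤ) (hd : d ≠ 0) (m : ℕ) (hm : |d| ≤ 2 ^ m) :
    ∃ S : Finset Nat.Primes, S.card ≤ m ∧ ∀ p : Nat.Primes, p ∉ S → ((d : ℤ) : FF p) ≠ 0 := by
  classical
  have hN : d.natAbs ≠ 0 := Int.natAbs_ne_zero.2 hd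
  refine ⟨d.natAbs.primeFactors.subtype Nat.Prime, ?_, ?_⟩
  · have h1 : 2 ^ d.natAbs.primeFactors.card ≤ ∏ p ∈ d.natAbs.primeFactors, p :=
      Finset.pow_card_le_prod _ _ _ fun p hp => (Nat.prime_of_mem_primeFactors hp).two_le
    have h2 := Nat.le_of_dvd (Nat.pos_of_ne_zero hN) (Nat.prod_primeFactors_dvd d.natAbs)
    have h3 : d.natAbs ≤ 2 ^ m := by
      have : ((d.natAbs : ℕ) : ℤ) ≤ 2 ^ m := by rw [Int.natCast_natAbs]; exact hm
      exact_mod_cast this
    have h4 : d.natAbs.primeFactors.card ≤ m :=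
      (Nat.pow_le_pow_iff_right (by norm_num)).1 (h1.trans (h2.trans h3))
    exact ((Finset.card_subtype Nat.Prime d.natAbs.primeFactors).le.trans
      (Finset.card_filter_le _ _)).trans h4
  · intro p hp h0
    apply hp
    have h1 : ((p.1 : ℕ) : ℤ) ∣ d := (CharP.intCast_eq_zero_iff (FF p) p.1 d).1 h0
    exact Finset.mem_subtype.2 (Nat.mem_primeFactors.2 ⟨p.2, Int.natCast_dvd.1 h1, hN⟩)

/-- One point of the moment curve avoids the hyperplanes of few nonzero vectors. -/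
theorem moment (n : ℕ) (T : Finset ℝ) (hT : T.card ≤ n) (g : ℝ → Fin n → ℝ)
    (hg : ∀ θ ∈ T, g θ ≠ 0) : ∃ v : Fin n → ℤ, (∀ a, |v a| ≤ 2 ^ (2 * n * n)) ∧
      ∀ θ ∈ T, (fun a => ((v a : ℤ) : ℝ)) ⬝ᵥ g θ ≠ 0 := by
  let P : ℝ → ℝ[X] := fun θ => ∑ a : Fin n, monomial a.val (g θ a)
  have hP0 : ∀ θ ∈ T, P θ ≠ 0 := by
    intro θ hθ h0
    apply hg θ hθ
    funext a
    have := congrArg (fun p => p.coeff a.val) h0
    simpa [P, Polynomial.finset_sum_coeff, Polynomial.coeff_monomial, Fin.val_inj] using this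
  have hPd : ∀ θ, (P θ).natDegree ≤ n := fun θ =>
    Polynomial.natDegree_sum_le_of_forall_le _ _ fun a _ =>
      (Polynomial.natDegree_monomial_le _).trans a.isLt.le
  have hQ : ∏ θ ∈ T, P θ ≠ 0 := Finset.prod_ne_zero_iff.2 hP0
  have hQd : (∏ θ ∈ T, P θ).natDegree < Fintype.card (Fin (n * n + 1)) := by
    have h1 := Polynomial.natDegree_prod_le T P
    have h2 : ∑ θ ∈ T, (P θ).natDegree ≤ T.card * n := by
      simpa using Finset.sum_le_card_nsmul T _ n fun θ _ => hPd θ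
    have h3 := Nat.mul_le_mul_right n hT
    rw [Fintype.card_fin]
    omega
  obtain ⟨τ, hτ⟩ : ∃ τ : Fin (n * n + 1), (∏ θ ∈ T, P θ).eval (τ.val : ℝ) ≠ 0 := by
    by_contra hc
    push Not at hc
    exact hQ (Polynomial.eq_zero_of_natDegree_lt_card_of_eval_eq_zero _
      (f := fun τ : Fin (n * n + 1) => (τ.val : ℝ))
      (fun a b h => Fin.ext (Nat.cast_injective (R := ℝ) h)) hc hQd)
  refine ⟨fun a => (τ.val : ℤ) ^ a.val, fun a => ?_, fun θ hθ => ?_⟩
  · have h1 : (τ.val : ℤ) ≤ 2 ^ (2 * n) := by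
      have h2 : (τ.val : ℤ) ≤ n * n := by exact_mod_cast Nat.lt_succ_iff.1 τ.isLt
      have h3 := two_pow_ge n
      have h4 : (0 : ℤ) ≤ n := Int.natCast_nonneg n
      rw [two_mul, pow_add]
      nlinarith
    rw [abs_of_nonneg (by positivity)]
    refine (pow_le_pow_left₀ (Int.natCast_nonneg _) h1 _).trans ?_
    rw [← pow_mul]
    exact pow_le_pow_right₀ (by norm_num) (Nat.mul_le_mul_left _ a.isLt.le)
  · rw [Polynomial.eval_prod] at hτ
    have := Finset.prod_ne_zero_iff.1 hτ θ hθ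
    simpa [P, Polynomial.eval_finset_sum, dotProduct, mul_comm] using this

/-- Cutting all subspaces down to zero. -/
theorem cut (n : ℕ) (T : Finset ℝ) (hT : T.card ≤ n) (q : ℕ) :
    ∀ W : ℝ → Submodule ℝ (Fin n → ℝ), (∀ θ ∈ T, Module.finrank ℝ (W θ) ≤ q) →
    ∃ v : Fin q → Fin n → ℤ, (∀ t a, |v t a| ≤ 2 ^ (2 * n * n)) ∧
      ∀ θ ∈ T, ∀ f ∈ W θ, (∀ t, (fun a => ((v t a : ℤ) : ℝ)) ⬝ᵥ f = 0) → f = 0 := by
  classical
  induction q with
  | zero =>
    intro W hW
    refine ⟨fun t => t.elim0, fun t => t.elim0, fun θ hθ f hf _ => ?_⟩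
    have := Submodule.finrank_eq_zero.1 (Nat.le_zero.1 (hW θ hθ))
    rw [this] at hf
    exact (Submodule.mem_bot ℝ).1 hf
  | succ q ih =>
    intro W hW
    have hex : ∀ θ, ∃ g ∈ W θ, W θ ≠ ⊥ → g ≠ 0 := by
      intro θ
      by_cases h : W θ = ⊥
      · exact ⟨0, (W θ).zero_mem, fun h' => absurd h h'⟩
      · obtain ⟨g, hg, hg0⟩ := Submodule.exists_mem_ne_zero_of_ne_bot h
        exact ⟨g, hg, fun _ => hg0⟩
    choose g hgW hg0 using hex
    obtain ⟨v0, hv0, hv⟩ := moment n (T.filter fun θ => W θ ≠ ⊥)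
      ((Finset.card_filter_le _ _).trans hT) g fun θ hθ => hg0 θ (Finset.mem_filter.1 hθ).2
    let L : (Fin n → ℝ) →ₗ[ℝ] ℝ := dotProductBilin ℝ ℝ fun a => ((v0 a : ℤ) : ℝ)
    have hL : ∀ f, L f = (fun a => ((v0 a : ℤ) : ℝ)) ⬝ᵥ f := fun f => rfl
    obtain ⟨v, hvb, hvc⟩ := ih (fun θ => W θ ⊓ LinearMap.ker L) (by
      intro θ hθ
      by_cases h : W θ = ⊥
      · rw [h, bot_inf_eq, finrank_bot]
        exact Nat.zero_le _
      · have hlt : W θ ⊓ LinearMap.ker L < W θ := by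
          refine lt_of_le_of_ne inf_le_left fun e => ?_
          have h1 : g θ ∈ W θ ⊓ LinearMap.ker L := by rw [e]; exact hgW θ
          exact hv θ (Finset.mem_filter.2 ⟨hθ, h⟩) (by rw [← hL]; exact h1.2)
        have := Submodule.finrank_lt_finrank_of_lt hlt
        have := hW θ hθ
        omega)
    refine ⟨Fin.cons v0 v, fun t => Fin.cases hv0 hvb t, fun θ hθ f hf h => ?_⟩
    exact hvc θ hθ f ⟨hf, by simpa [hL] using h 0⟩ fun t => by simpa using h t.succ

section Graph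

variable {n : ℕ}

/-- The adjacency matrix on the first `s` vertices. -/
noncomputable def bm (G : SimpleGraph (Fin n)) (s : ℕ) : Matrix (Fin n) (Fin n) ℤ :=
  Matrix.of fun a b => if a.val < s ∧ b.val < s then am G a b else 0

/-- The linear conditions in the definition of `KK`. -/
noncomputable def uu (G : SimpleGraph (Fin n)) (s j : ℕ) : Fin n ⊕ Fin n → Fin n → ℤ
  | Sum.inl i => fun a => if s ≤ i.val ∧ a = i then 1 else 0
  | Sum.inr i => fun a => if s ≤ i.val ∧ i.val < s + j then am G i a else 0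

theorem am_abs (G : SimpleGraph (Fin n)) (a b : Fin n) : |am G a b| ≤ 1 := by
  unfold am
  simp only [Matrix.of_apply]
  split_ifs <;> simp

theorem bm_symm (G : SimpleGraph (Fin n)) (s : ℕ) : (bm G s).IsSymm := by
  ext a b
  have e : am G b a = am G a b := by
    unfold am
    simp only [Matrix.of_apply]
    by_cases h : G.Adj a b
    · rw [if_pos h, if_pos h.symm]
    · rw [if_neg h, if_neg fun h' => h h'.symm]
  simp only [bm, Matrix.transpose_apply, Matrix.of_apply, e, and_comm]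

theorem bm_abs (G : SimpleGraph (Fin n)) (s : ℕ) (a b : Fin n) : |bm G s a b| ≤ 1 := by
  unfold bm
  simp only [Matrix.of_apply]
  split_ifs
  · exact am_abs G a b
  · simp

theorem uu_abs (G : SimpleGraph (Fin n)) (s j : ℕ) (i : Fin n ⊕ Fin n) (a : Fin n) :
    |uu G s j i a| ≤ 1 := by
  rcases i with i | i
  · simp only [uu]; split_ifs <;> simp
  · simp only [uu]
    split_ifs
    · exact am_abs G i a
    · simp

theorem mem_KK (F : Type) [Field F] (G : SimpleGraph (Fin n)) (s j : ℕ) (θ : F)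
    (f : Fin n → F) : f ∈ KK F G s j θ ↔ ((bm G s).map (Int.castRingHom F)) *ᵥ f = θ • f ∧
      ∀ i, (fun a => ((uu G s j i a : ℤ) : F)) ⬝ᵥ f = 0 := by
  have e1 : ∀ i : Fin n, (fun a => ((uu G s j (Sum.inl i) a : ℤ) : F)) ⬝ᵥ f =
      if s ≤ i.val then f i else 0 := by
    intro i
    by_cases h : s ≤ i.val <;> simp [uu, dotProduct, h]
  have e2 : ∀ i : Fin n, (fun a => ((uu G s j (Sum.inr i) a : ℤ) : F)) ⬝ᵥ f =
      if s ≤ i.val ∧ i.val < s + j then ∑ l, ((am G i l : ℤ) : F) * f l else 0 := by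
    intro i
    by_cases h : s ≤ i.val ∧ i.val < s + j
    · simp [uu, dotProduct, h]
    · simp [uu, dotProduct, h]
  have e3 : (∀ i : Fin n, s ≤ i.val → f i = 0) → ∀ i : Fin n,
      (((bm G s).map (Int.castRingHom F)) *ᵥ f) i =
        if i.val < s then ∑ l, ((am G i l : ℤ) : F) * f l else 0 := by
    intro h0 i
    by_cases h : i.val < s
    · simp only [bm, Matrix.mulVec, dotProduct, Matrix.map_apply, Matrix.of_apply, h, true_and,
        if_true, eq_intCast]
      refine Finset.sum_congr rfl fun l _ => ?_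
      by_cases hl : l.val < s
      · simp [hl]
      · simp [hl, h0 l (not_lt.1 hl)]
    · simp [bm, Matrix.mulVec, dotProduct, h]
  constructor
  · rintro ⟨h0, h1⟩
    refine ⟨funext fun i => ?_, fun i => ?_⟩
    · rw [e3 h0]
      split_ifs with h
      · exact h1 i (by omega)
      · simp [h0 i (not_lt.1 h)]
    · rcases i with i | i
      · rw [e1]
        split_ifs with h
        · exact h0 i h
        · rfl
      · rw [e2]
        split_ifs with h
        · rw [h1 i h.2, h0 i h.1, mul_zero]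
        · rfl
  · rintro ⟨h1, h2⟩
    have h0 : ∀ i : Fin n, s ≤ i.val → f i = 0 := fun i hi => by
      have := h2 (Sum.inl i)
      rwa [e1, if_pos hi] at this
    refine ⟨h0, fun i hi => ?_⟩
    by_cases h : i.val < s
    · have := congrFun h1 i
      rwa [e3 h0, if_pos h] at this
    · have := h2 (Sum.inr i)
      rw [e2, if_pos ⟨not_lt.1 h, hi⟩] at this
      rw [this, h0 i (not_lt.1 h), mul_zero]

end Graph

end FinAux

open FinAux in
theorem pFin (hE : StEig) : StFin := by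
  intro n G s j q hq hnu
  obtain ⟨T, hT, hTm⟩ := hE ℝ n G s j
  obtain ⟨v, hvb, hvc⟩ := cut n T hT q (fun θ => KK ℝ G s j θ) fun θ _ => hnu θ
  let u : (Fin n ⊕ Fin n) ⊕ Fin q → Fin n → ℤ := Sum.elim (uu G s j) v
  have hd : (gram (bm G s) u).det ≠ 0 := by
    refine det_ne_zero _ (bm_symm G s) u fun θ f hf hu => ?_
    have hK : f ∈ KK ℝ G s j θ := (mem_KK ℝ G s j θ f).2 ⟨hf, fun i => hu (Sum.inl i)⟩
    by_cases hθ : θ ∈ T
    · exact hvc θ hθ f hK fun t => hu (Sum.inr t)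
    · have h0 : nu ℝ G s j θ = 0 := by
        by_contra h
        exact hθ (hTm θ (by omega))
      rw [Submodule.finrank_eq_zero.1 h0] at hK
      exact (Submodule.mem_bot ℝ).1 hK
  have hb : |(gram (bm G s) u).det| ≤ 2 ^ (20 * n ^ 3 + 20) := by
    refine det_bound _ (bm_abs G s) u ?_ ?_
    · rintro (i | t) a
      · exact (uu_abs G s j i a).trans (one_le_pow₀ (by norm_num))
      · exact hvb t a
    · simp only [Fintype.card_sum, Fintype.card_fin]
      omega
  obtain ⟨S, hS, hSp⟩ := primes _ hd _ hb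
  refine ⟨S, hS, fun p hp θ => ?_⟩
  let L : (KK (FF p) G s j θ) →ₗ[FF p] (Fin q → FF p) :=
    (Matrix.mulVecLin (Matrix.of fun t a => ((v t a : ℤ) : FF p))).comp (Submodule.subtype _)
  have hL : Function.Injective L := by
    rw [injective_iff_map_eq_zero]
    intro f hf
    obtain ⟨h1, h2⟩ := (mem_KK (FF p) G s j θ f.1).1 f.2
    refine Subtype.ext (ctrl_of_det (FF p) _ (bm_symm G s) u (hSp p hp) θ f.1 h1 ?_)
    rintro (i | t)
    · exact h2 i
    · exact congrFun hf t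
  have := LinearMap.finrank_le_finrank_of_injective hL
  simpa [nu] using this

end Pool.Agent.P.MP_f57657_co.SY
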