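import Pool.Agent.P.MP_f57657_co.SY.Defs
import Pool.Agent.P.MP_f57657_co.SX.Glue

/-! Walks that end in the second piece of a glued matrix. -/

open Matrix Finset

namespace Pool.Agent.P.MP_f57657_co.SY

open SX SX.Glue PowerSeries

namespace Glue2Aux

variable {V : Type} [Fintype V] [DecidableEq V]

theorem res_zero (A : Matrix V V ℤ) (x τ : V) (hx : ∀ z, A x z = 0) (hne : x ≠ τ) :
    res A x τ = 0 := by
  ext k
  simp only [res, coeff_mk, map_zero]
  rcases k with _ | k
  · rw [pow_zero, Matrix.one_apply, if_neg hne]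
  · rw [pow_succ', Matrix.mul_apply]
    exact Finset.sum_eq_zero fun z _ => by rw [hx z, zero_mul]

end Glue2Aux

open Glue2Aux

theorem pGlue2 : StGlue2 := by
  intro V _ _ ι _ _ A A1 A2 y r Q h1 h2 hy hr hA τ hτ
  have eA : A.map (C : ℤ → PowerSeries ℤ) = A1.map (C : ℤ → PowerSeries ℤ) +
      A2.map (C : ℤ → PowerSeries ℤ) + Glue.col y * Glue.row r + Glue.col r * Glue.row y := by
    ext x x' : 2
    simp only [Matrix.add_apply, col_row, Matrix.map_apply, hA x x', map_add]
  have z : ∀ x, Q x → res A2 x τ = 0 := fun x hx =>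
    res_zero A2 x τ (fun w => by
      by_contra e
      exact (h2 _ _ e).1 hx) fun e => hτ (e ▸ hx)
  have eM : MM A = MM A2 - (X : PowerSeries ℤ) • (A1.map (C : ℤ → PowerSeries ℤ) +
      Glue.col y * Glue.row r + Glue.col r * Glue.row y) := by
    rw [MM, MM, eA]
    simp only [smul_add]
    abel
  have key : RR A2 = RR A - (X : PowerSeries ℤ) •
      (RR A * (A1.map (C : ℤ → PowerSeries ℤ) * RR A2) +
        (RR A * Glue.col y) * (Glue.row r * RR A2) +
        (RR A * Glue.col r) * (Glue.row y * RR A2)) := by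
    conv_lhs => rw [← Matrix.one_mul (RR A2), ← RR_MM A, Matrix.mul_assoc, eM, Matrix.sub_mul,
      MM_RR]
    simp only [Matrix.mul_sub, Matrix.mul_one, Matrix.smul_mul, Matrix.mul_smul, Matrix.add_mul,
      Matrix.mul_add, Matrix.mul_assoc]
  have main : ∀ x, res A x τ = res A2 x τ + X * ∑ j, res A x (y j) * res A2 (r j) τ := by
    intro x
    have e : RR A2 x τ = _ := congrArg (fun N : Matrix V V (PowerSeries ℤ) => N x τ) key
    have t1 : (RR A * (A1.map (C : ℤ → PowerSeries ℤ) * RR A2)) x τ = 0 := by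
      rw [Matrix.mul_apply]
      refine Finset.sum_eq_zero fun w _ => ?_
      rw [Matrix.mul_apply, Finset.sum_eq_zero, mul_zero]
      intro w' _
      rw [Matrix.map_apply]
      by_cases h : A1 w w' = 0
      · rw [h, map_zero, zero_mul]
      · rw [show RR A2 w' τ = 0 from z _ (h1 _ _ h).2, mul_zero]
    have t2 : ((RR A * Glue.col y) * (Glue.row r * RR A2)) x τ =
        ∑ j, res A x (y j) * res A2 (r j) τ := by
      rw [Matrix.mul_apply]
      refine Finset.sum_congr rfl fun j _ => ?_
      rw [mul_col, row_mul]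
      rfl
    have t3 : ((RR A * Glue.col r) * (Glue.row y * RR A2)) x τ = 0 := by
      rw [Matrix.mul_apply]
      refine Finset.sum_eq_zero fun j _ => ?_
      rw [row_mul, show RR A2 (y j) τ = 0 from z _ (hy j), mul_zero]
    rw [Matrix.sub_apply, Matrix.smul_apply, Matrix.add_apply, Matrix.add_apply, t1, t2, t3,
      zero_add, add_zero, smul_eq_mul] at e
    have e' : res A2 x τ = res A x τ - X * ∑ j, res A x (y j) * res A2 (r j) τ := e
    rw [e', sub_add_cancel]
  exact ⟨fun x hx => by rw [main x, z x hx, zero_add], fun x _ => main x⟩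

end Pool.Agent.P.MP_f57657_co.SY
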