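import Pool.Agent.P.MP_f57657_co.SY.Defs

/-! Vertices in the walk lattice of the roots have partners with the same walk counts. -/

open Matrix Finset

namespace Pool.Agent.P.MP_f57657_co.SY

open SX

namespace KryAux

variable {V : Type} [Fintype V] [DecidableEq V]

theorem base {A : Matrix V V ℤ} (hA : A.IsSymm) (a k b : ℕ) (v w : V) :
    (fun x => (A ^ a) x v) ⬝ᵥ (A ^ k *ᵥ fun x => (A ^ b) x w) = (A ^ (a + (k + b))) v w := by
  rw [pow_add, pow_add, Matrix.mul_apply]
  exact sum_congr rfl fun x _ => by rw [(hA.pow a).apply x v]; rfl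

theorem pow_nonneg' {A : Matrix V V ℤ} (hA : ∀ x y, 0 ≤ A x y) (k : ℕ) :
    ∀ x y, 0 ≤ (A ^ k) x y := by
  induction k with
  | zero => intro x y; rw [pow_zero, Matrix.one_apply]; split_ifs <;> norm_num
  | succ k ih =>
    intro x y
    rw [pow_succ, Matrix.mul_apply]
    exact sum_nonneg fun z _ => mul_nonneg (ih x z) (hA z y)

theorem unit {v : V → ℤ} (h : v ⬝ᵥ v = 1) :
    ∃ (w : V) (ε : ℤ), (ε = 1 ∨ ε = -1) ∧ v = Pi.single w ε := by
  obtain ⟨w, hw⟩ : ∃ w, v w ≠ 0 := by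
    by_contra hc
    push Not at hc
    simp [dotProduct, hc] at h
  rw [dotProduct, ← add_sum_erase _ _ (mem_univ w)] at h
  have h1 : 0 ≤ ∑ x ∈ univ.erase w, v x * v x := sum_nonneg fun x _ => mul_self_nonneg _
  have h2 : 0 < v w * v w := mul_self_pos.2 hw
  have h3 := (sum_eq_zero_iff_of_nonneg fun x _ => mul_self_nonneg (v x)).1
    (show ∑ x ∈ univ.erase w, v x * v x = 0 by omega)
  refine ⟨w, v w, Int.eq_one_or_neg_one_of_mul_eq_one (show v w * v w = 1 by omega), ?_⟩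
  funext x
  by_cases hx : x = w
  · rw [hx, Pi.single_eq_same]
  · rw [Pi.single_eq_of_ne hx]
    exact mul_self_eq_zero.1 (h3 x (mem_erase.2 ⟨hx, mem_univ x⟩))

/-- The lattice of pairs. -/
def prs {T : Type} (A B : Matrix V V ℤ) (t s : T → V) : Submodule ℤ ((V → ℤ) × (V → ℤ)) :=
  Submodule.span ℤ {g | ∃ k i, g = (fun x => (A ^ k) x (t i), fun x => (B ^ k) x (s i))}

theorem pair {T : Type} {A B : Matrix V V ℤ} {t s : T → V} (hA : A.IsSymm) (hB : B.IsSymm)
    (h : Mom A B t s) (k : ℕ) {p q : (V → ℤ) × (V → ℤ)} (hp : p ∈ prs A B t s)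
    (hq : q ∈ prs A B t s) : p.2 ⬝ᵥ (B ^ k *ᵥ q.2) = p.1 ⬝ᵥ (A ^ k *ᵥ q.1) := by
  induction hp using Submodule.span_induction with
  | zero => simp
  | add x y _ _ hx hy => simp only [Prod.fst_add, Prod.snd_add, add_dotProduct, hx, hy]
  | smul c x _ hx => simp only [Prod.smul_fst, Prod.smul_snd, smul_dotProduct, hx]
  | mem x hx =>
    obtain ⟨a, i, rfl⟩ := hx
    induction hq using Submodule.span_induction with
    | zero => simp
    | add x y _ _ hx hy =>
      simp only [Prod.fst_add, Prod.snd_add, mulVec_add, dotProduct_add] at hx hy ⊢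
      rw [hx, hy]
    | smul c x _ hx =>
      simp only [Prod.smul_fst, Prod.smul_snd, mulVec_smul, dotProduct_smul] at hx ⊢
      rw [hx]
    | mem y hy =>
      obtain ⟨b, j, rfl⟩ := hy
      exact (base hB a k b _ _).trans ((h _ i j).trans (base hA a k b _ _).symm)

theorem partner {T : Type} (A B : Matrix V V ℤ) (t s : T → V) {v : V → ℤ} (hv : v ∈ kry A t) :
    ∃ v', (v, v') ∈ prs A B t s := by
  induction hv using Submodule.span_induction with
  | zero => exact ⟨0, Submodule.zero_mem _⟩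
  | add x y _ _ hx hy =>
    obtain ⟨x', hx⟩ := hx
    obtain ⟨y', hy⟩ := hy
    exact ⟨x' + y', Submodule.add_mem _ hx hy⟩
  | smul c x _ hx =>
    obtain ⟨x', hx⟩ := hx
    exact ⟨c • x', Submodule.smul_mem _ c hx⟩
  | mem x hx =>
    obtain ⟨k, i, rfl⟩ := hx
    exact ⟨_, Submodule.subset_span ⟨k, i, rfl⟩⟩

theorem col_zero (A : Matrix V V ℤ) (v : V) : (fun x => (A ^ 0) x v) = Pi.single v 1 := by
  funext x
  rw [pow_zero, Matrix.one_apply, Pi.single_apply]

end KryAux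

open KryAux in
theorem pKry : StKry := by
  intro V _ _ T U A B t s u hA hB hA0 hB0 h hu
  have h1 : ∀ l, ∃ (w : V) (ε : ℤ), (ε = 1 ∨ ε = -1) ∧
      (Pi.single (u l) 1, Pi.single w ε) ∈ prs A B t s := fun l => by
    obtain ⟨v', hv⟩ := partner A B t s (hu l)
    have h2 := pair hA hB h 0 hv hv
    simp only [pow_zero, one_mulVec, single_dotProduct, Pi.single_eq_same, mul_one] at h2
    obtain ⟨w, ε, hε, rfl⟩ := unit h2
    exact ⟨w, ε, hε, hv⟩
  choose w ε hε hw using h1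
  have h2 : ∀ a : T ⊕ U, ∃ η : ℤ, (η = 1 ∨ η = -1) ∧
      (Pi.single (Sum.elim t u a) 1, Pi.single (Sum.elim s w a) η) ∈ prs A B t s := by
    rintro (i | l)
    · exact ⟨1, Or.inl rfl, Submodule.subset_span ⟨0, i, by rw [col_zero, col_zero]; rfl⟩⟩
    · exact ⟨ε l, hε l, hw l⟩
  refine ⟨w, fun k a b => ?_⟩
  obtain ⟨η, hη, ha⟩ := h2 a
  obtain ⟨η', hη', hb⟩ := h2 b
  have h3 := pair hA hB h k ha hb
  have h4 := pow_nonneg' hA0 k (Sum.elim t u a) (Sum.elim t u b)
  have h5 := pow_nonneg' hB0 k (Sum.elim s w a) (Sum.elim s w b)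
  simp only [single_dotProduct, mulVec, dotProduct_single] at h3
  rcases hη with rfl | rfl <;> rcases hη' with rfl | rfl <;> omega

end Pool.Agent.P.MP_f57657_co.SY
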