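import Pool.Agent.P.MP_f57657_co.SY.Defs

/-! An elementary Littlewood-Offord bound over a field of large characteristic. -/

open Matrix Finset

namespace Pool.Agent.P.MP_f57657_co.SY

open SX

namespace LOAux

variable {F : Type} [Field F]

/-- A finitely supported probability mass function. -/
def Good (ν : F → ℝ) : Prop :=
  (∀ y, 0 ≤ ν y) ∧ (Function.support ν).Finite ∧ ∑' y, ν y = 1

/-- One convolution step. -/
noncomputable def step (ν : F → ℝ) (x : F) : F → ℝ := fun y => (ν y + ν (y - x)) / 2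

theorem fin_shift {ν : F → ℝ} (h : (Function.support ν).Finite) (x : F) :
    (Function.support fun y => ν (y - x)).Finite := by
  have : (Function.support fun y => ν (y - x)) = (fun y => y - x) ⁻¹' Function.support ν := rfl
  rw [this]
  exact h.preimage (sub_left_injective.injOn)

theorem summ {ν : F → ℝ} (h : (Function.support ν).Finite) (x : F) (g : ℝ → ℝ → ℝ)
    (hg : g 0 0 = 0) : Summable fun y => g (ν y) (ν (y - x)) := by
  refine summable_of_hasFiniteSupport ((h.union (fin_shift h x)).subset ?_)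
  intro y hy
  by_contra hn
  simp only [Set.mem_union, Function.mem_support, not_or, not_not] at hn
  exact hy (by simp only [hn.1, hn.2, hg])

theorem tsum_shift (g : F → ℝ) (x : F) : ∑' y, g (y - x) = ∑' y, g y :=
  (Equiv.subRight x).tsum_eq g

theorem good_step {ν : F → ℝ} (h : Good ν) (x : F) : Good (step ν x) := by
  obtain ⟨h0, hf, h1⟩ := h
  refine ⟨fun y => div_nonneg (add_nonneg (h0 _) (h0 _)) (by norm_num), ?_, ?_⟩
  · refine (hf.union (fin_shift hf x)).subset ?_
    intro y hy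
    by_contra hn
    simp only [Set.mem_union, Function.mem_support, not_or, not_not] at hn
    exact hy (by simp only [step, hn.1, hn.2]; norm_num)
  · have s1 : Summable fun y => ν y := summ hf x (fun a _ => a) rfl
    have s2 : Summable fun y => ν (y - x) := summ hf x (fun _ b => b) rfl
    simp only [step]
    rw [tsum_div_const, s1.tsum_add s2, tsum_shift ν x, h1]
    norm_num

theorem en_step {ν : F → ℝ} (hf : (Function.support ν).Finite) (x : F) :
    ∑' y, (step ν x y) ^ 2 = ∑' y, ν y ^ 2 - (∑' y, (ν y - ν (y - x)) ^ 2) / 4 := by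
  have s1 : Summable fun y => ν y ^ 2 := summ hf x (fun a _ => a ^ 2) (by norm_num)
  have s2 : Summable fun y => ν (y - x) ^ 2 := summ hf x (fun _ b => b ^ 2) (by norm_num)
  have s3 : Summable fun y => (ν y - ν (y - x)) ^ 2 :=
    summ hf x (fun a b => (a - b) ^ 2) (by norm_num)
  have e : ∀ y, (step ν x y) ^ 2 =
      (ν y ^ 2 + ν (y - x) ^ 2) / 2 - (ν y - ν (y - x)) ^ 2 / 4 := by
    intro y; simp only [step]; ring
  simp only [e]
  rw [((s1.add s2).div_const 2).tsum_sub (s3.div_const 4), tsum_div_const, tsum_div_const,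
    s1.tsum_add s2, tsum_shift (fun y => ν y ^ 2) x]
  ring

theorem inj_pts {r : ℕ} (hc : ∀ m : ℕ, 1 ≤ m → m ≤ 2 * r → (m : F) ≠ 0) {x : F} (hx : x ≠ 0)
    (y0 : F) : Set.InjOn (fun i : ℕ => y0 + ((i : F) + 1) * x) (range (2 * r) : Finset ℕ) := by
  have key : ∀ i j : ℕ, i < j → j < 2 * r →
      y0 + ((i : F) + 1) * x ≠ y0 + ((j : F) + 1) * x := by
    intro i j hij hj he
    have h1 : ((j - i : ℕ) : F) * x = 0 := by
      rw [Nat.cast_sub hij.le]; linear_combination -he
    rcases mul_eq_zero.1 h1 with h | h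
    · exact hc (j - i) (by omega) (by omega) h
    · exact hx h
  intro i hi j hj he
  simp only [coe_range, Set.mem_Iio] at hi hj
  rcases lt_trichotomy i j with h | h | h
  · exact absurd he (key i j h hj)
  · exact h
  · exact absurd he.symm (key j i h hi)

theorem drop {r : ℕ} (hr : 1 ≤ r) (hc : ∀ m : ℕ, 1 ≤ m → m ≤ 2 * r → (m : F) ≠ 0) {ν : F → ℝ}
    (h : Good ν) {x : F} (hx : x ≠ 0) {y0 : F} (hy : 1 / (r : ℝ) < ν y0) :
    1 / (8 * (r : ℝ) ^ 3) ≤ ∑' y, (ν y - ν (y - x)) ^ 2 := by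
  classical
  obtain ⟨h0, hf, h1⟩ := h
  have hr0 : (0 : ℝ) < r := by exact_mod_cast hr
  have s1 : Summable fun y => ν y := summ hf x (fun a _ => a) rfl
  have s3 : Summable fun y => (ν y - ν (y - x)) ^ 2 :=
    summ hf x (fun a b => (a - b) ^ 2) (by norm_num)
  have hinj := inj_pts hc hx y0
  have hsum : ∑ i ∈ range (2 * r), ν (y0 + ((i : F) + 1) * x) ≤ 1 := by
    rw [← h1, ← Finset.sum_image (f := ν) hinj]
    exact s1.sum_le_tsum _ fun y _ => h0 y
  obtain ⟨i, hi, hle⟩ : ∃ i ∈ range (2 * r), ν (y0 + ((i : F) + 1) * x) ≤ 1 / (2 * (r : ℝ)) := by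
    refine Finset.exists_le_of_sum_le ⟨0, by simp; omega⟩ ?_
    rw [Finset.sum_const, card_range, nsmul_eq_mul]
    have : ((2 * r : ℕ) : ℝ) * (1 / (2 * (r : ℝ))) = 1 := by
      push_cast; field_simp
    rw [this]; exact hsum
  have hi' : i + 1 ≤ 2 * r := by simpa using hi
  have tel : ∑ j ∈ range (i + 1), (ν (y0 + ((j : F) + 1) * x) - ν (y0 + ((j : F) + 1) * x - x)) =
      ν (y0 + ((i : F) + 1) * x) - ν y0 := by
    have := Finset.sum_range_sub (fun j : ℕ => ν (y0 + (j : F) * x)) (i + 1)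
    simp only [Nat.cast_add, Nat.cast_one, Nat.cast_zero, zero_mul, add_zero] at this
    rw [← this]
    refine Finset.sum_congr rfl fun j _ => ?_
    congr 2; ring
  have cs := sq_sum_le_card_mul_sum_sq (s := range (i + 1))
    (f := fun j : ℕ => ν (y0 + ((j : F) + 1) * x) - ν (y0 + ((j : F) + 1) * x - x))
  rw [tel, card_range] at cs
  have hsub : (range (i + 1) : Finset ℕ) ⊆ range (2 * r) := range_subset_range.2 hi'
  have hle2 : ∑ j ∈ range (i + 1),
      (ν (y0 + ((j : F) + 1) * x) - ν (y0 + ((j : F) + 1) * x - x)) ^ 2 ≤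
      ∑' y, (ν y - ν (y - x)) ^ 2 := by
    rw [← Finset.sum_image (f := fun y => (ν y - ν (y - x)) ^ 2)
      (hinj.mono (by exact_mod_cast hsub))]
    exact s3.sum_le_tsum _ fun y _ => sq_nonneg _
  have hD : 0 ≤ ∑' y, (ν y - ν (y - x)) ^ 2 := tsum_nonneg fun y => sq_nonneg _
  set D := ∑' y, (ν y - ν (y - x)) ^ 2
  have hi2 : ((i + 1 : ℕ) : ℝ) ≤ 2 * r := by exact_mod_cast hi'
  have gap : 1 / (2 * (r : ℝ)) ≤ ν y0 - ν (y0 + ((i : F) + 1) * x) := by
    have : 1 / (r : ℝ) = 1 / (2 * (r : ℝ)) + 1 / (2 * (r : ℝ)) := by field_simp; ring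
    linarith
  have g2 : (1 / (2 * (r : ℝ))) ^ 2 ≤ (ν (y0 + ((i : F) + 1) * x) - ν y0) ^ 2 := by
    have hp : 0 ≤ 1 / (2 * (r : ℝ)) := by positivity
    nlinarith
  have g3 : (1 / (2 * (r : ℝ))) ^ 2 ≤ 2 * r * D := by
    refine g2.trans (cs.trans ?_)
    exact mul_le_mul hi2 hle2 (Finset.sum_nonneg fun _ _ => sq_nonneg _) (by positivity)
  have e : 1 / (8 * (r : ℝ) ^ 3) = (1 / (2 * (r : ℝ))) ^ 2 / (2 * r) := by field_simp; ring
  rw [e, div_le_iff₀ (by positivity)]
  linarith

/-- The law of the random subset sum. -/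
noncomputable def law {n : ℕ} (f : Fin n → F) : F → ℝ :=
  fun y => pr fun a : Fin n → Bool => dotB a f = y

open Classical in
theorem law_eq {n : ℕ} (f : Fin n → F) (y : F) :
    law f y = (∑ a : Fin n → Bool, if dotB a f = y then (1 : ℝ) else 0) / 2 ^ n := by
  simp only [law, pr, Fintype.card_fun, Fintype.card_bool, Fintype.card_fin, Finset.sum_boole,
    Nat.cast_pow, Nat.cast_ofNat]

theorem law_succ {n : ℕ} (f : Fin (n + 1) → F) : law f = step (law (Fin.tail f)) (f 0) := by
  classical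
  funext y
  simp only [step, law_eq]
  rw [← (Fin.consEquiv fun _ : Fin (n + 1) => Bool).sum_comp, Fintype.sum_prod_type,
    Fintype.sum_bool]
  have e1 : ∀ (b : Bool) (a : Fin n → Bool),
      dotB ((Fin.consEquiv fun _ : Fin (n + 1) => Bool) (b, a)) f =
        (if b = true then f 0 else 0) + dotB a (Fin.tail f) := by
    intro b a
    simp only [dotB, Fin.sum_univ_succ, Fin.consEquiv_apply, Fin.cons_zero, Fin.cons_succ,
      Fin.tail]
  simp only [e1, if_true, Bool.false_eq_true, if_false, zero_add]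
  have e2 : ∀ a : Fin n → Bool, (f 0 + dotB a (Fin.tail f) = y) ↔
      (dotB a (Fin.tail f) = y - f 0) := fun a =>
    ⟨fun h => by rw [← h]; ring, fun h => by rw [h]; ring⟩
  simp only [e2]
  rw [pow_succ]
  field_simp
  ring

open Classical in
theorem law_zero (f : Fin 0 → F) (y : F) : law f y = if y = 0 then 1 else 0 := by
  rw [law_eq]
  have e : ∀ a : Fin 0 → Bool, (dotB a f = y) ↔ y = 0 := fun a => by
    unfold dotB; rw [Finset.univ_eq_empty, Finset.sum_empty]; exact eq_comm
  simp only [e]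
  simp

open Classical in
theorem main {r : ℕ} (hr : 1 ≤ r) (hc : ∀ m : ℕ, 1 ≤ m → m ≤ 2 * r → (m : F) ≠ 0) :
    ∀ (n : ℕ) (f : Fin n → F), Good (law f) ∧ ∀ y0, 1 / (r : ℝ) < law f y0 →
      ∑' y, law f y ^ 2 ≤
        1 - ((univ.filter fun i => f i ≠ 0).card : ℝ) / (32 * (r : ℝ) ^ 3) := by
  intro n
  induction n with
  | zero =>
    intro f
    have e : law f = fun y => if y = 0 then 1 else 0 := funext (law_zero f)
    rw [e]
    refine ⟨⟨fun y => by dsimp only; split_ifs <;> norm_num, ?_, by simp⟩, fun _ _ => ?_⟩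
    · exact (Set.finite_singleton (0 : F)).subset fun y hy => by simpa using hy
    · simp
  | succ n ih =>
    intro f
    obtain ⟨hg, hE⟩ := ih (Fin.tail f)
    rw [law_succ]
    refine ⟨good_step hg _, fun y0 hy0 => ?_⟩
    obtain ⟨y1, hy1⟩ : ∃ y1, 1 / (r : ℝ) < law (Fin.tail f) y1 := by
      by_contra hn
      push Not at hn
      have a1 := hn y0
      have a2 := hn (y0 - f 0)
      simp only [step] at hy0
      linarith
    have hE' := hE y1 hy1
    have hcard : ((univ.filter fun i => f i ≠ 0).card : ℝ) =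
        (if f 0 ≠ 0 then 1 else 0) + ((univ.filter fun i => Fin.tail f i ≠ 0).card : ℝ) := by
      rw [← Finset.sum_boole, ← Finset.sum_boole, Fin.sum_univ_succ]
      rfl
    rw [en_step hg.2.1, hcard]
    by_cases hx : f 0 = 0
    · have hD : 0 ≤ ∑' y, (law (Fin.tail f) y - law (Fin.tail f) (y - f 0)) ^ 2 :=
        tsum_nonneg fun y => sq_nonneg _
      rw [if_neg (not_not.2 hx), zero_add]
      linarith
    · have hD := drop hr hc hg hx hy1
      have hr0 : (0 : ℝ) < r := by exact_mod_cast hr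
      rw [if_pos hx, add_div]
      have : 1 / (32 * (r : ℝ) ^ 3) = 1 / (8 * (r : ℝ) ^ 3) / 4 := by field_simp; ring
      linarith

end LOAux

open Classical in
theorem pLO : StLO := by
  intro F _ n r f hr hc hcard
  by_contra hn
  have h := (LOAux.main hr hc n f).2 0 (not_le.1 hn)
  have h0 : 0 ≤ ∑' y, LOAux.law f y ^ 2 := tsum_nonneg fun y => sq_nonneg _
  have hr0 : (0 : ℝ) < r := by exact_mod_cast hr
  have hc' : (32 * (r : ℝ) ^ 3) < ((univ.filter fun i => f i ≠ 0).card : ℝ) := by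
    exact_mod_cast hcard
  have : 1 < ((univ.filter fun i => f i ≠ 0).card : ℝ) / (32 * (r : ℝ) ^ 3) := by
    rw [lt_div_iff₀ (by positivity)]; linarith
  linarith

end Pool.Agent.P.MP_f57657_co.SY
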