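import Pool.Agent.P.MP_f57657_co.SY.Defs

/-! Assembly for the dense count. -/

open Matrix Finset

set_option linter.unusedSectionVars false

namespace Pool.Agent.P.MP_f57657_co.SY

open SX

namespace Main

variable {V : Type} [Fintype V] [DecidableEq V]

theorem am_symm (G : SimpleGraph V) : (am G).IsSymm := by
  ext x y
  simp only [am, Matrix.transpose_apply, Matrix.of_apply]
  by_cases h : G.Adj x y
  · rw [if_pos h, if_pos h.symm]
  · rw [if_neg h, if_neg fun h' => h h'.symm]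

theorem am_nonneg (G : SimpleGraph V) (x y : V) : 0 ≤ am G x y := by
  simp only [am, Matrix.of_apply]
  split_ifs <;> simp

theorem rigid_of_top (hK : StKry) {T : Type} (G : SimpleGraph V) (t : T → V)
    (h : kry (am G) t = ⊤) : Rigid G t := by
  intro H s _ hm
  obtain ⟨w, hw⟩ := hK V T V (am G) (am H) t s id (am_symm G) (am_symm H) (am_nonneg G)
    (am_nonneg H) hm fun l => by rw [h]; trivial
  have hinj : Function.Injective w := fun x y hxy => by
    have h0 := hw 0 (Sum.inr x) (Sum.inr y)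
    simp only [pow_zero, Sum.elim_inr, id, hxy, Matrix.one_apply_eq] at h0
    by_contra hne
    rw [Matrix.one_apply_ne hne] at h0
    exact one_ne_zero h0
  refine ⟨⟨Equiv.ofBijective w (Finite.injective_iff_bijective.1 hinj), ?_⟩, fun i => ?_⟩
  · intro x y
    have h1 := hw 1 (Sum.inr x) (Sum.inr y)
    simp only [pow_one, Sum.elim_inr, id, am, Matrix.of_apply] at h1
    change H.Adj (w x) (w y) ↔ G.Adj x y
    by_cases e1 : H.Adj (w x) (w y) <;> by_cases e2 : G.Adj x y <;> simp_all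
  · have h0 := hw 0 (Sum.inl i) (Sum.inr (t i))
    simp only [pow_zero, Sum.elim_inr, Sum.elim_inl, id, Matrix.one_apply_eq] at h0
    change w (t i) = s i
    by_contra hne
    rw [Matrix.one_apply_ne (Ne.symm hne)] at h0
    exact zero_ne_one h0

theorem ext_adj (G : SimpleGraph V) (t0 t1 : V) (l : ℕ) (x y : V) :
    (extG G t0 t1 l).Adj (Sum.inl x) (Sum.inl y) ↔ G.Adj x y := by
  simp only [extG, SimpleGraph.fromRel_adj, extRel]
  exact ⟨fun h => h.2.elim id fun h => h.symm, fun h => ⟨by simpa using h.ne, Or.inl h⟩⟩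

theorem anc_adj (G : SimpleGraph V) (ρ : V) (tw k : ℕ) (x y : V) :
    (ancG G ρ tw k).Adj (Sum.inl x) (Sum.inl y) ↔ G.Adj x y := by
  simp only [ancG, SimpleGraph.fromRel_adj, ancRel]
  exact ⟨fun h => h.2.elim id fun h => h.symm, fun h => ⟨by simpa using h.ne, Or.inl h⟩⟩

theorem core_adj {N k : ℕ} (G : SimpleGraph (Fin (N + k))) (x y : Fin (N + k)) :
    (coreG G).Adj (Sum.inl x) (Sum.inl y) ↔ G.Adj x y := by
  simp only [coreG, SimpleGraph.fromRel_adj, coreRel]
  exact ⟨fun h => h.2.elim id fun h => h.symm, fun h => ⟨by simpa using h.ne, Or.inl h⟩⟩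

/-- An injective family of rigid rooted graphs on a common vertex type. -/
def Fam (ι : Type) (m r : ℕ) : Prop :=
  ∃ (W : Type) (_ : Fintype W) (_ : DecidableEq W) (F : ι → SimpleGraph W) (t : Fin (m + 1) → W),
    Fintype.card W ≤ r ∧ Function.Injective F ∧ ∀ i, Pre (F i) t ∧ Rigid (F i) t

theorem fam_step (hP : StExtPre) (hR : StExtRigid) {ι : Type} {m r : ℕ} (h : Fam ι (m + 1) r) :
    Fam ι m (3 * r + 33) := by
  obtain ⟨W, i1, i2, F, t, hc, hF, h⟩ := h
  refine ⟨W ⊕ St (3 * (Fintype.card W / 3 + 4) + if Fintype.card W % 3 = 0 then 0 else 3),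
    inferInstance, inferInstance, fun i => extG (F i) (t 0) (t 1) _, extT t _, ?_, ?_, fun i =>
    ⟨hP W m (F i) t _ (by split_ifs <;> omega) (h i).1,
      hR W m (F i) t _ (by split_ifs <;> omega) (h i).1 (h i).2⟩⟩
  · simp only [Fintype.card_sum, Fintype.card_option, Fintype.card_prod, Fintype.card_fin,
      Fintype.card_bool]
    split_ifs <;> omega
  · intro i j hij
    apply hF
    ext x y
    rw [← ext_adj (F i) (t 0) (t 1), ← ext_adj (F j) (t 0) (t 1)]
    simp only at hij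
    rw [hij]

theorem fam_mono {ι : Type} {m r r' : ℕ} (h : Fam ι m r) (hr : r ≤ r') : Fam ι m r' := by
  obtain ⟨W, i1, i2, F, t, hc, hF, h⟩ := h
  exact ⟨W, i1, i2, F, t, hc.trans hr, hF, h⟩

theorem fam_iter (hP : StExtPre) (hR : StExtRigid) {ι : Type} :
    ∀ m r : ℕ, Fam ι m r → Fam ι 0 (3 ^ m * (r + 17)) := by
  intro m
  induction m with
  | zero => exact fun r h => fam_mono h (by omega)
  | succ m ih =>
    intro r h
    refine fam_mono (ih _ (fam_step hP hR h)) ?_
    rw [pow_succ, mul_assoc]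
    exact Nat.mul_le_mul_left _ (by omega)

end Main

open Main in
theorem main_of (hK : StKry) (hPBH : StPBH) (hP : StExtPre) (hR : StExtRigid) (hC : StCorePre)
    (hA : StAnc) (hD : StAncDS) (hRand : StRandom) (hAsy : StAsy) (hCount : StCount)
    (ε : ℝ) (hε : 0 < ε) : ∃ n0 : ℕ, ∀ n ≥ n0, ∃ (M : ℕ) (S : Finset (SimpleGraph (Fin n))),
      GoodFamily M S ∧ (2 : ℝ) ^ ((n : ℝ) ^ (2 - ε)) ≤ S.card := by
  obtain ⟨g, hg, h⟩ := hAsy ε hε
  obtain ⟨N0, hN0⟩ := hRand g hg
  obtain ⟨n0, h⟩ := h N0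
  refine ⟨n0, fun n hn => ?_⟩
  obtain ⟨N, hN, hsz, hq⟩ := h n hn
  have hN1 := hN0 N hN
  have hk2 : 2 ≤ 80 * (Nat.log 2 N / g + 1) := by
    generalize Nat.log 2 N / g = u
    omega
  generalize 80 * (Nat.log 2 N / g + 1) = k at hN1 hk2 hsz
  obtain ⟨S, hS, hcard⟩ := hN1
  have h0 : Fam S k (8 * N + 9 * k + 1) := by
    refine ⟨CV N k, inferInstance, inferInstance, fun G => coreG G.1, coreT N k, ?_, ?_, ?_⟩
    · simp only [Fintype.card_sum, Fintype.card_prod, Fintype.card_fin]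
      omega
    · intro G G' hG
      apply Subtype.ext
      ext x y
      rw [← core_adj G.1, ← core_adj G'.1]
      simp only at hG
      rw [hG]
    · intro G
      obtain ⟨c1, c2⟩ := hC N k G.1 hk2 (hS G.1 G.2)
      have htop := hPBH _ _ _ _ (am_symm _) c1
      exact ⟨c2 htop, rigid_of_top hK _ _ htop⟩
  obtain ⟨W, i1, i2, F, t, hc, hF, hW⟩ := fam_iter hP hR _ _ h0
  rw [show 8 * N + 9 * k + 1 + 17 = 8 * N + 9 * k + 18 by omega] at hc
  set r := Fintype.card W with hr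
  have e1 : (3 * (r / 3 + 1) + 1) % 3 = 1 := by omega
  have e2 : 2 * (r + 2) + 2 ≤ n - r - (3 * (r / 3 + 1) + 1) := by omega
  have e3 : r + 2 ≤ 3 * (r / 3 + 1) + 1 := by omega
  obtain ⟨T, hT, hTc⟩ := hCount
    (W ⊕ (Fin (n - r - (3 * (r / 3 + 1) + 1)) ⊕ Fin (3 * (r / 3 + 1) + 1))) S
    (fun G => ancG (F G) (t 0) _ _) n (Fintype.card (Sym2
      (W ⊕ (Fin (n - r - (3 * (r / 3 + 1) + 1)) ⊕ Fin (3 * (r / 3 + 1) + 1)))))
    (by
      simp only [Fintype.card_sum, Fintype.card_fin]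
      omega)
    (by
      intro i j hij
      apply hF
      ext x y
      rw [← anc_adj (F i) (t 0), ← anc_adj (F j) (t 0)]
      simp only at hij
      rw [hij])
    (fun G => by
      obtain ⟨_, _, _, a4, a5⟩ := hA W (F G) t _ _ e1 e2 (hW G).1
      refine ⟨a4, a5, ?_, hD W (F G) t _ _ e1 e2 e3 (hW G).1 (hW G).2⟩
      rw [← Nat.card_eq_fintype_card, ← Set.ncard_univ]
      exact Set.ncard_le_ncard (Set.subset_univ _))
  refine ⟨_, T, hT, hq _ ?_⟩
  rw [Fintype.card_coe] at hTc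
  calc 2 ^ N.choose 2 ≤ 2 ^ (N + k).choose 2 :=
        Nat.pow_le_pow_right (by omega) (Nat.choose_le_choose 2 (by omega))
    _ ≤ 2 * S.card := hcard
    _ ≤ _ := Nat.mul_le_mul_left _ hTc

end Pool.Agent.P.MP_f57657_co.SY
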