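import Pool.Agent.P.MP_f57657_co.SY.Defs
import Pool.Agent.P.MP_f57657_co.SX.Glue

/-! Package 2: modification of a matrix on marked vertices, restriction to a block. -/

open Matrix Finset

namespace Pool.Agent.P.MP_f57657_co.SY

open SX

namespace ModAux

theorem alg {S V ι : Type} [CommRing S] [Fintype V] [DecidableEq V] [Fintype ι] [DecidableEq ι]
    (x : S) (M R R' : Matrix V V S) (U : Matrix V ι S) (E : Matrix ι ι S) (W : Matrix ι V S)
    (h1 : M * R = 1) (h2 : (M + x • (U * E * W)) * R' = 1) :
    (M + x • (U * E * W)).det = M.det * (1 + x • (W * R * U * E)).det ∧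
      W * R' * U = (1 + x • (W * R * U * E))⁻¹ * (W * R * U) := by
  have h1' : R * M = 1 := mul_eq_one_comm.1 h1
  have e1 : M + x • (U * E * W) = M * (1 + (x • (R * U * E)) * W) := by
    rw [Matrix.mul_add, Matrix.mul_one, Matrix.smul_mul, Matrix.mul_smul]
    simp only [← Matrix.mul_assoc, h1, Matrix.one_mul]
  have e2 : (M + x • (U * E * W)).det = M.det * (1 + x • (W * R * U * E)).det := by
    rw [e1, det_mul, det_one_add_mul_comm, Matrix.mul_smul]
    simp only [Matrix.mul_assoc]
  refine ⟨e2, ?_⟩
  have hu : IsUnit (1 + x • (W * R * U * E)).det := by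
    have := congrArg det h2
    rw [det_mul, det_one, e2] at this
    exact isUnit_of_mul_isUnit_right (IsUnit.of_mul_eq_one _ this)
  have e3 : R' + x • (R * U * E * W * R') = R := by
    have := congrArg (fun N => R * N) h2
    simp only [← Matrix.mul_assoc, Matrix.mul_add, Matrix.add_mul, h1', Matrix.one_mul,
      Matrix.mul_one, Matrix.mul_smul, Matrix.smul_mul] at this
    exact this
  have e4 : (1 + x • (W * R * U * E)) * (W * R' * U) = W * R * U := by
    conv_rhs => rw [← e3]
    simp only [Matrix.mul_assoc, Matrix.mul_add, Matrix.add_mul, Matrix.one_mul,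
      Matrix.mul_smul, Matrix.smul_mul]
  calc W * R' * U = (1 + x • (W * R * U * E))⁻¹ * ((1 + x • (W * R * U * E)) * (W * R' * U)) := by
        rw [← Matrix.mul_assoc (1 + x • (W * R * U * E))⁻¹, Matrix.nonsing_inv_mul _ hu,
          Matrix.one_mul]
    _ = _ := by rw [e4]

open PowerSeries Glue

theorem split {V : Type} [Fintype V] [DecidableEq V] (A D : Matrix V V ℤ) (Q : Finset V)
    (h : ∀ x y, D x y ≠ 0 → x ∈ Q ∧ y ∈ Q) :
    MM (A - D) = MM A + (X : PowerSeries ℤ) • (col (fun x : Q => (x : V)) *
      (Matrix.of fun i j : Q => (C (D i j) : PowerSeries ℤ)) * row (fun x : Q => (x : V))) := by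
  have e : col (fun x : Q => (x : V)) * (Matrix.of fun i j : Q => (C (D i j) : PowerSeries ℤ)) *
      row (fun x : Q => (x : V)) = D.map (C : ℤ → PowerSeries ℤ) := by
    refine Matrix.ext fun x y => ?_
    simp only [Matrix.mul_apply, Glue.col, Glue.row, of_apply, map_apply, ite_mul, one_mul, zero_mul,
      mul_ite, mul_one, mul_zero]
    by_cases hy : y ∈ Q
    · rw [Finset.sum_eq_single ⟨y, hy⟩ (fun b _ hb => if_neg fun e => hb (Subtype.ext e.symm))
        (by simp), if_pos rfl]
      by_cases hx : x ∈ Q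
      · rw [Finset.sum_eq_single ⟨x, hx⟩ (fun b _ hb => if_neg fun e => hb (Subtype.ext e.symm))
          (by simp), if_pos rfl]
      · rw [Finset.sum_eq_zero fun (b : Q) _ => if_neg fun e : x = b.1 => hx (e ▸ b.2),
          not_not.1 fun e => hx (h x y e).1, map_zero]
    · rw [Finset.sum_eq_zero fun (b : Q) _ => if_neg fun e : y = b.1 => hy (e ▸ b.2),
        not_not.1 fun e => hy (h x y e).2, map_zero]
  rw [e]
  refine Matrix.ext fun x y => ?_
  simp only [Matrix.sub_apply, Matrix.add_apply, Matrix.smul_apply, map_apply, map_sub,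
    smul_eq_mul]
  ring

theorem mom_iff {V T : Type} [Fintype V] [DecidableEq V] (A B : Matrix V V ℤ) (t : T → V) :
    Mom A B t t ↔ row t * RR B * col t = row t * RR A * col t := by
  rw [row_col, row_col]
  constructor
  · intro h
    ext i j k
    simp only [of_apply, res, coeff_mk]
    exact h k i j
  · intro h k i j
    have := congrArg (coeff k) (congrFun (congrFun h i) j)
    simpa only [of_apply, res, coeff_mk] using this

end ModAux

open ModAux Glue

theorem pMod : StMod := by
  intro V _ _ A B D Q hD hdd hm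
  have hA := MM_RR (A - D)
  have hB := MM_RR (B - D)
  rw [split A D Q hD] at hA
  rw [split B D Q hD] at hB
  obtain ⟨a1, a2⟩ := alg _ _ _ _ _ _ _ (MM_RR A) hA
  obtain ⟨b1, b2⟩ := alg _ _ _ _ _ _ _ (MM_RR B) hB
  rw [mom_iff] at hm ⊢
  rw [← split A D Q hD] at a1
  rw [← split B D Q hD] at b1
  refine ⟨?_, by rw [a2, b2, hm]⟩
  change (MM (B - D)).det = (MM (A - D)).det
  rw [a1, b1, hm]
  exact congrArg (· * _) hdd

theorem pRestr : StRestr := by
  intro V W _ _ _ _ A h1 h2
  have e : A = fromBlocks (A.submatrix Sum.inl Sum.inl) 0 0 0 := by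
    ext (x | x) (y | y) <;> simp [h1, h2]
  refine ⟨?_, fun k x y => ?_⟩
  · have e2 : MM A = fromBlocks (MM (A.submatrix Sum.inl Sum.inl)) 0 0 1 := by
      refine Matrix.ext fun x y => ?_
      rcases x with x | x <;> rcases y with y | y <;> simp [h1, h2, Matrix.one_apply]
    change (MM A).det = (MM _).det
    rw [e2, det_fromBlocks_zero₂₁, det_one, mul_one]
  · conv_lhs => rw [e, fromBlocks_diagonal_pow]
    rfl

end Pool.Agent.P.MP_f57657_co.SY
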