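import Pool.Agent.P.MP_f57657_co.SY.Defs
import Pool.Agent.P.MP_f57657_co.SX.Two
import Pool.Agent.P.MP_f57657_co.SX.Glue

/-! Package 4: walk counts to the other roots. -/

open Matrix Finset

namespace Pool.Agent.P.MP_f57657_co.SY

open SX SX.Two

namespace MoreAux

theorem inv2 {R : Type} [CommRing R] (x p q s w m00 m01 m10 m11 : R)
    (h00 : m00 = 1 + x * (p * m00 + q * m10)) (h01 : m01 = x * (p * m01 + q * m11))
    (h10 : m10 = x * (s * m00 + w * m10)) (h11 : m11 = 1 + x * (s * m01 + w * m11)) :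
    ((1 - x * p) * (1 - x * w) - x * q * (x * s)) * m00 = 1 - x * w ∧
    ((1 - x * p) * (1 - x * w) - x * q * (x * s)) * m01 = x * q ∧
    ((1 - x * p) * (1 - x * w) - x * q * (x * s)) * m10 = x * s ∧
    ((1 - x * p) * (1 - x * w) - x * q * (x * s)) * m11 = 1 - x * p :=
  ⟨by linear_combination (1 - x * w) * h00 + (x * q) * h10,
    by linear_combination (1 - x * w) * h01 + (x * q) * h11,
    by linear_combination (x * s) * h00 + (1 - x * p) * h10,
    by linear_combination (x * s) * h01 + (1 - x * p) * h11⟩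

theorem alg2 {R : Type} [CommRing R] (z x d d' p q s w m00 m01 m10 m11 u v u' v' : R)
    (hd : d' = d * ((1 - x * p) * (1 - x * w) - x * q * (x * s)))
    (h00 : m00 = 1 + x * (p * m00 + q * m10)) (h01 : m01 = x * (p * m01 + q * m11))
    (h10 : m10 = x * (s * m00 + w * m10)) (h11 : m11 = 1 + x * (s * m01 + w * m11))
    (hu : u' = z * (m00 * u + m01 * v)) (hv : v' = z * (m10 * u + m11 * v)) :
    d' * u' + d' * v' = z * ((d * u + d * v) - x * (d * ((w - s) * u + (p - q) * v))) ∧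
    d' * ((m11 - m10) * u' + (m00 - m01) * v') = z * (d * u + d * v) := by
  obtain ⟨e00, e01, e10, e11⟩ := inv2 x p q s w m00 m01 m10 m11 h00 h01 h10 h11
  have e : ((1 - x * p) * (1 - x * w) - x * q * (x * s)) * (m00 * m11 - m01 * m10) = 1 := by
    linear_combination m11 * e00 - m01 * e10 + h11
  constructor
  · rw [hd, hu, hv]
    linear_combination d * z * u * e00 + d * z * v * e01 + d * z * u * e10 + d * z * v * e11
  · rw [hd, hu, hv]
    linear_combination d * z * (u + v) * e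

variable {V : Type} [Fintype V] [DecidableEq V]

theorem glue2 (h2 : StGlue2) (lay : V → ℕ) (K : SimpleGraph V) (j : ℕ)
    (y r : Fin 2 → V) (hy : ∀ i, lay (y i) = j) (hr : ∀ i, lay (r i) = j + 1) (hne : r 0 ≠ r 1)
    (h : ∀ x x', lay x = j → j ≤ lay x' → (K.Adj x x' ↔ ∃ i, x = y i ∧ x' = r i))
    (τ : V) (hτ : j < lay τ) :
    (∀ x, lay x ≤ j → gA lay K j x τ = PowerSeries.X *
      (gA lay K j x (y 0) * gA lay K (j + 1) (r 0) τ +
        gA lay K j x (y 1) * gA lay K (j + 1) (r 1) τ)) ∧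
    ∀ x, j < lay x → gA lay K j x τ = gA lay K (j + 1) x τ + PowerSeries.X *
      (gA lay K j x (y 0) * gA lay K (j + 1) (r 0) τ +
        gA lay K j x (y 1) * gA lay K (j + 1) (r 1) τ) := by
  have g := h2 V (Fin 2) (up lay j (am K)) 0 (up lay (j + 1) (am K)) y r (fun x => lay x ≤ j)
    (fun x x' e => absurd rfl e)
    (fun x x' e => by
      simp only [up, Matrix.of_apply, ne_eq, ite_eq_right_iff, not_forall] at e
      obtain ⟨e, -⟩ := e
      omega)
    (fun i => (hy i).le) (fun i => by rw [hr]; omega) (split lay K j y r hy hr hne h) τ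
    (by omega)
  simp only [Fin.sum_univ_two] at g
  exact ⟨g.1, fun x hx => g.2 x (by omega)⟩

variable {lay : V → ℕ} {G K : SimpleGraph V} {k1 k0 : ℕ} {ρ : V} {a b : ℕ → V}

omit [Fintype V] [DecidableEq V] in
theorem adjMid (hP : Paths lay G k1 k0 ρ a b) (hK : Ag1 lay G K k0)
    (j : ℕ) (h1 : k1 < j) (h2 : j < k0) (x x' : V) (l1 : lay x = j) (l2 : j ≤ lay x') :
    K.Adj x x' ↔ ∃ i, x = (![a j, b j] : Fin 2 → V) i ∧
      x' = (![a (j + 1), b (j + 1)] : Fin 2 → V) i := by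
  rw [hK x x' (by omega), Fin.exists_fin_two]
  simp only [Matrix.cons_val_zero, Matrix.cons_val_one]
  constructor
  · intro c
    have l3 := hP.layered x x' c
    have u1 := hP.uniq x (by omega) (by omega)
    have u2 := hP.uniq x' (by omega) (by omega)
    rw [l1] at u1
    rcases (by omega : lay x' = j ∨ lay x' = j + 1) with e | e <;> rw [e] at u2 <;>
      rcases u1 with rfl | rfl <;> rcases u2 with rfl | rfl
    · exact absurd c (G.irrefl)
    · exact absurd c (hP.bare j h1 h2.le)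
    · exact absurd c.symm (hP.bare j h1 h2.le)
    · exact absurd c (G.irrefl)
    · exact Or.inl ⟨rfl, rfl⟩
    · exact absurd c (hP.ab j h1 h2.le)
    · exact absurd c (hP.ba j h1 h2.le)
    · exact Or.inr ⟨rfl, rfl⟩
  · rintro (⟨rfl, rfl⟩ | ⟨rfl, rfl⟩)
    · exact hP.aa j h1 h2.le
    · exact hP.bb j h1 h2.le

omit [Fintype V] [DecidableEq V] in
theorem adjTop (hP : Paths lay G k1 k0 ρ a b) (hK : Ag1 lay G K k0)
    (x x' : V) (l1 : lay x = k1) (l2 : k1 ≤ lay x') :
    K.Adj x x' ↔ ∃ i, x = (fun _ : Fin 2 => ρ) i ∧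
      x' = (![a (k1 + 1), b (k1 + 1)] : Fin 2 → V) i := by
  have lt := hP.lt
  rw [hK x x' (by omega), Fin.exists_fin_two]
  simp only [Matrix.cons_val_zero, Matrix.cons_val_one]
  have ex := hP.rho_uniq x l1
  subst ex
  constructor
  · intro c
    have l3 := hP.layered _ x' c
    rcases (by omega : lay x' = k1 ∨ lay x' = k1 + 1) with e | e
    · exact absurd (hP.rho_uniq x' e).symm c.ne
    · have u2 := hP.uniq x' (by omega) (by omega)
      rw [e] at u2
      rcases u2 with u | u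
      · exact Or.inl ⟨rfl, u⟩
      · exact Or.inr ⟨rfl, u⟩
  · rintro (⟨-, rfl⟩ | ⟨-, rfl⟩)
    · exact hP.rho_a
    · exact hP.rho_b

/-- The determinant of one step. -/
noncomputable def dl (lay : V → ℕ) (K : SimpleGraph V) (a b : ℕ → V) (j : ℕ) : PS :=
  (1 - PowerSeries.X ^ 2 * gA lay K j (a j) (a j)) *
      (1 - PowerSeries.X ^ 2 * gA lay K j (b j) (b j)) -
    PowerSeries.X ^ 2 * gA lay K j (a j) (b j) * (PowerSeries.X ^ 2 * gA lay K j (b j) (a j))

theorem lev (hP : Paths lay G k1 k0 ρ a b) (hK : Ag1 lay G K k0)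
    (j : ℕ) (h1 : k1 < j) (h2 : j < k0) :
    dA lay K j = dA lay K (j + 1) * dl lay K a b (j + 1) ∧
    gA lay K j (a j) (a j) = 1 + PowerSeries.X ^ 2 *
      (gA lay K (j + 1) (a (j + 1)) (a (j + 1)) * gA lay K j (a j) (a j) +
        gA lay K (j + 1) (a (j + 1)) (b (j + 1)) * gA lay K j (b j) (a j)) ∧
    gA lay K j (a j) (b j) = PowerSeries.X ^ 2 *
      (gA lay K (j + 1) (a (j + 1)) (a (j + 1)) * gA lay K j (a j) (b j) +
        gA lay K (j + 1) (a (j + 1)) (b (j + 1)) * gA lay K j (b j) (b j)) ∧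
    gA lay K j (b j) (a j) = PowerSeries.X ^ 2 *
      (gA lay K (j + 1) (b (j + 1)) (a (j + 1)) * gA lay K j (a j) (a j) +
        gA lay K (j + 1) (b (j + 1)) (b (j + 1)) * gA lay K j (b j) (a j)) ∧
    gA lay K j (b j) (b j) = 1 + PowerSeries.X ^ 2 *
      (gA lay K (j + 1) (b (j + 1)) (a (j + 1)) * gA lay K j (a j) (b j) +
        gA lay K (j + 1) (b (j + 1)) (b (j + 1)) * gA lay K j (b j) (b j)) := by
  have la := hP.a_lay j h1 (by omega)
  have lb := hP.b_lay j h1 (by omega)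
  have la' := hP.a_lay (j + 1) (by omega) (by omega)
  have lb' := hP.b_lay (j + 1) (by omega) (by omega)
  have n0 := hP.ne j h1 (by omega)
  have n1 := hP.ne (j + 1) (by omega) (by omega)
  obtain ⟨g1, g2⟩ := glue pGlue pBasic lay K j ![a j, b j] ![a (j + 1), b (j + 1)]
    (fun i => by fin_cases i <;> assumption) (fun i => by fin_cases i <;> assumption) n1
    (adjMid hP hK j h1 h2)
  have hY : (Matrix.of fun i k => if (![a j, b j] : Fin 2 → V) i = ![a j, b j] k then 1 else 0 :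
      Matrix (Fin 2) (Fin 2) PS) = 1 := by
    ext1 i k
    fin_cases i <;> fin_cases k <;> simp [n0, n0.symm]
  rw [hY, Matrix.one_mul] at g1 g2
  have e00 := congrFun (congrFun g2 0) 0
  have e01 := congrFun (congrFun g2 0) 1
  have e10 := congrFun (congrFun g2 1) 0
  have e11 := congrFun (congrFun g2 1) 1
  rw [Matrix.det_fin_two] at g1
  simp only [Matrix.add_apply, Matrix.sub_apply, Matrix.smul_apply, Matrix.mul_apply,
    Fin.sum_univ_two, Matrix.of_apply, Matrix.cons_val_zero, Matrix.cons_val_one, smul_eq_mul,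
    Matrix.one_apply_eq, Matrix.one_apply_ne (by decide : (0 : Fin 2) ≠ 1),
    Matrix.one_apply_ne (by decide : (1 : Fin 2) ≠ 0), zero_add, zero_sub, neg_mul_neg]
    at g1 e00 e01 e10 e11
  exact ⟨g1, e00, e01, e10, e11⟩

theorem levY (hg : StGlue2) (hP : Paths lay G k1 k0 ρ a b) (hK : Ag1 lay G K k0)
    (j : ℕ) (h1 : k1 < j) (h2 : j < k0) (τ : V) (hτ : k0 ≤ lay τ) :
    gA lay K j (a j) τ = PowerSeries.X *
      (gA lay K j (a j) (a j) * gA lay K (j + 1) (a (j + 1)) τ +
        gA lay K j (a j) (b j) * gA lay K (j + 1) (b (j + 1)) τ) ∧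
    gA lay K j (b j) τ = PowerSeries.X *
      (gA lay K j (b j) (a j) * gA lay K (j + 1) (a (j + 1)) τ +
        gA lay K j (b j) (b j) * gA lay K (j + 1) (b (j + 1)) τ) ∧
    ∀ x, k0 ≤ lay x → gA lay K j x τ = gA lay K (j + 1) x τ + PowerSeries.X *
      (gA lay K j x (a j) * gA lay K (j + 1) (a (j + 1)) τ +
        gA lay K j x (b j) * gA lay K (j + 1) (b (j + 1)) τ) := by
  have la := hP.a_lay j h1 (by omega)
  have lb := hP.b_lay j h1 (by omega)
  have la' := hP.a_lay (j + 1) (by omega) (by omega)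
  have lb' := hP.b_lay (j + 1) (by omega) (by omega)
  have n1 := hP.ne (j + 1) (by omega) (by omega)
  obtain ⟨g1, g2⟩ := glue2 hg lay K j ![a j, b j] ![a (j + 1), b (j + 1)]
    (fun i => by fin_cases i <;> assumption) (fun i => by fin_cases i <;> assumption) n1
    (adjMid hP hK j h1 h2) τ (by omega)
  exact ⟨g1 _ la.le, g1 _ lb.le, fun x hx => g2 x (by omega)⟩

theorem topY (hg : StGlue2) (hP : Paths lay G k1 k0 ρ a b) (hK : Ag1 lay G K k0)
    (τ : V) (hτ : k0 ≤ lay τ) :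
    gA lay K k1 ρ τ = PowerSeries.X *
      (gA lay K k1 ρ ρ * gA lay K (k1 + 1) (a (k1 + 1)) τ +
        gA lay K k1 ρ ρ * gA lay K (k1 + 1) (b (k1 + 1)) τ) ∧
    ∀ x, k0 ≤ lay x → gA lay K k1 x τ = gA lay K (k1 + 1) x τ + PowerSeries.X *
      (gA lay K k1 x ρ * gA lay K (k1 + 1) (a (k1 + 1)) τ +
        gA lay K k1 x ρ * gA lay K (k1 + 1) (b (k1 + 1)) τ) := by
  have lt := hP.lt
  have la' := hP.a_lay (k1 + 1) (by omega) (by omega)
  have lb' := hP.b_lay (k1 + 1) (by omega) (by omega)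
  have n1 := hP.ne (k1 + 1) (by omega) (by omega)
  obtain ⟨g1, g2⟩ := glue2 hg lay K k1 (fun _ => ρ) ![a (k1 + 1), b (k1 + 1)]
    (fun _ => hP.rho_lay) (fun i => by fin_cases i <;> assumption) n1
    (adjTop hP hK) τ (by omega)
  exact ⟨g1 _ hP.rho_lay.le, fun x hx => g2 x (by omega)⟩

theorem gsym (lay : V → ℕ) (K : SimpleGraph V) (j : ℕ) (x y : V) :
    gA lay K j x y = gA lay K j y x := (pBasic V).2.2.2.2.1 _ (up_symm lay K j) x y

theorem dne (lay : V → ℕ) (K : SimpleGraph V) (j : ℕ) : dA lay K j ≠ 0 := (pBasic V).2.2.1 _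

theorem res_eq {A B : Matrix V V ℤ} {x y x' y' : V} (h : ∀ j, (A ^ j) x y = (B ^ j) x' y') :
    res A x y = res B x' y' := by
  ext j
  simp only [res, PowerSeries.coeff_mk]
  exact h j

/-- The two by two blocks agree. -/
def GE (lay : V → ℕ) (G K : SimpleGraph V) (a b : ℕ → V) (j : ℕ) : Prop :=
  gA lay K j (a j) (a j) = gA lay G j (a j) (a j) ∧
  gA lay K j (a j) (b j) = gA lay G j (a j) (b j) ∧
  gA lay K j (b j) (a j) = gA lay G j (b j) (a j) ∧
  gA lay K j (b j) (b j) = gA lay G j (b j) (b j)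

theorem GE.dl {j : ℕ} (h : GE lay G K a b j) : dl lay K a b j = dl lay G a b j := by
  simp only [MoreAux.dl, h.1, h.2.1, h.2.2.1, h.2.2.2]

theorem ge_all (hP : Paths lay G k1 k0 ρ a b) (hK : Ag1 lay G K k0)
    (h0 : GE lay G K a b k0) (j : ℕ) (h1 : k1 < j) (h2 : j ≤ k0) : GE lay G K a b j := by
  have hGG : Ag1 lay G G k0 := fun _ _ _ => Iff.rfl
  induction h2 using Nat.decreasingInduction with
  | self => exact h0
  | of_succ j hj ih =>
    have ih := ih (by omega)
    obtain ⟨-, u1, u2, u3, u4⟩ := lev hP hK j h1 hj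
    obtain ⟨v0, v1, v2, v3, v4⟩ := lev hP hGG j h1 hj
    have hd : dl lay G a b (j + 1) ≠ 0 := fun e => dne lay G j (by rw [v0, e, mul_zero])
    rw [ih.1, ih.2.1] at u1 u2
    rw [ih.2.2.1, ih.2.2.2] at u3 u4
    obtain ⟨p1, p2, p3, p4⟩ := inv2 _ _ _ _ _ _ _ _ _ u1 u2 u3 u4
    obtain ⟨q1, q2, q3, q4⟩ := inv2 _ _ _ _ _ _ _ _ _ v1 v2 v3 v4
    exact ⟨mul_left_cancel₀ hd (p1.trans q1.symm), mul_left_cancel₀ hd (p2.trans q2.symm),
      mul_left_cancel₀ hd (p3.trans q3.symm), mul_left_cancel₀ hd (p4.trans q4.symm)⟩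

theorem d_all (hP : Paths lay G k1 k0 ρ a b) (hK : Ag1 lay G K k0)
    (h0 : GE lay G K a b k0) (hd : dA lay K (k1 + 1) = dA lay G (k1 + 1))
    (j : ℕ) (h1 : k1 + 1 ≤ j) (h2 : j ≤ k0) : dA lay K j = dA lay G j := by
  have hGG : Ag1 lay G G k0 := fun _ _ _ => Iff.rfl
  induction j, h1 using Nat.le_induction with
  | base => exact hd
  | succ j hj ih =>
    have ih := ih (by omega)
    have u := (lev hP hK j (by omega) (by omega)).1
    have v := (lev hP hGG j (by omega) (by omega)).1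
    have hne : dl lay G a b (j + 1) ≠ 0 := fun e => dne lay G j (by rw [v, e, mul_zero])
    rw [(ge_all hP hK h0 (j + 1) (by omega) h2).dl] at u
    exact mul_right_cancel₀ hne (by rw [← u, ← v, ih])

/-- First linear form. -/
noncomputable def al (lay : V → ℕ) (K : SimpleGraph V) (a b : ℕ → V) (τ : V) (j : ℕ) : PS :=
  dA lay K j * gA lay K j (a j) τ + dA lay K j * gA lay K j (b j) τ

/-- Second linear form. -/
noncomputable def be (lay : V → ℕ) (K : SimpleGraph V) (a b : ℕ → V) (τ : V) (j : ℕ) : PS :=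
  dA lay K j * ((gA lay K j (b j) (b j) - gA lay K j (b j) (a j)) * gA lay K j (a j) τ +
    (gA lay K j (a j) (a j) - gA lay K j (a j) (b j)) * gA lay K j (b j) τ)

theorem albe (hg : StGlue2) (hP : Paths lay G k1 k0 ρ a b) (hK : Ag1 lay G K k0)
    (j : ℕ) (h1 : k1 < j) (h2 : j < k0) (τ : V) (hτ : k0 ≤ lay τ) :
    al lay K a b τ j = PowerSeries.X *
      (al lay K a b τ (j + 1) - PowerSeries.X ^ 2 * be lay K a b τ (j + 1)) ∧
    be lay K a b τ j = PowerSeries.X * al lay K a b τ (j + 1) := by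
  obtain ⟨u0, u1, u2, u3, u4⟩ := lev hP hK j h1 h2
  obtain ⟨y1, y2, -⟩ := levY hg hP hK j h1 h2 τ hτ
  exact alg2 _ _ _ _ _ _ _ _ _ _ _ _ _ _ _ _ u0 u1 u2 u3 u4 y1 y2

theorem pd_al (lay : V → ℕ) (K : SimpleGraph V) (a b : ℕ → V) (τ : V) (j : ℕ) :
    PD (al lay K a b τ j) (Uk lay j).card :=
  have p := (pds pBasic lay K j j le_rfl).2
  pd_add (p _ _) (p _ _)

theorem sep2 (A B : ℕ → PS) (n r : ℕ)
    (h : ∀ m, m < n → A (m + 1) = PowerSeries.X * (A m - PowerSeries.X ^ 2 * B m) ∧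
      B (m + 1) = PowerSeries.X * A m)
    (pB : PD (B 0) r) (pA : PD (A 0) (r + 1)) (z : A n = 0) (hr : r + 1 ≤ n) :
    B 0 = 0 ∧ A 0 = 0 := by
  have key : ∀ m, m ≤ n → A m = PowerSeries.X ^ m * sq (B 0) (A 0) (m + 1) ∧
      B m = PowerSeries.X ^ m * sq (B 0) (A 0) m := by
    intro m
    induction m with
    | zero => exact fun _ => ⟨by rw [pow_zero, one_mul]; rfl, by rw [pow_zero, one_mul]; rfl⟩
    | succ m ih =>
      intro hm
      obtain ⟨a1, a2⟩ := ih (by omega)
      obtain ⟨b1, b2⟩ := h m (by omega)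
      refine ⟨?_, ?_⟩
      · have e : sq (B 0) (A 0) (m + 1 + 1) =
            sq (B 0) (A 0) (m + 1) - PowerSeries.X ^ 2 * sq (B 0) (A 0) m := rfl
        rw [b1, a1, a2, e]
        ring
      · rw [b2, a1]
        ring
  have z1 : sq (B 0) (A 0) (n + 1) = 0 := by
    have e := (key n le_rfl).1
    rw [z] at e
    exact (mul_eq_zero.1 e.symm).resolve_left (pow_ne_zero _ PowerSeries.X_ne_zero)
  exact pSep (sq (B 0) (A 0)) 0 r (n + 1) (fun j _ => rfl) pB pA
    (by rw [mul_zero, zero_mul]; exact z1) (by omega)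

omit [DecidableEq V] in
theorem card_up (hP : Paths lay G k1 k0 ρ a b) (k : ℕ) (h1 : k1 < k) (h2 : k ≤ k0) :
    (Uk lay k).card ≤ (Uk lay (k + 1)).card + 2 := by
  classical
  have : Uk lay k ⊆ insert (a k) (insert (b k) (Uk lay (k + 1))) := by
    intro x hx
    simp only [Uk, mem_filter, mem_univ, true_and, mem_insert] at hx ⊢
    by_cases e : lay x = k
    · have u := hP.uniq x (by omega) (by omega)
      rw [e] at u
      rcases u with u | u
      · exact Or.inl u
      · exact Or.inr (Or.inl u)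
    · exact Or.inr (Or.inr (by omega))
  have c1 := card_le_card this
  have c2 := card_insert_le (a k) (insert (b k) (Uk lay (k + 1)))
  have c3 := card_insert_le (b k) (Uk lay (k + 1))
  omega

theorem y_base (hg : StGlue2) (hP : Paths lay G k1 k0 ρ a b) (hK : Ag1 lay G K k0)
    (h0 : GE lay G K a b k0) (hd0 : dA lay K k0 = dA lay G k0)
    (hne : gA lay G k0 (a k0) (a k0) ≠ gA lay G k0 (b k0) (b k0))
    (hc : (Uk lay k0).card + k1 + 6 ≤ k0) (τ σ : V) (hτ : k0 ≤ lay τ) (hσ : k0 ≤ lay σ)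
    (ht : al lay K a b σ (k1 + 1) = al lay G a b τ (k1 + 1)) :
    gA lay K k0 (a k0) σ = gA lay G k0 (a k0) τ ∧ gA lay K k0 (b k0) σ = gA lay G k0 (b k0) τ := by
  have hGG : Ag1 lay G G k0 := fun _ _ _ => Iff.rfl
  obtain ⟨k, rfl⟩ : ∃ k, k0 = k + 1 := ⟨k0 - 1, by omega⟩
  obtain ⟨sH1, sH2⟩ := albe hg hP hK k (by omega) (by omega) σ hσ
  obtain ⟨sG1, sG2⟩ := albe hg hP hGG k (by omega) (by omega) τ hτ
  have hcard := card_up hP k (by omega) (by omega)
  have hn : k - (k - (k1 + 1)) = k1 + 1 := by omega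
  have pX : ∀ f : PS, PD f (Uk lay (k + 1)).card →
      PD (PowerSeries.X * f) ((Uk lay (k + 1)).card + 1) := fun f hf => by
    have := Glue.pd_mul (Glue.pd_X_pow 1) hf
    rwa [pow_one, add_comm] at this
  obtain ⟨z1, z2⟩ := sep2
    (fun m => al lay K a b σ (k - m) - al lay G a b τ (k - m))
    (fun m => be lay K a b σ (k - m) - be lay G a b τ (k - m)) (k - (k1 + 1))
    ((Uk lay (k + 1)).card + 1)
    (fun m hm => by
      have e : k - m = k - (m + 1) + 1 := by omega
      obtain ⟨t1, t2⟩ := albe hg hP hK (k - (m + 1)) (by omega) (by omega) σ hσ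
      obtain ⟨u1, u2⟩ := albe hg hP hGG (k - (m + 1)) (by omega) (by omega) τ hτ
      rw [e]
      exact ⟨by linear_combination t1 - u1, by linear_combination t2 - u2⟩)
    (by
      show PD (be lay K a b σ k - be lay G a b τ k) _
      rw [sH2, sG2]
      exact pd_sub (pX _ (pd_al _ _ _ _ _ _)) (pX _ (pd_al _ _ _ _ _ _)))
    (Glue.pd_mono (pd_sub (pd_al lay K a b σ k) (pd_al lay G a b τ k)) (by omega))
    (by rw [hn, ht, sub_self]) (by omega)
  simp only [Nat.sub_zero] at z1 z2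
  have hX : (PowerSeries.X : PS) ≠ 0 := PowerSeries.X_ne_zero
  have e1 : al lay K a b σ (k + 1) = al lay G a b τ (k + 1) :=
    mul_left_cancel₀ hX (by linear_combination z1 - sH2 + sG2)
  have e2 : be lay K a b σ (k + 1) = be lay G a b τ (k + 1) :=
    mul_left_cancel₀ (mul_ne_zero hX x2_ne) (by
      linear_combination sH1 - sG1 - z2 + PowerSeries.X * e1)
  simp only [al, be, hd0, h0.1, h0.2.1, h0.2.2.1, h0.2.2.2] at e1 e2
  rw [gsym lay G (k + 1) (b (k + 1)) (a (k + 1))] at e2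
  have hd := dne lay G (k + 1)
  have e3 : gA lay K (k + 1) (a (k + 1)) σ = gA lay G (k + 1) (a (k + 1)) τ :=
    mul_left_cancel₀ (mul_ne_zero hd (sub_ne_zero.2 hne)) (by
      linear_combination (gA lay G (k + 1) (a (k + 1)) (a (k + 1)) -
        gA lay G (k + 1) (a (k + 1)) (b (k + 1))) * e1 - e2)
  rw [e3] at e1
  exact ⟨e3, mul_left_cancel₀ hd (add_left_cancel e1)⟩

theorem y_all (hg : StGlue2) (hP : Paths lay G k1 k0 ρ a b) (hK : Ag1 lay G K k0)
    (h0 : GE lay G K a b k0) (τ σ : V) (hτ : k0 ≤ lay τ) (hσ : k0 ≤ lay σ)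
    (hb : gA lay K k0 (a k0) σ = gA lay G k0 (a k0) τ ∧
      gA lay K k0 (b k0) σ = gA lay G k0 (b k0) τ) (j : ℕ) (h1 : k1 < j) (h2 : j ≤ k0) :
    gA lay K j (a j) σ = gA lay G j (a j) τ ∧ gA lay K j (b j) σ = gA lay G j (b j) τ := by
  have hGG : Ag1 lay G G k0 := fun _ _ _ => Iff.rfl
  induction h2 using Nat.decreasingInduction with
  | self => exact hb
  | of_succ j hj ih =>
    have ih := ih (by omega)
    obtain ⟨u1, u2, -⟩ := levY hg hP hK j h1 hj σ hσ
    obtain ⟨v1, v2, -⟩ := levY hg hP hGG j h1 hj τ hτ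
    obtain ⟨g1, g2, g3, g4⟩ := ge_all hP hK h0 j h1 hj.le
    exact ⟨by rw [u1, v1, g1, g2, ih.1, ih.2], by rw [u2, v2, g3, g4, ih.1, ih.2]⟩

end MoreAux

open MoreAux in
theorem pMore (h : StGlue2) : StMore := by
  intro V _ _ lay G H k1 k0 ρ a b T t s hP hH ht hs hd hM h2 hne hc
  have hGG : Ag1 lay G G k0 := fun _ _ _ => Iff.rfl
  have lt := hP.lt
  have hd' : dA lay H k1 = dA lay G k1 := hd
  have hM' : ∀ o o' : Option T, gA lay H k1 (o.elim ρ s) (o'.elim ρ s) =
      gA lay G k1 (o.elim ρ t) (o'.elim ρ t) := fun o o' => res_eq fun j => hM j o o'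
  have g1 : gA lay H k1 ρ ρ = gA lay G k1 ρ ρ := hM' none none
  have g2 : ∀ i, gA lay H k1 ρ (s i) = gA lay G k1 ρ (t i) := fun i => hM' none (some i)
  have g3 : ∀ i, gA lay H k1 (s i) ρ = gA lay G k1 (t i) ρ := fun i => hM' (some i) none
  have g4 : ∀ i i', gA lay H k1 (s i) (s i') = gA lay G k1 (t i) (t i') :=
    fun i i' => hM' (some i) (some i')
  have hab : gA lay H k0 (a k0) (b k0) = gA lay G k0 (a k0) (b k0) :=
    res_eq fun j => (h2 j).2.2
  have h0 : GE lay G H a b k0 := ⟨res_eq fun j => (h2 j).1, hab,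
    by rw [gsym lay H, gsym lay G, hab], res_eq fun j => (h2 j).2.1⟩
  have r2 := (root pGlue pBasic hP hH).2
  have r4 := (root pGlue pBasic hP hGG).2
  have d1 : dA lay H (k1 + 1) = dA lay G (k1 + 1) := by rw [← r2, ← r4, hd', g1]
  have d0 := d_all hP hH h0 d1 k0 (by omega) le_rfl
  have hne' : gA lay G k0 (a k0) (a k0) ≠ gA lay G k0 (b k0) (b k0) := fun e => by
    obtain ⟨j, hj⟩ := hne
    exact hj (coe_eq e j)
  have yb : ∀ i, gA lay H k0 (a k0) (s i) = gA lay G k0 (a k0) (t i) ∧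
      gA lay H k0 (b k0) (s i) = gA lay G k0 (b k0) (t i) := fun i => by
    refine y_base h hP hH h0 d0 hne' hc (t i) (s i) (ht i) (hs i) ?_
    have u := (topY h hP hH (s i) (hs i)).1
    have v := (topY h hP hGG (t i) (ht i)).1
    refine mul_left_cancel₀ (PowerSeries.X_ne_zero (R := ℤ)) ?_
    simp only [al]
    rw [← r2, ← r4, hd']
    rw [g2, v] at u
    linear_combination (-dA lay G k1) * u
  have ya := fun i => y_all h hP hH h0 (t i) (s i) (ht i) (hs i) (yb i)
  have tt : ∀ i i' j, k1 + 1 ≤ j → j ≤ k0 →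
      gA lay H j (s i) (s i') = gA lay G j (t i) (t i') := by
    intro i i' j hj
    induction j, hj using Nat.le_induction with
    | base =>
      intro hj
      have u := (topY h hP hH (s i') (hs i')).2 (s i) (hs i)
      have v := (topY h hP hGG (t i') (ht i')).2 (t i) (ht i)
      obtain ⟨y1, y2⟩ := ya i' (k1 + 1) (by omega) hj
      rw [g4, g3, y1, y2, v] at u
      exact (add_right_cancel u).symm
    | succ j hj ih =>
      intro hj'
      have u := (levY h hP hH j (by omega) (by omega) (s i') (hs i')).2.2 (s i) (hs i)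
      have v := (levY h hP hGG j (by omega) (by omega) (t i') (ht i')).2.2 (t i) (ht i)
      obtain ⟨y1, y2⟩ := ya i' (j + 1) (by omega) hj'
      obtain ⟨y3, y4⟩ := ya i j (by omega) (by omega)
      rw [gsym lay H j (s i) (a j), gsym lay H j (s i) (b j), ih (by omega), y1, y2, y3, y4] at u
      rw [gsym lay G j (t i) (a j), gsym lay G j (t i) (b j), u] at v
      exact add_right_cancel v
  refine ⟨d0, fun k i i' => coe_eq (A := up lay k0 (am H)) (B := up lay k0 (am G)) ?_ k⟩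
  show gA lay H k0 _ _ = gA lay G k0 _ _
  rcases i with c | i <;> rcases i' with c' | i'
  · cases c <;> cases c'
    · exact h0.1
    · exact h0.2.1
    · exact h0.2.2.1
    · exact h0.2.2.2
  · cases c
    · exact (yb i').1
    · exact (yb i').2
  · rw [gsym lay H, gsym lay G]
    cases c'
    · exact (yb i).1
    · exact (yb i).2
  · exact tt i i' k0 (by omega) le_rfl

end Pool.Agent.P.MP_f57657_co.SY
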