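import Pool.Agent.P.MP_f57657_co.SY.Defs

/-! Numerical estimates for the random dense part and the final count. -/

open Filter Topology

namespace Pool.Agent.P.MP_f57657_co.SY

open SX

namespace NumAux

theorem small (x : ℝ) (a b c : ℕ) (hx : x ≤ 2 ^ a) (h : a + b + 4 ≤ c) :
    x * (2 ^ b / 2 ^ c) ≤ 1 / 12 := by
  have h1 : (2 : ℝ) ^ (a + b + 4) ≤ 2 ^ c := pow_le_pow_right₀ (by norm_num) h
  have h2 : (0 : ℝ) < 2 ^ c := by positivity
  have h3 : (0 : ℝ) < 2 ^ b := by positivity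
  have h4 : (0 : ℝ) < 2 ^ a := by positivity
  rw [← mul_div_assoc, div_le_iff₀ h2]
  have h5 : x * 2 ^ b ≤ 2 ^ a * 2 ^ b := mul_le_mul_of_nonneg_right hx h3.le
  have h6 : (2 : ℝ) ^ (a + b + 4) = 2 ^ a * 2 ^ b * 16 := by rw [pow_add, pow_add]; norm_num
  have h7 : (0 : ℝ) < 2 ^ a * 2 ^ b := mul_pos h4 h3
  rw [h6] at h1
  linarith

theorem frac (c k : ℕ) : ((2 : ℝ) / 2 ^ c) ^ k = 2 ^ k / 2 ^ (c * k) := by
  rw [div_pow, ← pow_mul]

theorem eighty (m : ℕ) (hm : 2 ≤ m) : 80 * m ≤ 2 ^ (4 * m) := by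
  induction m, hm using Nat.le_induction with
  | base => norm_num
  | succ k hk ih =>
    have : 2 ^ (4 * (k + 1)) = 2 ^ (4 * k) * 16 := by rw [mul_add, pow_add]; norm_num
    omega

theorem first (s : ℕ) (hs : 1 ≤ s) : ∃ N0 : ℕ, ∀ N ≥ N0,
    ((N : ℝ) + 1) ^ s * (s : ℝ) * (1 - (1 / 2) ^ s) ^ (N - s) ≤ 1 / 12 := by
  set r : ℝ := 1 - (1 / 2) ^ s with hr
  have h1 : ((1 : ℝ) / 2) ^ s < 1 := pow_lt_one₀ (by norm_num) (by norm_num) (by omega)
  have h2 : (0 : ℝ) < (1 / 2) ^ s := by positivity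
  have hr0 : 0 < r := by rw [hr]; linarith
  have hr1 : r < 1 := by rw [hr]; linarith
  have ht : Tendsto (fun n : ℕ => (n : ℝ) ^ s * r ^ n) atTop (𝓝 0) :=
    tendsto_pow_const_mul_const_pow_of_abs_lt_one s (by rw [abs_of_pos hr0]; exact hr1)
  have hs0 : (0 : ℝ) < s := by exact_mod_cast hs
  have hc : (0 : ℝ) < r ^ (s + 1) / (12 * s) := by positivity
  have he := (ht.eventually (gt_mem_nhds hc))
  obtain ⟨M, hM⟩ := eventually_atTop.1 he
  refine ⟨M + s, fun N hN => ?_⟩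
  have h3 := hM (N + 1) (by omega)
  have h4 : r ^ (N + 1) = r ^ (N - s) * r ^ (s + 1) := by
    rw [← pow_add]; congr 1; omega
  push_cast at h3
  rw [h4, lt_div_iff₀ (by positivity)] at h3
  have h5 : (0 : ℝ) < r ^ (s + 1) := by positivity
  have h6 : (((N : ℝ) + 1) ^ s * s * r ^ (N - s) * 12) * r ^ (s + 1) < 1 * r ^ (s + 1) := by
    linarith
  have h7 := lt_of_mul_lt_mul_right h6 h5.le
  linarith

theorem poly (x : ℝ) (a : ℕ) (h0 : 0 ≤ x) (hx : x ≤ 2 ^ a) :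
    (20 * x ^ 3 + 20) * x ≤ 2 ^ (4 * a + 6) := by
  have h1 : (1 : ℝ) ≤ 2 ^ a := one_le_pow₀ (by norm_num)
  set y : ℝ := 2 ^ a with hy
  have h2 : x ^ 3 ≤ y ^ 3 := pow_le_pow_left₀ h0 hx 3
  have h3 : (1 : ℝ) ≤ y ^ 3 := one_le_pow₀ h1
  have h4 : (2 : ℝ) ^ (4 * a + 6) = y ^ 3 * y * 64 := by
    rw [hy, pow_add, mul_comm 4 a, pow_mul]; ring
  rw [h4]
  have h5 : 20 * x ^ 3 + 20 ≤ 64 * y ^ 3 := by linarith
  calc (20 * x ^ 3 + 20) * x ≤ (64 * y ^ 3) * y :=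
        mul_le_mul h5 hx h0 (by positivity)
    _ = y ^ 3 * y * 64 := by ring

theorem last (C m : ℕ) (hm : 12 * C ≤ m) :
    (C : ℝ) * 4 ^ (8 * m) * (3 / 4) ^ (64 * m) ≤ 1 / 12 := by
  have h1 : (4 : ℝ) ^ (8 * m) * (3 / 4) ^ (64 * m) = (4 ^ 8 * (3 / 4) ^ 64) ^ m := by
    rw [mul_pow, ← pow_mul, ← pow_mul]
  have h2 : ((4 : ℝ) ^ 8 * (3 / 4) ^ 64) ^ m ≤ (1 / 2) ^ m :=
    pow_le_pow_left₀ (by positivity) (by norm_num) m
  have h3 : (12 * C : ℝ) ≤ 2 ^ m := by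
    have : 12 * C ≤ 2 ^ m := hm.trans Nat.lt_two_pow_self.le
    exact_mod_cast this
  have h4 : (0 : ℝ) < 2 ^ m := by positivity
  rw [mul_assoc, h1]
  calc (C : ℝ) * (4 ^ 8 * (3 / 4) ^ 64) ^ m ≤ C * (1 / 2) ^ m :=
        mul_le_mul_of_nonneg_left h2 (by positivity)
    _ = C / 2 ^ m := by rw [one_div, inv_pow, div_eq_mul_inv]
    _ ≤ 1 / 12 := by rw [div_le_iff₀ h4]; linarith

theorem root (K n : ℕ) (hK : 1 ≤ K) : ∃ t, t ^ K ≤ n ∧ n < (t + 1) ^ K := by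
  have hex : ∃ t, n < (t + 1) ^ K :=
    ⟨n, lt_of_lt_of_le (Nat.lt_succ_self n) (Nat.le_self_pow (by omega) _)⟩
  classical
  refine ⟨Nat.find hex, ?_, Nat.find_spec hex⟩
  rcases h : Nat.find hex with _ | t
  · rw [zero_pow (by omega)]; exact Nat.zero_le _
  · have := Nat.find_min hex (m := t) (by omega)
    omega

theorem two_mul_le (t : ℕ) (ht : 1 ≤ t) : 2 * t ≤ 2 ^ t := by
  induction t, ht using Nat.le_induction with
  | base => norm_num
  | succ k hk ih => rw [pow_succ]; omega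

theorem partA (k t : ℕ) (ht : (6000 * 3 ^ 80 + 20) ^ 2 ≤ t) :
    4 * (3 ^ (80 * (Nat.log 2 (t ^ (k + 3)) / (320 * (k + 3)) + 1)) *
      (8 * t ^ (k + 3) + 9 * (80 * (Nat.log 2 (t ^ (k + 3)) / (320 * (k + 3)) + 1)) + 18)) + 20
      ≤ t ^ (k + 4) := by
  have ht1 : 1 ≤ t := le_trans (by norm_num) ht
  set N := t ^ (k + 3) with hN
  have hN1 : 1 ≤ N := Nat.one_le_pow _ _ ht1
  set L := Nat.log 2 N with hL
  set u := L / (320 * (k + 3)) with hu
  have hLN : 2 ^ L ≤ N := Nat.pow_log_le_self 2 (by omega)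
  have huL : 320 * (k + 3) * u ≤ L := Nat.mul_div_le _ _
  have huN : u ≤ N := by
    have h1 : u ≤ L := Nat.div_le_self _ _
    have h2 : L < 2 ^ L := Nat.lt_two_pow_self
    omega
  set A := 3 ^ (80 * u) with hA
  have hA1 : 1 ≤ A := Nat.one_le_pow _ _ (by norm_num)
  have hA2 : A ^ 2 ≤ t := by
    have h1 : A ≤ 2 ^ (160 * u) := by
      calc A ≤ 4 ^ (80 * u) := Nat.pow_le_pow_left (by norm_num) _
        _ = 2 ^ (160 * u) := by
          rw [show (4 : ℕ) = 2 ^ 2 by norm_num, ← pow_mul]; congr 1; ring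
    have h2 : (A ^ 2) ^ (k + 3) ≤ t ^ (k + 3) := by
      calc (A ^ 2) ^ (k + 3) ≤ ((2 ^ (160 * u)) ^ 2) ^ (k + 3) :=
            Nat.pow_le_pow_left (Nat.pow_le_pow_left h1 _) _
        _ = 2 ^ (320 * (k + 3) * u) := by rw [← pow_mul, ← pow_mul]; congr 1; ring
        _ ≤ 2 ^ L := Nat.pow_le_pow_right (by norm_num) huL
        _ ≤ N := hLN
    exact (Nat.pow_le_pow_iff_left (by omega)).1 h2
  have h3 : 3 ^ (80 * (u + 1)) = 3 ^ 80 * A := by rw [hA, ← pow_add]; congr 1; ring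
  rw [h3]
  generalize (3 : ℕ) ^ 80 = c at ht ⊢
  set C := 6000 * c + 20 with hC
  have h4 : C * A ≤ t := by
    have h5 : (C * A) ^ 2 ≤ t ^ 2 := by
      calc (C * A) ^ 2 = C ^ 2 * A ^ 2 := mul_pow _ _ _
        _ ≤ t * t := Nat.mul_le_mul ht hA2
        _ = t ^ 2 := (sq t).symm
    exact (Nat.pow_le_pow_iff_left (by omega)).1 h5
  have h6 : 8 * N + 9 * (80 * (u + 1)) + 18 ≤ 1500 * N := by omega
  have h7 : 1 ≤ A * N := Nat.mul_pos hA1 hN1
  calc 4 * (c * A * (8 * N + 9 * (80 * (u + 1)) + 18)) + 20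
      ≤ 4 * (c * A * (1500 * N)) + 20 * (A * N) := by
        have := Nat.mul_le_mul_left (c * A) h6
        omega
    _ = C * A * N := by rw [hC]; ring
    _ ≤ t * N := Nat.mul_le_mul_right _ h4
    _ = t ^ (k + 4) := by rw [hN]; ring

theorem choose_ge (N : ℕ) (hN : 2 ≤ N) : N ^ 2 ≤ 4 * N.choose 2 := by
  induction N, hN using Nat.le_induction with
  | base => norm_num
  | succ k hk ih =>
    have : (k + 1).choose 2 = k + k.choose 2 := by
      rw [Nat.choose_succ_succ, Nat.choose_one_right]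
    rw [this]
    nlinarith

theorem partB (k t n q : ℕ)
    (ht : 4 * (1 + (k + 4) * 2 ^ (k + 4) + 2 ^ (2 * k + 4)) ≤ t) (hn : n ≤ (2 * t) ^ (k + 4))
    (hq : 2 ^ (t ^ (k + 3)).choose 2 ≤ 2 * (q * n.factorial)) :
    2 ^ (2 * t) ^ (2 * k + 4) ≤ q := by
  have ht2 : 2 ≤ t := by
    generalize (k + 4) * 2 ^ (k + 4) = a at ht
    generalize 2 ^ (2 * k + 4) = b at ht
    omega
  have hn2 : n ≤ 2 ^ (t * (k + 4)) := by
    rw [pow_mul]; exact hn.trans (Nat.pow_le_pow_left (two_mul_le t (by omega)) _)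
  set F := t * (k + 4) * (2 * t) ^ (k + 4) with hF
  have hf : n.factorial ≤ 2 ^ F := by
    calc n.factorial ≤ n ^ n := Nat.factorial_le_pow n
      _ ≤ (2 ^ (t * (k + 4))) ^ n := Nat.pow_le_pow_left hn2 _
      _ = 2 ^ (t * (k + 4) * n) := by rw [← pow_mul]
      _ ≤ 2 ^ F := Nat.pow_le_pow_right (by norm_num) (Nat.mul_le_mul_left _ hn)
  set E := (2 * t) ^ (2 * k + 4) with hE
  set P := t ^ (2 * k + 5) with hP
  have hP1 : 1 ≤ P := Nat.one_le_pow _ _ (by omega)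
  have hF1 : F ≤ (k + 4) * 2 ^ (k + 4) * P := by
    have h1 : t ^ (k + 5) ≤ P := Nat.pow_le_pow_right (by omega) (by omega)
    calc F = (k + 4) * 2 ^ (k + 4) * t ^ (k + 5) := by rw [hF, mul_pow]; ring
      _ ≤ _ := Nat.mul_le_mul_left _ h1
  have hE1 : E ≤ 2 ^ (2 * k + 4) * P := by
    have h1 : t ^ (2 * k + 4) ≤ P := Nat.pow_le_pow_right (by omega) (by omega)
    rw [hE, mul_pow]
    exact Nat.mul_le_mul_left _ h1
  have hN2 : 2 ≤ t ^ (k + 3) := ht2.trans (Nat.le_self_pow (by omega) _)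
  have hc := choose_ge _ hN2
  have hsq : (t ^ (k + 3)) ^ 2 = t * P := by rw [hP, ← pow_mul]; ring
  have hsum : 4 * (1 + F + E) ≤ t * P := by
    calc 4 * (1 + F + E) ≤ 4 * (P + (k + 4) * 2 ^ (k + 4) * P + 2 ^ (2 * k + 4) * P) := by omega
      _ = 4 * (1 + (k + 4) * 2 ^ (k + 4) + 2 ^ (2 * k + 4)) * P := by ring
      _ ≤ t * P := Nat.mul_le_mul_right _ ht
  have hle : 1 + F + E ≤ (t ^ (k + 3)).choose 2 := by omega
  have h1 : 2 ^ E * (2 * 2 ^ F) ≤ q * (2 * 2 ^ F) := by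
    calc 2 ^ E * (2 * 2 ^ F) = 2 ^ (1 + F + E) := by ring
      _ ≤ 2 ^ (t ^ (k + 3)).choose 2 := Nat.pow_le_pow_right (by norm_num) hle
      _ ≤ 2 * (q * n.factorial) := hq
      _ ≤ 2 * (q * 2 ^ F) := Nat.mul_le_mul_left _ (Nat.mul_le_mul_left _ hf)
      _ = q * (2 * 2 ^ F) := by ring
  exact Nat.le_of_mul_le_mul_right h1 (by positivity)

end NumAux

open NumAux

theorem pNum : StNum := by
  intro g hg
  have hs : 1 ≤ 32 * (2 ^ g) ^ 3 := Nat.mul_pos (by norm_num) (by positivity)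
  obtain ⟨N1, hN1⟩ := first (32 * (2 ^ g) ^ 3) hs
  set C := 2 * 2 ^ g * (g * (2 * 2 ^ g) ^ g) with hC
  refine ⟨N1 + 2 ^ (g * (12 * C + g + 4)), fun N hN m n hm hn => ?_⟩
  have hpos : 0 < 2 ^ (g * (12 * C + g + 4)) := by positivity
  have hN0 : N ≠ 0 := by omega
  have hL : g * (12 * C + g + 4) ≤ Nat.log 2 N :=
    Nat.le_log_of_pow_le (by norm_num) (by omega)
  have hm1 : 12 * C + g + 4 ≤ m := by
    have : 12 * C + g + 4 ≤ Nat.log 2 N / g :=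
      (Nat.le_div_iff_mul_le (by omega)).2 (by rw [mul_comm]; exact hL)
    omega
  have hgm : Nat.log 2 N + 1 ≤ g * m := by
    have := Nat.lt_mul_div_succ (Nat.log 2 N) (show 0 < g by omega)
    rw [hm]; omega
  have hNlt : N < 2 ^ (g * m) :=
    lt_of_lt_of_le (Nat.lt_pow_succ_log_self (by norm_num) N)
      (Nat.pow_le_pow_right (by norm_num) hgm)
  have h4m : 4 * m ≤ g * m := Nat.mul_le_mul_right _ hg
  have h80 : 80 * m ≤ 2 ^ (g * m) :=
    (eighty m (by omega)).trans (Nat.pow_le_pow_right (by norm_num) h4m)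
  have hn1 : n ≤ 2 ^ (g * m + 1) := by rw [pow_succ]; omega
  have hnR : (n : ℝ) ≤ 2 ^ (g * m + 1) := by exact_mod_cast hn1
  have hn0 : (0 : ℝ) ≤ n := Nat.cast_nonneg n
  have hmm : g * m + 4 * m ≤ m * m := by
    have : (g + 4) * m ≤ m * m := Nat.mul_le_mul_right _ (by omega)
    rw [add_mul] at this; exact this
  have hp := poly (n : ℝ) (g * m + 1) hn0 hnR
  refine ⟨hN1 N (by omega), ?_, ?_, ?_, ?_, last C m (by omega)⟩
  · rw [frac]
    refine small _ ((g * m + 1) + (g * m + 1)) _ _ ?_ ?_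
    · rw [pow_add]; exact mul_le_mul hnR hnR hn0 (by positivity)
    · have : m * (2 * m) = 2 * (m * m) := by ring
      omega
  · rw [frac]
    refine small _ ((g * m + 1) + (4 * (g * m + 1) + 6)) _ _ ?_ ?_
    · rw [pow_add]; exact mul_le_mul hnR hp (by positivity) (by positivity)
    · have : 2 * m * (4 * m) = 8 * (m * m) := by ring
      omega
  · push_cast
    rw [frac]
    refine small _ ((g * m + 1) + g * (4 * m)) _ _ ?_ ?_
    · rw [pow_add, ← pow_mul]; exact mul_le_mul_of_nonneg_right hnR (by positivity)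
    · have h1 : g * (4 * m) = 4 * (g * m) := by ring
      have h2 : g * (16 * m) = 16 * (g * m) := by ring
      omega
  · rw [frac]
    refine small _ ((4 * (g * m + 1) + 6) + g * (8 * m)) _ _ ?_ ?_
    · rw [pow_add, ← pow_mul]; exact mul_le_mul_of_nonneg_right hp (by positivity)
    · have h1 : g * (8 * m) = 8 * (g * m) := by ring
      have h2 : g * (64 * m) = 64 * (g * m) := by ring
      omega

theorem pAsy : StAsy := by
  intro ε hε
  obtain ⟨k, hk⟩ := exists_nat_ge (4 / ε)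
  refine ⟨320 * (k + 3), by omega, fun N0 => ?_⟩
  set T := N0 + (6000 * 3 ^ 80 + 20) ^ 2 +
    4 * (1 + (k + 4) * 2 ^ (k + 4) + 2 ^ (2 * k + 4)) + 1 with hT
  refine ⟨T ^ (k + 4), fun n hn => ?_⟩
  obtain ⟨t, ht1, ht2⟩ := root (k + 4) n (by omega)
  have hTt : T ≤ t := by
    have : T ^ (k + 4) < (t + 1) ^ (k + 4) := lt_of_le_of_lt hn ht2
    have := lt_of_pow_lt_pow_left₀ _ (Nat.zero_le _) this
    omega
  have ha : N0 ≤ t := le_trans (by rw [hT]; omega) hTt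
  have hb : (6000 * 3 ^ 80 + 20) ^ 2 ≤ t :=
    le_trans (by rw [hT]; generalize (6000 * 3 ^ 80 + 20) ^ 2 = c; omega) hTt
  have hc : 4 * (1 + (k + 4) * 2 ^ (k + 4) + 2 ^ (2 * k + 4)) ≤ t :=
    le_trans (by rw [hT]; omega) hTt
  have hd : 1 ≤ t := le_trans (by rw [hT]; omega) hTt
  refine ⟨t ^ (k + 3), ha.trans (Nat.le_self_pow (by omega) _), (partA k t hb).trans ht1, ?_⟩
  intro q hq
  have hn2 : n ≤ (2 * t) ^ (k + 4) := ht2.le.trans (Nat.pow_le_pow_left (by omega) _)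
  have h1 := partB k t n q hc hn2 hq
  have hn1 : 1 ≤ n := (Nat.one_le_pow _ _ hd).trans ht1
  have hn1R : (1 : ℝ) ≤ n := by exact_mod_cast hn1
  have hk4 : (0 : ℝ) < (k : ℝ) + 4 := by positivity
  have hexp : 2 - ε ≤ ((2 * k + 4 : ℕ) : ℝ) / ((k + 4 : ℕ) : ℝ) := by
    push_cast
    rw [le_div_iff₀ hk4]
    rw [ge_iff_le, div_le_iff₀ hε] at *
    nlinarith
  have h2 : (n : ℝ) ^ (2 - ε) ≤ (((2 * t) ^ (2 * k + 4) : ℕ) : ℝ) := by
    calc (n : ℝ) ^ (2 - ε) ≤ (n : ℝ) ^ (((2 * k + 4 : ℕ) : ℝ) / ((k + 4 : ℕ) : ℝ)) :=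
          Real.rpow_le_rpow_of_exponent_le hn1R hexp
      _ ≤ (((2 * t : ℕ) : ℝ) ^ (k + 4)) ^ (((2 * k + 4 : ℕ) : ℝ) / ((k + 4 : ℕ) : ℝ)) :=
          Real.rpow_le_rpow (by positivity) (by exact_mod_cast hn2) (by positivity)
      _ = (((2 * t) ^ (2 * k + 4) : ℕ) : ℝ) := by
          rw [← Real.rpow_natCast, ← Real.rpow_mul (by positivity),
            mul_div_cancel₀ _ (by positivity), Real.rpow_natCast]
          push_cast; ring
  calc (2 : ℝ) ^ ((n : ℝ) ^ (2 - ε)) ≤ (2 : ℝ) ^ ((((2 * t) ^ (2 * k + 4) : ℕ) : ℝ)) :=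
        Real.rpow_le_rpow_of_exponent_le (by norm_num) h2
    _ = ((2 ^ (2 * t) ^ (2 * k + 4) : ℕ) : ℝ) := by rw [Real.rpow_natCast]; push_cast; rfl
    _ ≤ q := by exact_mod_cast h1

end Pool.Agent.P.MP_f57657_co.SY
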