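import Pool.Agent.P.MP_f57657_co.SY.Defs

/-! Odlyzko-type bounds and the points of small degree. -/

open Matrix Finset

namespace Pool.Agent.P.MP_f57657_co.SY

open SX

namespace OdlAux

/-- an event whose members are determined by the coordinates outside `C` -/
theorem count {n : ℕ} (E : (Fin n → Bool) → Prop) (C : Finset (Fin n))
    (h : ∀ a b, E a → E b → (∀ j, j ∉ C → a j = b j) → a = b) : pr E ≤ (1 / 2) ^ C.card := by
  classical
  have h1 : (univ.filter E).card ≤ (univ : Finset ({j // j ∉ C} → Bool)).card :=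
    card_le_card_of_injOn (fun a j => a j.1) (fun _ _ => mem_coe.2 (mem_univ _))
      fun a ha b hb e => h a b (by simpa using ha) (by simpa using hb)
        fun j hj => congrFun e ⟨j, hj⟩
  have h2 : C.card ≤ n := by simpa using card_le_univ C
  have h3 : (univ : Finset ({j // j ∉ C} → Bool)).card * 2 ^ C.card = 2 ^ n := by
    rw [card_univ, Fintype.card_fun, Fintype.card_bool, Fintype.card_subtype_compl, ← pow_add]
    simp [Nat.sub_add_cancel h2]
  have h4 : (univ.filter E).card * 2 ^ C.card ≤ 2 ^ n := h3 ▸ Nat.mul_le_mul_right _ h1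
  rw [pr, Fintype.card_fun, Fintype.card_bool, Fintype.card_fin, one_div, inv_pow, ← one_div,
    div_le_div_iff₀ (by positivity) (by positivity), one_mul]
  exact_mod_cast (by convert h4)

/-- a random subsum vanishes with probability at most `2 ^ (-rank)` -/
theorem key {R M : Type} [Field R] [AddCommGroup M] [Module R M] {n : ℕ} (v : Fin n → M) :
    pr (fun a : Fin n → Bool => ∑ j, (if a j = true then v j else 0) = 0) ≤
      (1 / 2) ^ Module.finrank R (Submodule.span R (Set.range v)) := by
  classical
  obtain ⟨κ, t, ht, hs, hl⟩ := exists_linearIndependent' R v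
  have := Fintype.ofInjective t ht
  rw [← hs, finrank_span_eq_card hl, ← card_univ, ← card_image_of_injective _ ht]
  refine count _ _ fun a b ha hb h => ?_
  have e : ∀ c : Fin n → Bool, ∀ j, (if c j = true then v j else 0) =
      (if c j = true then (1 : R) else 0) • v j := fun c j => by split_ifs <;> simp
  have h1 : ∑ j, ((if a j = true then (1 : R) else 0) - if b j = true then 1 else 0) • v j = 0 := by
    simp only [sub_smul, sum_sub_distrib, ← e, ha, hb, sub_zero]
  rw [← sum_subset (subset_univ (univ.image t)) fun j _ hj => by rw [h j hj, sub_self, zero_smul],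
    sum_image fun _ _ _ _ e => ht e] at h1
  funext j
  by_cases hj : j ∈ univ.image t
  · obtain ⟨i, -, rfl⟩ := mem_image.1 hj
    have := Fintype.linearIndependent_iff.1 hl _ h1 i
    revert this
    cases a (t i) <;> cases b (t i) <;> simp
  · exact h j hj

theorem half_anti {a b : ℕ} (h : a ≤ b) : (1 / 2 : ℝ) ^ b ≤ (1 / 2) ^ a :=
  pow_le_pow_of_le_one (by norm_num) (by norm_num) h

end OdlAux

open OdlAux

theorem pOdl : StOdl := by
  intro F _ n K
  have h := key (R := F) fun j : Fin n => (LinearMap.proj j).comp K.subtype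
  rw [Submodule.span_eq_top_of_ne_zero, finrank_top] at h
  · convert h using 3
    · refine ⟨fun e => LinearMap.ext fun f => ?_, fun e f hf => ?_⟩
      · simpa [dotB, LinearMap.sum_apply, apply_ite fun g : K →ₗ[F] F => g f] using e f f.2
      · simpa [dotB, LinearMap.sum_apply, apply_ite fun g : K →ₗ[F] F => g ⟨f, hf⟩] using
          LinearMap.congr_fun e ⟨f, hf⟩
    · exact Subspace.dual_finrank_eq.symm
  · intro z hz
    obtain ⟨j, hj⟩ := Function.ne_iff.1 fun e => hz (Subtype.ext e)
    exact ⟨_, ⟨j, rfl⟩, hj⟩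

theorem pOdlDeg : StOdlDeg := by
  intro p n D θ f hf hl hs
  refine (key (R := ZMod p.1) f).trans (half_anti ?_)
  obtain ⟨j, hj⟩ := Function.ne_iff.1 hf
  set W := Submodule.span (ZMod p.1) (Set.range f)
  have h1 : ∀ y ∈ W, θ * y ∈ W := fun y hy => by
    induction hy using Submodule.span_induction with
    | mem x hx => obtain ⟨i, rfl⟩ := hx; exact hs i
    | zero => simp
    | add x y _ _ a b => rw [mul_add]; exact add_mem a b
    | smul c x _ a => rw [mul_smul_comm]; exact W.smul_mem c a
  have h2 : ∀ i : ℕ, θ ^ i * f j ∈ W := fun i => by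
    induction i with
    | zero => rw [pow_zero, one_mul]; exact Submodule.subset_span ⟨j, rfl⟩
    | succ i ih => rw [pow_succ', mul_assoc]; exact h1 _ ih
  have h3 := hl.map' (LinearMap.mulRight (ZMod p.1) (f j))
    (LinearMap.ker_eq_bot.2 (mul_left_injective₀ hj))
  have : Module.Finite (ZMod p.1) W := Module.Finite.span_of_finite _ (Set.finite_range f)
  simpa using (LinearIndependent.of_comp (v := fun i : Fin D => (⟨_, h2 i⟩ : W)) W.subtype
    h3).fintype_card_le_finrank

open Polynomial in
theorem pSmall : StSmall := by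
  classical
  intro P D
  let T : ∀ p : Nat.Primes, Finset (FF p) := fun p => univ.biUnion fun g : Fin D → ZMod p.1 =>
    (ofFn D fun i => algebraMap (ZMod p.1) (FF p) (g i)).roots.toFinset
  let Q : Finset Nat.Primes := (Icc 1 P).subtype Nat.Prime
  have hQ : ∀ p : Nat.Primes, p ∈ Q ↔ p.1 ≤ P := fun p =>
    mem_subtype.trans (mem_Icc.trans (and_iff_right p.2.one_le))
  refine ⟨Q.sigma T, ?_, fun q hq h => mem_sigma.2 ⟨(hQ _).2 hq, ?_⟩⟩
  · rw [card_sigma]
    refine (sum_le_card_nsmul _ _ (D * P ^ D) fun p hp => ?_).trans (Nat.mul_le_mul_right _ ?_)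
    · refine (card_biUnion_le_card_mul _ _ D fun g _ => ?_).trans ?_
      · exact (Multiset.toFinset_card_le _).trans ((card_roots' _).trans
          (natDegree_le_of_degree_le (ofFn_degree_lt _).le))
      · rw [card_univ, Fintype.card_fun, ZMod.card, Fintype.card_fin, mul_comm]
        exact Nat.mul_le_mul_left _ (Nat.pow_le_pow_left ((hQ p).1 hp) D)
    · exact (card_subtype _ _).trans_le ((card_filter_le _ _).trans (by simp))
  · obtain ⟨g, h1, i, hi⟩ := Fintype.not_linearIndependent_iff.1 h
    refine mem_biUnion.2 ⟨g, mem_univ _, Multiset.mem_toFinset.2 ((mem_roots fun e => hi ?_).2 ?_)⟩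
    · have := ofFn_coeff_eq_val_of_lt (fun i => algebraMap (ZMod q.1.1) (FF q.1) (g i)) i.2
      rw [e, coeff_zero] at this
      exact (map_eq_zero _).1 this.symm
    · rw [IsRoot, ofFn_eq_sum_monomial, eval_finsetSum, ← h1]
      exact sum_congr rfl fun i _ => by rw [eval_monomial, Algebra.smul_def]

end Pool.Agent.P.MP_f57657_co.SY
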