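import Pool.Agent.P.MP_f57657_co.SY.Defs

/-! Controllability modulo every prime gives the whole lattice. -/

open Matrix Finset

namespace Pool.Agent.P.MP_f57657_co.SY

open SX

namespace PBHAux

variable {V : Type} [Fintype V] [DecidableEq V]

/-- A proper sublattice is killed by a nonzero vector modulo a prime. -/
theorem exists_vec (L : Submodule ℤ (V → ℤ)) (hL : L ≠ ⊤) :
    ∃ (p : ℕ) (g : V → ZMod p), p.Prime ∧ (∃ x, g x ≠ 0) ∧
      ∀ v ∈ L, ∑ x, ((v x : ℤ) : ZMod p) * g x = 0 := by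
  obtain ⟨M, hM, hLM⟩ := (eq_top_or_exists_le_coatom L).resolve_left hL
  obtain ⟨I, hI, ⟨e⟩⟩ := isSimpleModule_iff_quot_maximal.1 (isSimpleModule_iff_isCoatom.2 hM)
  obtain ⟨a, rfl⟩ := (IsPrincipalIdealRing.principal I).principal
  have a0 : a ≠ 0 := fun h => Ring.ne_bot_of_isMaximal_of_not_isField hI Int.not_isField
    (by simp [h])
  have hp : a.natAbs.Prime :=
    Int.prime_iff_natAbs_prime.1 ((Ideal.span_singleton_prime a0).1 hI.isPrime)
  let φ : (V → ℤ) →+ ZMod a.natAbs :=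
    ((Int.quotientSpanEquivZMod a).toAddMonoidHom.comp e.toLinearMap.toAddMonoidHom).comp
      M.mkQ.toAddMonoidHom
  have h0 : ∀ v, φ v = 0 ↔ v ∈ M := fun v => by
    change Int.quotientSpanEquivZMod a (e (M.mkQ v)) = 0 ↔ _
    rw [map_eq_zero_iff _ (Int.quotientSpanEquivZMod a).injective,
      map_eq_zero_iff _ e.injective, Submodule.mkQ_apply, Submodule.Quotient.mk_eq_zero]
  have h1 : ∀ v, φ v = ∑ x, ((v x : ℤ) : ZMod a.natAbs) * φ (Pi.single x 1) := fun v => by
    conv_lhs => rw [← univ_sum_single v, map_sum]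
    refine sum_congr rfl fun x _ => ?_
    rw [← zsmul_eq_mul, ← map_zsmul, ← Pi.single_smul', smul_eq_mul, mul_one]
  refine ⟨_, fun x => φ (Pi.single x 1), hp, ?_, fun v hv => (h1 v).symm.trans
    ((h0 v).2 (hLM hv))⟩
  by_contra h
  push Not at h
  exact hM.1 (eq_top_iff.2 fun v _ => (h0 v).1 (by simp [h1 v, h]))

/-- An unobservable vector gives an unobservable eigenvector. -/
theorem exists_eig {F T : Type} [Field F] [IsAlgClosed F] (B : Matrix V V F) (t : T → V)
    (g : V → F) (hg : g ≠ 0) (h : ∀ k i, (B ^ k *ᵥ g) (t i) = 0) :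
    ∃ (θ : F) (f : V → F), f ≠ 0 ∧ (∀ i, f (t i) = 0) ∧ B *ᵥ f = θ • f := by
  let U : Submodule F (V → F) :=
    { carrier := {f | ∀ k i, (B ^ k *ᵥ f) (t i) = 0}
      add_mem' := fun ha hb k i => by rw [mulVec_add, Pi.add_apply, ha, hb, add_zero]
      zero_mem' := fun k i => by simp
      smul_mem' := fun c f hf k i => by rw [mulVec_smul, Pi.smul_apply, hf, smul_zero] }
  have hU : ∀ f ∈ U, toLin' B f ∈ U := fun f hf k i => by
    rw [toLin'_apply, mulVec_mulVec, ← pow_succ]; exact hf _ i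
  have : Nontrivial U := ⟨⟨⟨g, h⟩, 0, fun e => hg (congrArg Subtype.val e)⟩⟩
  obtain ⟨θ, hθ⟩ := Module.End.exists_eigenvalue ((toLin' B).restrict hU)
  obtain ⟨f, hf⟩ := hθ.exists_hasEigenvector
  exact ⟨θ, f, fun e => hf.2 (Subtype.ext e), fun i => by simpa using f.2 0 i,
    congrArg Subtype.val hf.apply_eq_smul⟩

end PBHAux

theorem pPBH : StPBH := by
  intro V _ _ T A t hA hC
  by_contra hL
  obtain ⟨p, g, hp, ⟨x, hx⟩, hg⟩ := PBHAux.exists_vec _ hL
  have := Fact.mk hp
  obtain ⟨θ, f, f0, f1, f2⟩ := PBHAux.exists_eig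
    (A.map (Int.castRingHom (AlgebraicClosure (ZMod p)))) t (fun y => algebraMap _ _ (g y))
    (fun e => hx ((map_eq_zero _).1 (congrFun e x))) fun k i => by
      have := congrArg (algebraMap (ZMod p) (AlgebraicClosure (ZMod p)))
        (hg _ (Submodule.subset_span ⟨k, i, rfl⟩))
      rw [map_sum, map_zero] at this
      rw [← Matrix.map_pow, ← this]
      refine sum_congr rfl fun y _ => ?_
      rw [map_mul, map_intCast, (hA.pow k).apply]
      rfl
  exact f0 (funext (hC p θ f f1 fun y => congrFun f2 y))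

end Pool.Agent.P.MP_f57657_co.SY
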