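import Pool.Agent.P.MP_f57657_co.SY.Defs

/-! The union bound: half of all dense parts are controlled by their last vertices. -/

open Matrix Finset

namespace Pool.Agent.P.MP_f57657_co.SY

open SX

namespace RandAux

theorem pr_union {Ω : Type} [Fintype Ω] {E A B : Ω → Prop} (h : ∀ ω, E ω → A ω ∨ B ω) :
    pr E ≤ pr A + pr B := by
  classical
  unfold pr
  rw [← add_div]
  refine div_le_div_of_nonneg_right ?_ (Nat.cast_nonneg _)
  rw [← Nat.cast_add, Nat.cast_le]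
  refine le_trans (Finset.card_le_card ?_) (Finset.card_union_le _ _)
  intro ω hω
  simp only [Finset.mem_union, Finset.mem_filter, Finset.mem_univ, true_and] at hω ⊢
  exact h ω hω

theorem good_of_nu {N k j : ℕ} (G : SimpleGraph (Fin (N + k)))
    (h : ∀ q : Pt, nu (FF q.1) G N j q.2 = 0) : CoreGood N k G := by
  intro p hp θ f hf he
  have h0 := h ⟨⟨p, hp.out⟩, θ⟩
  have hb : KK (FF ⟨p, hp.out⟩) G N j θ = ⊥ := Submodule.finrank_eq_zero.1 h0
  have hm : f ∈ KK (FF ⟨p, hp.out⟩) G N j θ := by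
    refine ⟨fun i hi => ?_, fun i _ => he i⟩
    have := hf ⟨i.val - N, by have := i.isLt; omega⟩
    have e : (Fin.natAdd N (⟨i.val - N, by have := i.isLt; omega⟩ : Fin k) : Fin (N + k)) = i :=
      Fin.ext (by simp only [Fin.val_natAdd]; omega)
    simpa only [e] using this
  rw [hb, Submodule.mem_bot] at hm
  intro x
  exact congrFun hm x

end RandAux

open RandAux in
theorem pRandom (h1 : StE1) (h2 : StE2) (h3 : StE3) (h4 : StE4) (h5 : StE5) (hN : StNum)
    (hM : StMany) : StRandom := by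
  intro g hg
  obtain ⟨N0, hN0⟩ := hN g hg
  refine ⟨N0, fun N hNN => ?_⟩
  obtain ⟨m, hm⟩ : ∃ m, m = Nat.log 2 N / g + 1 := ⟨_, rfl⟩
  rw [← hm]
  have hm1 : 1 ≤ m := by rw [hm]; exact Nat.le_add_left _ _
  obtain ⟨b1, b2, b3, b4, b5, b6⟩ := hN0 N hNN m (N + 80 * m) hm rfl
  refine hM (N + 80 * m) (CoreGood N (80 * m)) ?_
  have a1 := (h1 (N + 80 * m) N (32 * (2 ^ g) ^ 3) (by omega)).trans b1
  have a2 := (h2 (N + 80 * m) N m (by omega) hm1).trans b2
  have a3 := (h3 (N + 80 * m) N m (by omega) hm1 (by omega)).trans b3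
  have a4 := (h4 (N + 80 * m) N (16 * m) (4 * m) (2 ^ g) (by omega) Nat.one_le_two_pow).trans b4
  have a5 := (h5 (N + 80 * m) N (16 * m) (64 * m) (8 * m) g (by omega)).trans (add_le_add b5 b6)
  refine le_trans (pr_union (A := fun ω => ¬ Supp (gOf ω) N (32 * (2 ^ g) ^ 3))
    (B := fun ω => Supp (gOf ω) N (32 * (2 ^ g) ^ 3) ∧ ¬ CoreGood N (80 * m) (gOf ω))
    fun ω hω => by tauto) ?_
  refine le_trans (add_le_add a1 (le_trans (pr_union (fun ω hω => ?_)) (add_le_add a2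
    (le_trans (pr_union (E := fun ω : Om (N + 80 * m) => Null0 (gOf ω) N (4 * m) ∧
      Supp (gOf ω) N (32 * (2 ^ g) ^ 3) ∧ ¬ CoreGood N (80 * m) (gOf ω)) (fun ω hω => ?_))
      (add_le_add a3
    (le_trans (pr_union (E := fun ω : Om (N + 80 * m) => NullP (gOf ω) N (8 * m) ∧
      Null0 (gOf ω) N (4 * m) ∧
      Supp (gOf ω) N (32 * (2 ^ g) ^ 3) ∧ ¬ CoreGood N (80 * m) (gOf ω)) (fun ω hω => ?_))
      (add_le_add a4 a5))))))) (by norm_num)
  · tauto
  · tauto
  · obtain ⟨hP, h0, hS, hC⟩ := hω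
    by_cases hθ : ∃ θ : ℝ, 1 ≤ nu ℝ (gOf ω) N (16 * m) θ
    · exact Or.inl ⟨hS, h0, hθ⟩
    · refine Or.inr ⟨hS, hP, fun θ => ?_, ?_⟩
      · by_contra hne
        exact hθ ⟨θ, Nat.one_le_iff_ne_zero.2 hne⟩
      · by_contra hq
        refine hC (good_of_nu (j := 16 * m + 64 * m) _ fun q => ?_)
        by_contra hne
        exact hq ⟨q, Nat.one_le_iff_ne_zero.2 hne⟩

end Pool.Agent.P.MP_f57657_co.SY
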