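import Pool.Agent.P.MP_f57657_co.SY.Defs

/-! Rows of the sample, bordering, supports of eigenvectors, number of eigenvalues. -/

open Matrix Finset

namespace Pool.Agent.P.MP_f57657_co.SY

open SX

namespace RowAux

variable {n : ℕ} {F : Type} [Field F]

theorem am_iff {G H : SimpleGraph (Fin n)} {x y x' y' : Fin n} (h : G.Adj x y ↔ H.Adj x' y') :
    am G x y = am H x' y' := by
  simp only [am, Matrix.of_apply]
  rw [propext h]

theorem adj_set (ω : Om n) (i : ℕ) (a : Fin n → Bool) {x y : Fin n} (hx : x.val ≠ i)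
    (hy : y.val ≠ i) : (gOf (setRow ω i a)).Adj x y ↔ (gOf ω).Adj x y := by
  simp only [gOf, SimpleGraph.fromRel_adj, setRow, if_neg hx, if_neg hy]

theorem sum_set (ω : Om n) (i : ℕ) (a : Fin n → Bool) {x : Fin n} (hx : x.val ≠ i)
    {f : Fin n → F} (hf : ∀ l : Fin n, l.val = i → f l = 0) :
    ∑ l, ((am (gOf (setRow ω i a)) x l : ℤ) : F) * f l = ∑ l, ((am (gOf ω) x l : ℤ) : F) * f l := by
  refine sum_congr rfl fun l _ => ?_
  by_cases h : l.val = i
  · rw [hf l h, mul_zero, mul_zero]
  · rw [am_iff (adj_set ω i a hx h)]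

theorem mem {G : SimpleGraph (Fin n)} {s j : ℕ} {θ : F} {f : Fin n → F} :
    f ∈ KK F G s j θ ↔ (∀ i : Fin n, s ≤ i.val → f i = 0) ∧
      ∀ i : Fin n, i.val < s + j → ∑ l, ((am G i l : ℤ) : F) * f l = θ * f i := Iff.rfl

theorem symm (G : SimpleGraph (Fin n)) (x y : Fin n) : am G x y = am G y x :=
  am_iff (G.adj_comm x y)

theorem pair (G : SimpleGraph (Fin n)) (θ : F) (f g : Fin n → F) :
    ∑ i, f i * (∑ l, ((am G i l : ℤ) : F) * g l - θ * g i) =
      ∑ l, g l * (∑ i, ((am G l i : ℤ) : F) * f i - θ * f l) := by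
  simp only [mul_sub, sum_sub_distrib, mul_sum]
  rw [sum_comm]
  congr 1
  · exact sum_congr rfl fun l _ => sum_congr rfl fun i _ => by rw [symm G i l]; ring
  · exact sum_congr rfl fun l _ => by ring

theorem finrank_le_inf (K : Submodule F (Fin n → F)) (φ : (Fin n → F) →ₗ[F] F) :
    Module.finrank F K ≤ Module.finrank F ↥(K ⊓ LinearMap.ker φ) + 1 := by
  have h := (φ.domRestrict K).finrank_range_add_finrank_ker
  have h1 : Module.finrank F (LinearMap.range (φ.domRestrict K)) ≤ 1 :=
    (Submodule.finrank_le _).trans (Module.finrank_self F).le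
  rw [LinearMap.ker_domRestrict, ← Submodule.finrank_map_subtype_eq K,
    Submodule.map_comap_subtype] at h
  omega

end RowAux

open RowAux

theorem pRow : StRow := by
  intro F _ n ω a θ i s j
  refine ⟨fun h => ?_, fun h s0 => ?_, fun hi f hf => ?_⟩
  · ext f
    rw [mem, mem]
    refine and_congr_right fun h0 => forall₂_congr fun x hx => ?_
    rw [sum_set ω i a (by omega) fun l hl => h0 l (by omega)]
  · refine forall_congr' fun S => forall_congr' fun hS => forall_congr' fun _ =>
      forall₂_congr fun x _ => exists_congr fun y => and_congr_right fun hy =>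
        and_congr_right fun _ => forall₂_congr fun z hz => ?_
    have := hS z hz
    rw [adj_set ω i a (by omega) (by omega)]
  · refine sum_congr rfl fun l _ => ?_
    rcases le_or_gt i l.val with h | h
    · rw [hf l h, mul_zero, ite_self]
    · have e : (gOf (setRow ω i a)).Adj ⟨i, hi⟩ l ↔ a l = true := by
        simp only [gOf, SimpleGraph.fromRel_adj, setRow, if_true, Fin.lt_def, ne_eq, Fin.ext_iff]
        exact ⟨fun h' => h'.2.elim (·.2) fun h' => by omega, fun h' => ⟨by omega, Or.inl ⟨h, h'⟩⟩⟩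
      simp only [am, Matrix.of_apply, e]
      split_ifs <;> simp

theorem pBord : StBord := by
  intro F _ n G θ s hs
  have down : ∀ g ∈ KK F G (s + 1) 0 θ, g ⟨s, hs⟩ = 0 → g ∈ KK F G s 0 θ := fun g hg h0 =>
    ⟨fun i hi => by
      rcases hi.eq_or_lt with e | e
      · rwa [show i = ⟨s, hs⟩ from Fin.ext e.symm]
      · exact hg.1 i e, fun i hi => hg.2 i (by omega)⟩
  refine ⟨?_, ?_, ?_, fun N j e => ?_⟩
  · refine (finrank_le_inf _ (LinearMap.proj ⟨s, hs⟩)).trans (Nat.add_le_add_right ?_ 1)
    exact Submodule.finrank_mono fun g hg => down g hg.1 hg.2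
  · have := LinearMap.finrank_le_finrank_of_injective
      (f := (LinearMap.funLeft F F (Fin.castLE hs.le)) ∘ₗ (KK F G s 0 θ).subtype) <| by
        rw [injective_iff_map_eq_zero]
        intro g hg
        ext i
        rcases le_or_gt s i.val with h | h
        · exact g.2.1 i h
        · exact congrFun hg ⟨i.val, h⟩
    rwa [Module.finrank_fin_fun] at this
  · rintro ⟨f, hf, h⟩
    have f0 : f ⟨s, hs⟩ = 0 := hf.1 _ le_rfl
    refine Submodule.finrank_lt_finrank_of_lt (lt_of_le_of_ne (fun g hg => down g hg ?_) fun e => ?_)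
    · have p := pair G θ f g
      rw [sum_eq_zero fun i _ => ?_, sum_eq_single ⟨s, hs⟩ (fun l _ hl => ?_) (by simp), f0,
        mul_zero, sub_zero] at p
      · exact (mul_eq_zero.1 p.symm).resolve_right h
      · rcases lt_or_gt_of_ne (fun e => hl (Fin.ext e) : l.val ≠ s) with c | c
        · rw [hf.2 l c, sub_self, mul_zero]
        · rw [hg.1 l c, zero_mul]
      · rcases le_or_gt s i.val with c | c
        · rw [hf.1 i c, zero_mul]
        · rw [hg.2 i (by omega), sub_self, mul_zero]
    · rw [← e] at hf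
      exact h (by rw [hf.2 ⟨s, hs⟩ (by simp), f0, mul_zero])
  · have le : KK F G N (j + 1) θ ≤ KK F G N j θ := fun g hg => ⟨hg.1, fun i hi => hg.2 i (by omega)⟩
    refine ⟨Submodule.finrank_mono le, ?_⟩
    rintro ⟨f, hf, h⟩
    refine Submodule.finrank_lt_finrank_of_lt (lt_of_le_of_ne le fun e' => ?_)
    rw [← e'] at hf
    exact h (by rw [hf.2 ⟨s, hs⟩ (by simp; omega), hf.1 ⟨s, hs⟩ (by simp; omega), mul_zero])

theorem pSuppVec : StSuppVec := by
  classical
  intro F _ n G N j s0 θ f hS hf h0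
  by_contra hc
  obtain ⟨x, hx⟩ := Function.ne_iff.1 h0
  obtain ⟨i, hi, i0, h⟩ := hS (univ.filter fun i => f i ≠ 0)
    (fun l hl => not_le.1 fun c => (mem_filter.1 hl).2 (hf.1 l c)) (by convert not_lt.1 hc) x
    (mem_filter.2 ⟨mem_univ _, hx⟩)
  have e := hf.2 i (by omega)
  rw [not_not.1 fun c => i0 (mem_filter.2 ⟨mem_univ _, c⟩), mul_zero,
    sum_eq_single x (fun l _ hl => ?_) (by simp)] at e
  · have : G.Adj i x := (h x (mem_filter.2 ⟨mem_univ _, hx⟩)).2 rfl
    simp only [am, Matrix.of_apply, if_pos this, Int.cast_one, one_mul] at e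
    exact hx e
  · by_cases c : f l = 0
    · rw [c, mul_zero]
    · have : ¬ G.Adj i l := fun a => hl ((h l (mem_filter.2 ⟨mem_univ _, c⟩)).1 a)
      simp only [am, Matrix.of_apply, if_neg this, Int.cast_zero, zero_mul]

theorem pEig : StEig := by
  classical
  intro F _ n G s j
  set B : Matrix (Fin n) (Fin n) F :=
    Matrix.of fun i l => if i.val < s then ((am G i l : ℤ) : F) else 0 with hB
  refine ⟨B.charpoly.roots.toFinset, ?_, fun θ h => ?_⟩
  · refine (Multiset.toFinset_card_le _).trans ((Polynomial.card_roots' _).trans ?_)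
    rw [Matrix.charpoly_natDegree_eq_dim, Fintype.card_fin]
  · obtain ⟨f, hf, h0⟩ := Submodule.exists_mem_ne_zero_of_ne_bot (p := KK F G s j θ) fun e => by
      rw [nu, e, finrank_bot] at h
      omega
    rw [Multiset.mem_toFinset, Polynomial.mem_roots B.charpoly_monic.ne_zero, Polynomial.IsRoot,
      Matrix.eval_charpoly, ← Matrix.exists_mulVec_eq_zero_iff]
    refine ⟨f, h0, funext fun i => ?_⟩
    rw [Matrix.sub_mulVec, Pi.sub_apply, Matrix.scalar_apply, Matrix.mulVec_diagonal,
      Pi.zero_apply, sub_eq_zero]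
    simp only [Matrix.mulVec, dotProduct, hB, Matrix.of_apply]
    split_ifs with c
    · exact (hf.2 i (by omega)).symm
    · simp [hf.1 i (not_lt.1 c)]

end Pool.Agent.P.MP_f57657_co.SY
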