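import Pool.Agent.P.MP_f57657_co.SY.Defs

/-! The supermartingale bound for row by row exposure, and the count of good graphs. -/

open Matrix Finset

namespace Pool.Agent.P.MP_f57657_co.SY

open SX

namespace SMAux

/-- Exchange of row `k` of the sample with a fresh row. -/
def swapRow {n : ℕ} (k : Fin n) (p : Om n × (Fin n → Bool)) : Om n × (Fin n → Bool) :=
  (setRow p.1 k.val p.2, fun j => p.1 (k, j))

theorem swapRow_inv {n : ℕ} (k : Fin n) : Function.Involutive (swapRow k) := by
  rintro ⟨ω, a⟩
  refine Prod.ext ?_ ?_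
  · funext q
    obtain ⟨i, j⟩ := q
    by_cases h : i.val = k.val
    · have hik : i = k := Fin.ext h
      subst hik
      simp [swapRow, setRow]
    · simp [swapRow, setRow, h]
  · funext j
    simp [swapRow, setRow]

/-- Resampling one row does not change the uniform measure. -/
theorem resample {n : ℕ} (k : ℕ) (hk : k < n) (F : Om n → ℝ) :
    ∑ ω, ∑ a : Fin n → Bool, F (setRow ω k a) = 2 ^ n * ∑ ω, F ω := by
  have h1 : ∑ p : Om n × (Fin n → Bool), F (swapRow ⟨k, hk⟩ p).1 =
      ∑ p : Om n × (Fin n → Bool), F p.1 :=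
    (swapRow_inv (⟨k, hk⟩ : Fin n)).bijective.sum_comp fun p => F p.1
  rw [Fintype.sum_prod_type, Fintype.sum_prod_type] at h1
  simp only [swapRow] at h1
  rw [h1, Finset.mul_sum]
  refine Finset.sum_congr rfl fun ω _ => ?_
  simp

/-- The bits of the sample that the graph does not see. -/
abbrev Hid (n : ℕ) : Type := {q : Fin n × Fin n // ¬ q.2 < q.1}

theorem card_hid (n : ℕ) : n.choose 2 + Fintype.card (Hid n) = n * n := by
  have h1 : (univ.filter fun q : Fin n × Fin n => q.1 < q.2).card = n.choose 2 := by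
    have := Finset.card_product_filter_lt (s := (univ : Finset (Fin n)))
    rw [univ_product_univ] at this
    simpa using this
  have h2 : (univ.filter fun q : Fin n × Fin n => q.2 < q.1).card =
      (univ.filter fun q : Fin n × Fin n => q.1 < q.2).card := by
    refine Finset.card_bij (fun q _ => q.swap) ?_ ?_ ?_
    · intro q hq
      simpa using hq
    · intro q _ q' _ h
      exact Prod.swap_injective h
    · intro q hq
      exact ⟨q.swap, by simpa using hq, by simp⟩
  have h3 := Finset.card_filter_add_card_filter_not (s := (univ : Finset (Fin n × Fin n)))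
    (fun q : Fin n × Fin n => q.2 < q.1)
  rw [Fintype.card_subtype, ← h1, ← h2, h3]
  simp

theorem inj {n : ℕ} {ω ω' : Om n} (h1 : gOf ω = gOf ω')
    (h2 : (fun q : Hid n => ω q.1) = fun q : Hid n => ω' q.1) : ω = ω' := by
  funext q
  by_cases h : q.2 < q.1
  · obtain ⟨i, j⟩ := q
    have h3 : (gOf ω).Adj i j ↔ (gOf ω').Adj i j := by rw [h1]
    have h4 : ¬ i < j := not_lt.2 (le_of_lt h)
    have h5 : j < i := h
    have h6 : i ≠ j := (ne_of_lt h5).symm
    simp only [gOf, SimpleGraph.fromRel_adj, h4, h5, h6, false_and, or_false, true_and, ne_eq,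
      not_false_eq_true] at h3
    exact Bool.eq_iff_iff.2 h3
  · exact congrFun h2 ⟨q, h⟩

end SMAux

open SMAux

theorem pSM : StSM := by
  classical
  intro n Q s0 t P φ c W hc hn hP h0 hstep hW
  have key : ∀ i, i ≤ t → ∑ ω, ∑ q ∈ P ω, φ i ω q ≤ c ^ i * (Fintype.card (Om n) * W) := by
    intro i
    induction i with
    | zero =>
      intro _
      rw [pow_zero, one_mul, ← card_univ, ← nsmul_eq_mul]
      exact sum_le_card_nsmul _ _ _ fun ω _ => hW ω
    | succ i ih =>
      intro hi
      have h1 := resample (s0 + i) (by omega : s0 + i < n) fun ω => ∑ q ∈ P ω, φ (i + 1) ω q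
      have h2 : ∑ ω, ∑ a : Fin n → Bool, ∑ q ∈ P (setRow ω (s0 + i) a),
          φ (i + 1) (setRow ω (s0 + i) a) q ≤ 2 ^ n * (c * ∑ ω, ∑ q ∈ P ω, φ i ω q) := by
        rw [Finset.mul_sum, Finset.mul_sum]
        refine Finset.sum_le_sum fun ω _ => ?_
        simp only [hP ω (s0 + i) _ (Nat.le_add_right _ _)]
        rw [Finset.sum_comm, Finset.mul_sum, Finset.mul_sum]
        refine Finset.sum_le_sum fun q hq => (hstep i ω q (by omega) hq).trans (le_of_eq ?_)
        ring
      rw [h1] at h2
      have h3 := le_of_mul_le_mul_left h2 (by positivity)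
      refine h3.trans ?_
      rw [pow_succ', mul_assoc]
      exact mul_le_mul_of_nonneg_left (ih (by omega)) hc
  have hpos : (0 : ℝ) < Fintype.card (Om n) := by exact_mod_cast Fintype.card_pos
  rw [pr, div_le_iff₀ hpos]
  refine le_trans ?_ ((key t le_rfl).trans (le_of_eq (by ring)))
  rw [Finset.card_filter, Nat.cast_sum]
  refine Finset.sum_le_sum fun ω _ => ?_
  split_ifs with h
  · obtain ⟨q, hq, h1⟩ := h
    rw [Nat.cast_one]
    exact h1.trans (Finset.single_le_sum (fun q _ => h0 t ω q) hq)
  · rw [Nat.cast_zero]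
    exact Finset.sum_nonneg fun q _ => h0 t ω q

theorem pMany : StMany := by
  classical
  intro n E h
  set A : Finset (Om n) := univ.filter fun ω => E (gOf ω) with hA
  refine ⟨A.image gOf, fun G hG => ?_, ?_⟩
  · obtain ⟨ω, hω, rfl⟩ := mem_image.1 hG
    exact (mem_filter.1 hω).2
  have hpos : (0 : ℝ) < Fintype.card (Om n) := by exact_mod_cast Fintype.card_pos
  have h1 : Fintype.card (Om n) ≤ 2 * A.card := by
    rw [pr, div_le_iff₀ hpos] at h
    have h2 := Finset.card_filter_add_card_filter_not (s := (univ : Finset (Om n)))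
      (fun ω => E (gOf ω))
    rw [card_univ, ← hA] at h2
    have h3 : ((univ.filter fun ω : Om n => ¬ E (gOf ω)).card : ℝ) ≤
        1 / 2 * Fintype.card (Om n) := by
      refine le_trans (Nat.cast_le.2 (Finset.card_le_card fun ω hω => ?_)) h
      simpa using hω
    have h4 : (A.card : ℝ) + (univ.filter fun ω : Om n => ¬ E (gOf ω)).card =
        Fintype.card (Om n) := by exact_mod_cast h2
    have h5 : (Fintype.card (Om n) : ℝ) ≤ 2 * A.card := by linarith
    exact_mod_cast h5
  have h2 : A.card ≤ (A.image gOf).card * 2 ^ Fintype.card (Hid n) := by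
    have h3 : A.card ≤ ((A.image gOf) ×ˢ (univ : Finset (Hid n → Bool))).card := by
      refine Finset.card_le_card_of_injOn (fun ω => (gOf ω, fun q : Hid n => ω q.1)) ?_ ?_
      · intro ω hω
        exact mem_coe.2 (mem_product.2 ⟨mem_image_of_mem _ (mem_coe.1 hω), mem_univ _⟩)
      · intro ω _ ω' _ hh
        exact inj (congrArg Prod.fst hh) (congrArg Prod.snd hh)
    rw [card_product, card_univ, Fintype.card_fun, Fintype.card_bool] at h3
    exact h3
  have h3 : Fintype.card (Om n) = 2 ^ n.choose 2 * 2 ^ Fintype.card (Hid n) := by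
    rw [← pow_add, card_hid, Fintype.card_fun, Fintype.card_bool, Fintype.card_prod,
      Fintype.card_fin]
  rw [h3] at h1
  refine Nat.le_of_mul_le_mul_right (h1.trans ?_) (Nat.two_pow_pos (Fintype.card (Hid n)))
  rw [mul_assoc]
  exact Nat.mul_le_mul_left _ h2

end Pool.Agent.P.MP_f57657_co.SY
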